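import Mathlib

open Finset

namespace Pool.Agent.Lib.MP_0d366e_co

open Classical

variable {V : Type} (G : SimpleGraph V)

/-- `f 0, ..., f (k-1)` is an induced path. -/
def IP (f : ℕ → V) (k : ℕ) : Prop :=
  ∀ i < k, ∀ j < k, (G.Adj (f i) (f j) ↔ (i + 1 = j ∨ j + 1 = i)) ∧ (f i = f j → i = j)

/-- Two distinct vertices have at most one common neighbour. -/
def C4F : Prop := ∀ a b c d : V, G.Adj a b → G.Adj b c → G.Adj c d → G.Adj d a → a = c ∨ b = d

/-- An independent set of neighbours of `v`. -/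
def NI (v : V) (I : Finset V) : Prop :=
  (∀ x ∈ I, G.Adj v x) ∧ ∀ x ∈ I, ∀ y ∈ I, ¬ G.Adj x y

/-- Independence number of the neighbourhood of `v` inside `S`. -/
noncomputable def la (S : Finset V) (v : V) : ℕ :=
  (S.powerset.filter (NI G v)).sup card

variable {G}

theorem IP.emb {f : ℕ → V} {k : ℕ} (h : IP G f k) {n : ℕ} (hn : n ≤ k) :
    Nonempty (SimpleGraph.pathGraph n ↪g G) := by
  refine ⟨⟨⟨fun i => f i, fun i j hij => ?_⟩, fun {i j} => ?_⟩⟩
  · exact Fin.ext ((h i (by omega) j (by omega)).2 hij)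
  · rw [SimpleGraph.pathGraph_adj]
    exact (h i (by omega) j (by omega)).1

theorem IP.mono {f : ℕ → V} {k n : ℕ} (h : IP G f k) (hn : n ≤ k) : IP G f n :=
  fun i hi j hj => h i (by omega) j (by omega)

/-- Put a vertex in front of a sequence. -/
def cons (u : V) (f : ℕ → V) : ℕ → V
  | 0 => u
  | i + 1 => f i

theorem IP.cons {f : ℕ → V} {k : ℕ} (h : IP G f k) {u : V} (h0 : G.Adj u (f 0))
    (h1 : ∀ i, 0 < i → i < k → ¬ G.Adj u (f i)) (h2 : ∀ i < k, u ≠ f i) :
    IP G (cons u f) (k + 1) := by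
  intro i hi j hj
  rcases i with _ | i <;> rcases j with _ | j
  · simp
  · simp only [Pool.Agent.Lib.MP_0d366e_co.cons]
    refine ⟨⟨fun ha => ?_, fun ha => ?_⟩, fun he => (h2 j (by omega) he).elim⟩
    · by_contra hc
      exact h1 j (by omega) (by omega) ha
    · rw [show j = 0 by omega]; exact h0
  · simp only [Pool.Agent.Lib.MP_0d366e_co.cons]
    refine ⟨⟨fun ha => ?_, fun ha => ?_⟩, fun he => (h2 i (by omega) he.symm).elim⟩
    · by_contra hc
      exact h1 i (by omega) (by omega) ha.symm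
    · rw [show i = 0 by omega]; exact h0.symm
  · simp only [Pool.Agent.Lib.MP_0d366e_co.cons]
    have := h i (by omega) j (by omega)
    refine ⟨this.1.trans (by omega), fun he => by rw [this.2 he]⟩

theorem IP.rev {f : ℕ → V} {k : ℕ} (h : IP G f k) : IP G (fun i => f (k - 1 - i)) k := by
  intro i hi j hj
  have := h (k - 1 - i) (by omega) (k - 1 - j) (by omega)
  refine ⟨this.1.trans (by omega), fun he => ?_⟩
  have := this.2 he
  omega

theorem IP.shift {f : ℕ → V} {k : ℕ} (s : ℕ) (h : IP G f (s + k)) : IP G (fun i => f (s + i)) k := by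
  intro i hi j hj
  have := h (s + i) (by omega) (s + j) (by omega)
  refine ⟨this.1.trans (by omega), fun he => ?_⟩
  have := this.2 he
  omega

theorem le_la {S I : Finset V} {v : V} (hI : I ⊆ S) (h : NI G v I) : I.card ≤ la G S v :=
  le_sup (f := card) (mem_filter.mpr ⟨mem_powerset.mpr hI, h⟩)

theorem exists_la (S : Finset V) (v : V) : ∃ I ⊆ S, NI G v I ∧ I.card = la G S v := by
  have hne : (S.powerset.filter (NI G v)).Nonempty :=
    ⟨∅, mem_filter.mpr ⟨empty_mem_powerset _, by simp [NI]⟩⟩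
  obtain ⟨I, hI, he⟩ := exists_mem_eq_sup _ hne card
  obtain ⟨a, b⟩ := mem_filter.mp hI
  exact ⟨I, mem_powerset.mp a, b, he.symm⟩

theorem NI.subset {v : V} {I J : Finset V} (h : NI G v I) (hJ : J ⊆ I) : NI G v J :=
  ⟨fun x hx => h.1 x (hJ hx), fun x hx y hy => h.2 x (hJ hx) y (hJ hy)⟩

/-- Passing from `S` to `T` costs at most the neighbours outside `T`. -/
theorem la_le (S T : Finset V) (v : V) :
    la G S v ≤ la G T v + ((S \ T).filter (G.Adj v)).card := by
  obtain ⟨I, hI, hn, he⟩ := exists_la (G := G) S v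
  rw [← he, ← card_inter_add_card_sdiff I T]
  refine Nat.add_le_add (le_la inter_subset_right (hn.subset inter_subset_left)) (card_le_card ?_)
  intro x hx
  obtain ⟨a, b⟩ := mem_sdiff.mp hx
  exact mem_filter.mpr ⟨mem_sdiff.mpr ⟨hI a, b⟩, hn.1 x a⟩

theorem la_le_deg (S : Finset V) (v : V) : la G S v ≤ (S.filter (G.Adj v)).card := by
  obtain ⟨I, hI, hn, he⟩ := exists_la (G := G) S v
  rw [← he]
  exact card_le_card fun x hx => mem_filter.mpr ⟨hI hx, hn.1 x hx⟩

theorem C4F.uniq (h : C4F G) {a c b d : V} (hac : a ≠ c) (h1 : G.Adj a b) (h2 : G.Adj c b)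
    (h3 : G.Adj a d) (h4 : G.Adj c d) : b = d :=
  (h a b c d h1 h2.symm h4 h3.symm).resolve_left hac

/-- `K` is a union of components of the subgraph induced on `D`. -/
def Cl (G : SimpleGraph V) (D K : Finset V) : Prop :=
  K ⊆ D ∧ ∀ x ∈ K, ∀ y ∈ D, G.Adj x y → y ∈ K

/-- Every component of the subgraph induced on `D` has a neighbour in `A`. -/
def Att (G : SimpleGraph V) (A D : Finset V) : Prop :=
  ∀ K, Cl G D K → K.Nonempty → ∃ x ∈ K, ∃ w ∈ A, G.Adj w x

/-- A connected piece on which the average of `φ` still exceeds `t`. -/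
theorem exists_piece (D : Finset V) (φ : V → ℕ) (t : ℕ) (h : t * D.card < ∑ v ∈ D, φ v) :
    ∃ K, Cl G D K ∧ t * K.card < ∑ v ∈ K, φ v ∧ ∀ K', Cl G K K' → K'.Nonempty → K' = K := by
  have hex : ∃ n, ∃ K, K.card = n ∧ Cl G D K ∧ t * K.card < ∑ v ∈ K, φ v :=
    ⟨_, D, rfl, ⟨Subset.rfl, fun _ _ _ hy _ => hy⟩, h⟩
  obtain ⟨K, hKn, hK, hlt⟩ := Nat.find_spec hex
  refine ⟨K, hK, hlt, fun K' hK' hne => ?_⟩
  by_contra hneq
  have hss : K' ⊂ K := ⟨hK'.1, fun hc => hneq (Subset.antisymm hK'.1 hc)⟩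
  have c1 : Cl G D K' := ⟨hK'.1.trans hK.1, fun x hx y hy ha =>
    hK'.2 x hx y (hK.2 x (hK'.1 hx) y hy ha) ha⟩
  have c2 : Cl G D (K \ K') := ⟨sdiff_subset.trans hK.1, fun x hx y hy ha => by
    obtain ⟨a, b⟩ := mem_sdiff.mp hx
    exact mem_sdiff.mpr ⟨hK.2 x a y hy ha, fun hc => b (hK'.2 y hc x a ha.symm)⟩⟩
  have l1 := card_lt_card hss
  have l2 := card_sdiff_add_card_eq_card hK'.1
  have l3 := hne.card_pos
  have s1 := sum_sdiff (f := φ) hK'.1
  have m1 := Nat.find_min hex (m := K'.card) (by omega)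
  have m2 := Nat.find_min hex (m := (K \ K').card) (by omega)
  push Not at m1 m2
  have a1 := m1 K' rfl c1
  have a2 := m2 (K \ K') rfl c2
  rw [← l2, Nat.mul_add] at hlt
  omega

end Pool.Agent.Lib.MP_0d366e_co
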