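import Pool.Agent.Lib.MP_0d366e_co.Cnt

open Finset

namespace Pool.Agent.Lib.MP_0d366e_co

open Classical

variable {V : Type} {G : SimpleGraph V}

/-- The subgraph induced on `K` is connected or empty. -/
def Irr (G : SimpleGraph V) (K : Finset V) : Prop := ∀ K', Cl G K K' → K'.Nonempty → K' = K

theorem Cl.trans {D K K' : Finset V} (h : Cl G D K) (h' : Cl G K K') : Cl G D K' :=
  ⟨h'.1.trans h.1, fun x hx y hy ha => h'.2 x hx y (h.2 x (h'.1 hx) y hy ha) ha⟩

theorem Cl.sdiff {D K K' : Finset V} (h : Cl G D K) (h' : Cl G K K') : Cl G D (K \ K') :=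
  ⟨sdiff_subset.trans h.1, fun x hx y hy ha => by
    obtain ⟨a, b⟩ := mem_sdiff.mp hx
    exact mem_sdiff.mpr ⟨h.2 x a y hy ha, fun hc => b (h'.2 y hc x a ha.symm)⟩⟩

theorem exists_comp (D : Finset V) {v : V} (hv : v ∈ D) : ∃ K, Cl G D K ∧ v ∈ K ∧ Irr G K := by
  have hex : ∃ n, ∃ K, K.card = n ∧ Cl G D K ∧ v ∈ K :=
    ⟨_, D, rfl, ⟨Subset.rfl, fun _ _ _ hy _ => hy⟩, hv⟩
  obtain ⟨K, hKn, hK, hvK⟩ := Nat.find_spec hex
  refine ⟨K, hK, hvK, fun K' hK' hne => ?_⟩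
  by_contra hneq
  have hss : K' ⊂ K := ⟨hK'.1, fun hc => hneq (Subset.antisymm hK'.1 hc)⟩
  have l1 := card_lt_card hss
  have l2 := card_sdiff_add_card_eq_card hK'.1
  have l3 := hne.card_pos
  have m1 := Nat.find_min hex (m := K'.card) (by omega)
  have m2 := Nat.find_min hex (m := (K \ K').card) (by omega)
  push Not at m1 m2
  exact m2 (K \ K') rfl (hK.sdiff hK') (mem_sdiff.mpr ⟨hvK, m1 K' rfl (hK.trans hK')⟩)

/-- A connected set meeting a set closed under adjacency lies inside it. -/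
theorem Irr.subset {K U : Finset V} (h : Irr G K) (hU : ∀ x ∈ U, ∀ y ∈ K, G.Adj x y → y ∈ U)
    {v : V} (h1 : v ∈ K) (h2 : v ∈ U) : K ⊆ U := by
  have := h (K ∩ U) ⟨inter_subset_left, fun x hx y hy ha =>
    mem_inter.mpr ⟨hy, hU x (mem_inter.mp hx).2 y hy ha⟩⟩ ⟨v, mem_inter.mpr ⟨h1, h2⟩⟩
  rw [← this]
  exact inter_subset_right

theorem exists_att (A D : Finset V) :
    ∃ Y, Cl G D Y ∧ Att G A Y ∧ ∀ y ∈ D, (∃ a ∈ A, G.Adj a y) → y ∈ Y := by
  set Y := D.filter (fun y => ∀ K, Cl G D K → y ∈ K → ∃ x ∈ K, ∃ w ∈ A, G.Adj w x) with hY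
  have hYD : Y ⊆ D := filter_subset _ _
  have hcl : Cl G D Y := ⟨hYD, fun y hy z hz hadj => mem_filter.mpr ⟨hz, fun K hK hzK =>
      (mem_filter.mp hy).2 K hK (hK.2 z hzK y (hYD hy) hadj.symm)⟩⟩
  refine ⟨Y, hcl, fun K hK ⟨y, hy⟩ => (mem_filter.mp (hK.1 hy)).2 K (hcl.trans hK) hy,
    fun y hy ⟨a, ha, hay⟩ => mem_filter.mpr ⟨hy, fun K _ hK => ⟨y, hK, a, ha, hay⟩⟩⟩

/-- A breadth first search tree of the component `U` of `ρ` in `S`. -/
structure Bfs (G : SimpleGraph V) (S : Finset V) (ρ : V) (U : Finset V) (lv : V → ℕ)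
    (par : V → V) : Prop where
  sub : U ⊆ S
  root : ρ ∈ U
  cl : ∀ x ∈ U, ∀ y ∈ S, G.Adj x y → y ∈ U
  lip : ∀ x ∈ U, ∀ y ∈ S, G.Adj x y → lv y ≤ lv x + 1
  lv0 : lv ρ = 0
  par0 : par ρ = ρ
  step : ∀ x ∈ U, x ≠ ρ → par x ∈ U ∧ G.Adj x (par x) ∧ lv (par x) + 1 = lv x

/-- There is a walk of length `i` from `ρ` to `v` in `S`. -/
def Rch (G : SimpleGraph V) (S : Finset V) (ρ : V) : ℕ → V → Prop
  | 0, v => v = ρ
  | i + 1, v => v ∈ S ∧ ∃ y, Rch G S ρ i y ∧ G.Adj v y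

theorem exists_bfs (S : Finset V) {ρ : V} (hρ : ρ ∈ S) : ∃ U lv par, Bfs G S ρ U lv par := by
  set U := S.filter (fun v => ∃ i, Rch G S ρ i v) with hU
  set lv : V → ℕ := fun v => if h : ∃ i, Rch G S ρ i v then Nat.find h else 0 with hlv
  have hS : ∀ i v, Rch G S ρ i v → v ∈ S := by
    intro i v h
    rcases i with _ | i
    · rw [show v = ρ from h]; exact hρ
    · exact h.1
  have h1 : ∀ i v, Rch G S ρ i v → lv v ≤ i := by
    intro i v h
    simp only [hlv, dif_pos (⟨i, h⟩ : ∃ i, Rch G S ρ i v)]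
    exact Nat.find_min' _ h
  have h2 : ∀ v ∈ U, Rch G S ρ (lv v) v := by
    intro v hv
    have := (mem_filter.mp hv).2
    simp only [hlv, dif_pos this]
    exact Nat.find_spec this
  have h3 : ∀ x ∈ U, ∀ y ∈ S, G.Adj x y → Rch G S ρ (lv x + 1) y :=
    fun x hx y hy ha => ⟨hy, x, h2 x hx, ha.symm⟩
  have h4 : ∀ x, ∃ y, (x = ρ → y = ρ) ∧ (x ∈ U → x ≠ ρ → y ∈ U ∧ G.Adj x y ∧ lv y + 1 = lv x) := by
    intro x
    by_cases hx : x ∈ U ∧ x ≠ ρ
    · have a := h2 x hx.1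
      obtain ⟨k, hk⟩ : ∃ k, lv x = k + 1 := by
        refine Nat.exists_eq_succ_of_ne_zero fun h0 => ?_
        rw [h0] at a
        exact hx.2 a
      rw [hk] at a
      obtain ⟨b, y, c, d⟩ := a
      have hy : y ∈ U := mem_filter.mpr ⟨hS _ _ c, k, c⟩
      have e1 := h1 _ _ c
      have e2 := h1 _ _ (h3 y hy x b d.symm)
      exact ⟨y, fun h => (hx.2 h).elim, fun _ _ => ⟨hy, d, by omega⟩⟩
    · exact ⟨ρ, fun _ => rfl, fun a b => (hx ⟨a, b⟩).elim⟩
  choose par p1 p2 using h4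
  refine ⟨U, lv, par, filter_subset _ _, mem_filter.mpr ⟨hρ, 0, rfl⟩,
    fun x hx y hy ha => mem_filter.mpr ⟨hy, _, h3 x hx y hy ha⟩,
    fun x hx y hy ha => h1 _ _ (h3 x hx y hy ha), Nat.le_zero.mp (h1 0 ρ rfl), p1 ρ rfl, p2⟩

section

variable {S U : Finset V} {ρ : V} {lv : V → ℕ} {par : V → V}

theorem Bfs.eq_root (h : Bfs G S ρ U lv par) {x : V} (hx : x ∈ U) (h0 : lv x = 0) : x = ρ := by
  by_contra hne
  have := (h.step x hx hne).2.2
  omega

theorem Bfs.iter (h : Bfs G S ρ U lv par) {x : V} (hx : x ∈ U) (i : ℕ) :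
    par^[i] x ∈ U ∧ lv (par^[i] x) = lv x - i := by
  induction i with
  | zero => exact ⟨hx, rfl⟩
  | succ i ih =>
    rw [Function.iterate_succ_apply']
    by_cases he : par^[i] x = ρ
    · have := ih.2
      rw [he, h.lv0] at this
      rw [he, h.par0, h.lv0]
      exact ⟨h.root, by omega⟩
    · obtain ⟨a, -, c⟩ := h.step _ ih.1 he
      exact ⟨a, by omega⟩

theorem Bfs.adj (h : Bfs G S ρ U lv par) {x : V} (hx : x ∈ U) {i : ℕ} (hi : i < lv x) :
    G.Adj (par^[i] x) (par^[i + 1] x) := by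
  rw [Function.iterate_succ_apply']
  obtain ⟨a, b⟩ := h.iter hx i
  refine (h.step _ a fun he => ?_).2.1
  rw [he, h.lv0] at b
  omega

theorem Bfs.ip (h : Bfs G S ρ U lv par) {x : V} (hx : x ∈ U) :
    IP G (fun i => par^[i] x) (lv x + 1) := by
  intro i hi j hj
  obtain ⟨a1, a2⟩ := h.iter hx i
  obtain ⟨b1, b2⟩ := h.iter hx j
  refine ⟨⟨fun ha => ?_, fun ha => ?_⟩, fun he => ?_⟩
  · have c1 := h.lip _ a1 _ (h.sub b1) ha
    have c2 := h.lip _ b1 _ (h.sub a1) ha.symm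
    have c3 : i ≠ j := by rintro rfl; exact G.irrefl ha
    omega
  · rcases ha with rfl | rfl
    · exact h.adj hx (by omega)
    · exact (h.adj hx (by omega)).symm
  · have : lv (par^[i] x) = lv (par^[j] x) := congrArg lv he
    omega

theorem Bfs.chain (h : Bfs G S ρ U lv par) {Y Z : Finset V}
    (hY : ∀ a ∈ Y, ∀ b ∈ Z, G.Adj a b → b ∈ Y) {x : V} (hx : x ∈ U)
    (hZ : ∀ i ≤ lv x, par^[i] x ∈ Z) : x ∈ Y ↔ ρ ∈ Y := by
  have key : ∀ i ≤ lv x, (x ∈ Y ↔ par^[i] x ∈ Y) := by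
    intro i hi
    induction i with
    | zero => rfl
    | succ i ih =>
      have a := h.adj hx (i := i) (by omega)
      rw [ih (by omega)]
      exact ⟨fun b => hY _ b _ (hZ _ hi) a, fun b => hY _ b _ (hZ _ (by omega)) a.symm⟩
  have := key (lv x) le_rfl
  rwa [h.eq_root (h.iter hx _).1 (by rw [(h.iter hx _).2]; omega)] at this

theorem Bfs.lipschitz (h : Bfs G S ρ U lv par) (l : V → ℕ)
    (hl : ∀ x ∈ S, ∀ y ∈ S, G.Adj x y → l y ≤ l x + 1) {x : V} (hx : x ∈ U) :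
    l x ≤ l ρ + lv x ∧ l ρ ≤ l x + lv x := by
  have key : ∀ i ≤ lv x, l x ≤ l (par^[i] x) + i ∧ l (par^[i] x) ≤ l x + i := by
    intro i hi
    induction i with
    | zero => simp
    | succ i ih =>
      have a := h.adj hx (i := i) (by omega)
      have b := hl _ (h.sub (h.iter hx _).1) _ (h.sub (h.iter hx _).1) a
      have c := hl _ (h.sub (h.iter hx _).1) _ (h.sub (h.iter hx _).1) a.symm
      have := ih (by omega)
      omega
  have := key (lv x) le_rfl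
  rwa [h.eq_root (h.iter hx _).1 (by rw [(h.iter hx _).2]; omega)] at this

end

/-- An induced path with `n` vertices that starts in `A` and continues in `D`. -/
def Ext (G : SimpleGraph V) (A D : Finset V) (n : ℕ) : Prop :=
  ∃ f, IP G f n ∧ f 0 ∈ A ∧ ∀ i, 0 < i → i < n → f i ∈ D

theorem Ext.mono {A D A' D' : Finset V} {n n' : ℕ} (h : Ext G A D n) (hA : A ⊆ A') (hD : D ⊆ D')
    (hn : n' ≤ n) : Ext G A' D' n' := by
  obtain ⟨f, h1, h2, h3⟩ := h
  exact ⟨f, h1.mono hn, hA h2, fun i a b => hD (h3 i a (by omega))⟩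

/-- A path `d, f t, ..., f 1` can be put in front of a path from `f 0` into `R`. -/
theorem Ext.glue {B K R : Finset V} (hd : Disjoint B K) {f : ℕ → V} {t : ℕ} (hf : IP G f (t + 1))
    (hK : ∀ i ≤ t, f i ∈ K) {d : V} (hdB : d ∈ B) (h1 : G.Adj d (f t))
    (h2 : ∀ i < t, ¬ G.Adj d (f i)) (hR : R ⊆ K)
    (h3 : ∀ y ∈ R, ¬ G.Adj d y ∧ ∀ i, 1 ≤ i → i ≤ t → ¬ G.Adj (f i) y) {m : ℕ} (hm : 1 ≤ m)
    (h : Ext G {f 0} R m) : Ext G B K (m + (t + 1)) := by
  obtain ⟨p, p1, p2, p3⟩ := h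
  rw [mem_singleton] at p2
  have hdK : ∀ y ∈ K, d ≠ y := fun y hy he => disjoint_left.mp hd hdB (he ▸ hy)
  have q1 : IP G (cons d (fun i => f (t + 1 - 1 - i))) (t + 1 + 1) :=
    hf.rev.cons (by simpa using h1) (fun i a b => h2 _ (by omega)) (fun i _ => hdK _ (hK _ (by omega)))
  have q2 := q1.rev
  set q : ℕ → V := fun i => cons d (fun i => f (t + 1 - 1 - i)) (t + 1 + 1 - 1 - i) with hq
  have q3 : ∀ i ≤ t, q i = f i := by
    intro i hi
    simp only [hq]
    rw [show t + 1 + 1 - 1 - i = (t - i) + 1 by omega]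
    simp only [cons]
    congr 1
    omega
  have q4 : q (t + 1) = d := by
    simp only [hq]
    rw [show t + 1 + 1 - 1 - (t + 1) = 0 by omega]
    rfl
  have q5 : IP G (fun i => q (1 + i)) (t + 1) := IP.shift 1 (by rwa [add_comm 1])
  have q6 : ∀ y ∈ R, ∀ i ≤ t, ¬ G.Adj (q (1 + i)) y := by
    intro y hy i hi
    rcases Nat.lt_or_ge i t with a | a
    · rw [q3 _ (by omega)]
      exact (h3 y hy).2 _ (by omega) (by omega)
    · rw [show 1 + i = t + 1 by omega, q4]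
      exact (h3 y hy).1
  obtain ⟨F, hF, hs⟩ := p1.prepend (by omega) t q5
    (by
      rw [p2, ← q3 0 (by omega)]
      exact (q2 _ (by omega) 0 (by omega)).1.mpr (by omega))
    (by
      intro i hi j hj
      rcases Nat.eq_zero_or_pos j with rfl | hp
      · rw [p2, ← q3 0 (by omega)]
        have := q2 (1 + i) (by omega) 0 (by omega)
        exact ⟨fun he => by have := this.2 he; omega, fun ha => by have := this.1.mp ha; omega⟩
      · have hy := p3 j hp hj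
        refine ⟨fun he => ?_, fun ha => (q6 _ hy i hi ha).elim⟩
        rcases Nat.lt_or_ge i t with a | a
        · refine q6 _ hy (i + 1) (by omega) ?_
          rw [← he]
          exact (q2 _ (by omega) _ (by omega)).1.mpr (by omega)
        · rw [show 1 + i = t + 1 by omega, q4] at he
          exact hdK _ (hR hy) he)
  refine ⟨F, hF, ?_, fun j a b => ?_⟩
  · rcases hs 0 (by omega) with ⟨i, a, b, c⟩ | ⟨i, a, b, c⟩
    · rw [c, show 1 + i = t + 1 by omega, q4]; exact hdB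
    · omega
  · rcases hs j b with ⟨i, a', b', c⟩ | ⟨i, a', b', c⟩
    · rw [c, q3 _ (by omega)]
      exact hK _ (by omega)
    · rw [c]
      rcases Nat.eq_zero_or_pos i with rfl | hp
      · rw [p2]; exact hK 0 (by omega)
      · exact hR (p3 i hp a')

/-- Greedy construction of an induced path through sets `T t, ..., T 0` avoiding obstacles. -/
theorem walk (hc : C4F G) {B K : Finset V} (hd : Disjoint B K)
    (hu : ∀ v ∈ K, ∀ w ∈ B, ∀ w' ∈ B, G.Adj w v → G.Adj w' v → w = w') (T : ℕ → Finset V)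
    (hT : ∀ j, T j ⊆ K) (F : ℕ) (hF : ∀ j, ∀ v ∈ T (j + 1), F < dg G (T j) v) (t : ℕ) :
    ∀ (O : Finset V) (x : V), O ⊆ K → x ∈ T t → x ∉ O → 3 * (O.card + t) ≤ F →
      (t = 0 → ∀ d ∈ B, G.Adj d x → ∀ c ∈ O, ¬ G.Adj d c) →
      ∃ f, IP G f (t + 1) ∧ f 0 = x ∧ (∀ i ≤ t, f i ∈ T (t - i)) ∧
        (∀ i, 1 ≤ i → i ≤ t → f i ∉ O ∧ ∀ c ∈ O, ¬ G.Adj (f i) c) ∧
        ∀ d ∈ B, G.Adj d (f t) → (∀ c ∈ O, ¬ G.Adj d c) ∧ ∀ i < t, ¬ G.Adj d (f i) := by
  induction t with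
  | zero =>
    intro O x _ hx _ _ h0
    refine ⟨fun _ => x, fun i hi j hj => ⟨⟨fun h => (G.irrefl h).elim, fun h => by omega⟩,
      fun _ => by omega⟩, rfl, fun i _ => by simpa using hx, fun i a b => by omega,
      fun d hdB ha => ⟨h0 rfl d hdB ha, fun i hi => by omega⟩⟩
  | succ t ih =>
    intro O x hO hx hxO hF' _
    have hxK := hT _ hx
    set N := (T t).filter (G.Adj x) with hN
    set X1 := N.filter (fun y => ∃ c ∈ O, G.Adj y c) with hX1
    set X2 := N.filter (fun y => ∃ d ∈ B, G.Adj d y ∧ ∃ c ∈ insert x O, G.Adj d c) with hX2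
    have c1 : X1.card ≤ O.card := by
      have key : ∀ y ∈ X1, ∃ c ∈ O, G.Adj y c := fun y hy => (mem_filter.mp hy).2
      choose! φ h1 h2 using key
      refine card_le_card_of_injOn φ (fun y hy => h1 y hy) fun y hy z hz he => ?_
      have a := (mem_filter.mp (mem_filter.mp hy).1).2
      have b := (mem_filter.mp (mem_filter.mp hz).1).2
      exact hc.uniq (fun h : x = φ y => hxO (h ▸ h1 y hy)) a (h2 y hy).symm b (he ▸ (h2 z hz).symm)
    have c2 : X2.card ≤ (insert x O).card := by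
      have key : ∀ y ∈ X2, ∃ c ∈ insert x O, ∃ d ∈ B, G.Adj d y ∧ G.Adj d c := fun y hy => by
        obtain ⟨d, a, b, c, e, g⟩ := (mem_filter.mp hy).2
        exact ⟨c, e, d, a, b, g⟩
      choose! φ h1 h2 using key
      refine card_le_card_of_injOn φ (fun y hy => h1 y hy) fun y hy z hz he => ?_
      have a := (mem_filter.mp (mem_filter.mp hy).1).2
      have b := (mem_filter.mp (mem_filter.mp hz).1).2
      obtain ⟨d, d1, d2, d3⟩ := h2 y hy
      obtain ⟨d', e1, e2, e3⟩ := h2 z hz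
      have : d = d' := hu (φ y) (insert_subset hxK hO (h1 y hy)) d d1 d' e1 d3 (he ▸ e3)
      subst this
      exact hc.uniq (fun h : x = d => disjoint_left.mp hd d1 (h ▸ hxK)) a d2 b e2
    have c3 := card_insert_le x O
    have c4 : F < N.card := hF t x hx
    obtain ⟨y, hyN, hy⟩ : ∃ y ∈ N, y ∉ O ∪ X1 ∪ X2 := by
      refine exists_mem_notMem_of_card_lt_card ?_
      have a := card_union_le (O ∪ X1) X2
      have b := card_union_le O X1
      omega
    simp only [mem_union, not_or] at hy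
    obtain ⟨⟨y1, y2⟩, y3⟩ := hy
    obtain ⟨y4, y5⟩ := mem_filter.mp hyN
    have y6 : ∀ c ∈ O, ¬ G.Adj y c := fun c a b => y2 (mem_filter.mpr ⟨hyN, c, a, b⟩)
    obtain ⟨f, f1, f2, f3, f4, f5⟩ := ih (insert x O) y (insert_subset hxK hO) y4
      (fun h => (mem_insert.mp h).elim (fun h => y5.ne h.symm) y1) (by omega)
      (fun _ d a b c e g => y3 (mem_filter.mpr ⟨hyN, d, a, b, c, e, g⟩))
    refine ⟨cons x f, f1.cons (f2 ▸ y5) (fun i a b h => (f4 i a (by omega)).2 x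
      (mem_insert_self _ _) h.symm) (fun i hi he => ?_), rfl, fun i hi => ?_, fun i a b => ?_,
      fun d a b => ⟨fun c e => (f5 d a b).1 c (mem_insert_of_mem e), fun i hi => ?_⟩⟩
    · rcases Nat.eq_zero_or_pos i with rfl | hp
      · exact y5.ne (he.trans f2)
      · exact (f4 i hp (by omega)).1 (he ▸ mem_insert_self _ _)
    · rcases i with _ | i
      · exact hx
      · rw [show t + 1 - (i + 1) = t - i by omega]
        exact f3 i (by omega)
    · obtain ⟨j, rfl⟩ : ∃ j, i = j + 1 := ⟨i - 1, by omega⟩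
      rcases Nat.eq_zero_or_pos j with rfl | hp
      · show f 0 ∉ O ∧ ∀ c ∈ O, ¬ G.Adj (f 0) c
        rw [f2]; exact ⟨y1, y6⟩
      · have := f4 j hp (by omega)
        exact ⟨fun h => this.1 (mem_insert_of_mem h), fun c e => this.2 c (mem_insert_of_mem e)⟩
    · rcases i with _ | i
      · exact (f5 d a b).1 x (mem_insert_self _ _)
      · exact (f5 d a b).2 i (by omega)

end Pool.Agent.Lib.MP_0d366e_co
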