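import Pool.Agent.Lib.MP_0d366e_co.Opt

open Finset

namespace Pool.Agent.Lib.MP_0d366e_co

open Classical

variable {V : Type} {G : SimpleGraph V}

theorem star (hc : C4F G) {B : Finset V} (hB : Irr G B) {h : V} (hh : h ∉ B)
    (hne : (B.filter (G.Adj h)).Nonempty) {m : ℕ} (hx : ¬ Ext G {h} B (m + 3)) {K : Finset V}
    (hK : Cl G (B \ B.filter (G.Adj h)) K) : ∑ v ∈ K, la G B v ≤ m * K.card := by
  by_contra hlt
  obtain ⟨v1, v2, v3⟩ := val_step hc hB hh hne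
  have := pot hc m (B.filter (G.Adj h)) K (v1.mono_right hK.1) (fun v hv => v2 v (hK.1 hv))
    (fun K' hK' => v3 K' (hK.trans hK')) ((not_le.mp hlt).trans_le (sum_le_sum fun v hv => by
      have := la_cl (A := B.filter (G.Adj h)) hK hv
      rwa [union_sdiff_of_subset (filter_subset _ _)] at this))
  exact hx (ext_step (mem_singleton_self h) hh (Ext.mono this Subset.rfl hK.1 le_rfl))

theorem side (hc : C4F G) {B : Finset V} {h1 h2 : V} (a1 : h1 ∉ B) (a2 : h2 ∉ B)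
    (hd : ∀ x ∈ B, G.Adj h1 x → ¬ G.Adj h2 x)
    (hi : ∀ x ∈ B, ∀ y ∈ B, G.Adj h1 x → G.Adj h1 y → ¬ G.Adj x y)
    {v : V} (hv : v ∈ B) (hv1 : G.Adj h1 v) {m : ℕ}
    (s0 : (m + 1) * ((B \ B.filter (G.Adj h2)) \ B.filter (G.Adj h1)).card ≤
      ∑ x ∈ (B \ B.filter (G.Adj h2)) \ B.filter (G.Adj h1), la G B x)
    (s1 : (m + 1) * (B.filter (G.Adj h1)).card ≤ ∑ x ∈ B.filter (G.Adj h1), la G B x)
    (s2 : ∀ K, Cl G (B \ B.filter (G.Adj h2)) K → ∑ x ∈ K, la G B x ≤ (m + 1) * K.card) :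
    Ext G {h1} (B \ B.filter (G.Adj h2)) (m + 2) := by
  set C1 := B.filter (G.Adj h1) with hC1
  set C2 := B.filter (G.Adj h2) with hC2
  set D := (B \ C2) \ C1 with hD
  have hvC : v ∈ C1 := mem_filter.mpr ⟨hv, hv1⟩
  have hfil : (B \ C2).filter (G.Adj h1) = C1 := by
    ext x
    simp only [hC1, hC2, mem_filter, mem_sdiff, not_and]
    exact ⟨fun h => ⟨h.1.1, h.2⟩, fun h => ⟨⟨h.1, fun _ => hd x h.1 h.2⟩, h.2⟩⟩
  refine ext_step (mem_singleton_self h1) (fun h => a1 (mem_sdiff.mp h).1) ?_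
  rw [hfil]
  rcases m with _ | m
  · refine ⟨fun _ => v, fun i hi j hj => ?_, hvC, fun i a b => by omega⟩
    exact ⟨⟨fun h => (G.irrefl h).elim, fun h => by omega⟩, fun _ => by omega⟩
  obtain ⟨Y, y1, y2, y3⟩ := exists_att (G := G) C1 D
  have hDB : ∀ x ∈ D, x ∈ B := fun x hx => (mem_sdiff.mp (mem_sdiff.mp hx).1).1
  have one : ∀ x ∈ B, dg G C2 x ≤ 1 := fun x hx => dg_nb_le_one hc B fun he => a2 (he ▸ hx)
  have hZ : Cl G (B \ C2) (D \ Y) := ⟨sdiff_subset.trans sdiff_subset, fun x hx y hy ha => by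
    obtain ⟨b1, b2⟩ := mem_sdiff.mp hx
    have hyD : y ∈ D := mem_sdiff.mpr ⟨hy, fun h => b2 (y3 x b1 ⟨y, h, ha.symm⟩)⟩
    exact mem_sdiff.mpr ⟨hyD, fun h => b2 (y1.2 y h x b1 ha.symm)⟩⟩
  have z1 := s2 _ hZ
  have z2 := sum_sdiff (f := la G B) y1.1
  have z3 := card_sdiff_add_card_eq_card y1.1
  have hY : Y.Nonempty := by
    by_contra hY
    rw [not_nonempty_iff_eq_empty] at hY
    have : ∑ x ∈ C1, la G B x ≤ ∑ x ∈ C1, 1 := sum_le_sum fun x hx => by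
      obtain ⟨b1, b2⟩ := mem_filter.mp hx
      have := la_le_of (G := G) (S := B) (T := ∅) (U := C2) (v := x) fun y hy ha => by
        right
        by_contra h2
        have hyD : y ∈ D := mem_sdiff.mpr ⟨mem_sdiff.mpr ⟨hy, h2⟩,
          fun h => hi x b1 y hy b2 (mem_filter.mp h).2 ha⟩
        exact notMem_empty y (hY ▸ y3 y hyD ⟨x, hx, ha⟩)
      have e := la_le_deg (G := G) ∅ x
      have := one x b1
      simp only [filter_empty, card_empty] at e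
      omega
    have p := card_pos.mpr ⟨v, hvC⟩
    rw [← card_eq_sum_ones] at this
    nlinarith
  have z4 : ∑ x ∈ Y, la G B x ≤ ∑ x ∈ Y, (la G (C1 ∪ Y) x + 1) := sum_le_sum fun x hx => by
    have := la_le_of (G := G) (S := B) (T := C1 ∪ Y) (U := C2) (v := x) fun y hy ha => by
      by_cases h2 : y ∈ C2
      · exact Or.inr h2
      · by_cases h1' : y ∈ C1
        · exact Or.inl (mem_union_left _ h1')
        · exact Or.inl (mem_union_right _ (y1.2 x hx y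
            (mem_sdiff.mpr ⟨mem_sdiff.mpr ⟨hy, h2⟩, h1'⟩) ha))
    have := one x (hDB x (y1.1 hx))
    omega
  rw [sum_add_distrib, ← card_eq_sum_ones] at z4
  have p := hY.card_pos
  refine Ext.mono (pot hc m C1 Y (disjoint_sdiff.mono_right y1.1) (fun x hx w hw w' hw' b b' =>
    hc.uniq (fun he : h1 = x => a1 (he ▸ hDB x (y1.1 hx))) (mem_filter.mp hw).2 b.symm
      (mem_filter.mp hw').2 b'.symm) y2 ?_) Subset.rfl y1.1 le_rfl
  rw [← z3, ← z2] at s0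
  nlinarith

/-- What a dense component hanging on `S` provides. -/
def Ty (G : SimpleGraph V) (m : ℕ) (B : Finset V) (h1 h2 : V) : Prop :=
  (h1 = h2 ∧ Ext G {h1} B (m + 4)) ∨ (h1 ≠ h2 ∧ ¬ G.Adj h1 h2 ∧
    (∃ v ∈ B, ∃ v' ∈ B, G.Adj h1 v ∧ G.Adj v v' ∧ G.Adj h2 v' ∧ ¬ G.Adj h1 v' ∧ ¬ G.Adj h2 v) ∧
    Ext G {h1} (B \ B.filter (G.Adj h2)) (m + 2) ∧ Ext G {h2} (B \ B.filter (G.Adj h1)) (m + 2))

theorem branch (hc : C4F G) {S B : Finset V} (hd : Disjoint S B) (hB : Irr G B)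
    (hat : ∃ x ∈ B, ∃ w ∈ S, G.Adj w x)
    (hs : ∀ v ∈ B, ∀ w ∈ S, ∀ w' ∈ S, G.Adj w v → G.Adj w' v → w = w') {m : ℕ}
    (hg : (m + 3) * B.card ≤ ∑ v ∈ B, la G (S ∪ B) v + ∑ s ∈ S, la G B s) :
    ∃ h1 ∈ S, ∃ h2 ∈ S, Ty G m B h1 h2 := by
  by_cases hl : ∃ h ∈ S, Ext G {h} B (m + 4)
  · obtain ⟨h, a, b⟩ := hl
    exact ⟨h, a, h, a, Or.inl ⟨rfl, b⟩⟩
  push Not at hl
  have nB : ∀ h ∈ S, h ∉ B := fun h hh => disjoint_left.mp hd hh
  have t1 : ∑ v ∈ B, la G (S ∪ B) v ≤ (m + 2) * B.card := by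
    by_contra hlt
    obtain ⟨f, a, b, c⟩ := pot hc (m + 2) S B hd hs (hB.att hat) (not_le.mp hlt)
    exact hl _ b ⟨f, a, mem_singleton_self _, c⟩
  have d1 : ∀ v ∈ B, dg G S v ≤ 1 := fun v hv => card_le_one.mpr fun a ha b hb =>
    hs v hv a (mem_filter.mp ha).1 b (mem_filter.mp hb).1 (mem_filter.mp ha).2.symm
      (mem_filter.mp hb).2.symm
  have t2 : ∑ s ∈ S, la G B s ≤ ∑ s ∈ S, dg G B s := sum_le_sum fun s _ => la_le_deg B s
  have t3 := sum_dg_comm (G := G) S B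
  have t4 : ∑ v ∈ B, dg G S v ≤ ∑ v ∈ B, 1 := sum_le_sum d1
  have t5 := card_eq_sum_ones B
  have e1 : ∀ v ∈ B, dg G S v = 1 := (sum_eq_sum_iff_of_le d1).mp (by nlinarith)
  have e2 : ∀ s ∈ S, la G B s = dg G B s :=
    (sum_eq_sum_iff_of_le fun s _ => la_le_deg B s).mp (by
      change ∑ s ∈ S, la G B s = ∑ s ∈ S, dg G B s
      nlinarith)
  have hub : ∀ v ∈ B, ∃ h ∈ S, G.Adj h v := fun v hv => by
    obtain ⟨h, hh⟩ := card_pos.mp (show 0 < dg G S v by rw [e1 v hv]; omega)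
    exact ⟨h, (mem_filter.mp hh).1, (mem_filter.mp hh).2.symm⟩
  have ind : ∀ h ∈ S, ∀ x ∈ B, ∀ y ∈ B, G.Adj h x → G.Adj h y → ¬ G.Adj x y := by
    intro h hh x hx y hy a b
    obtain ⟨I, i1, i2, i3⟩ := exists_la (G := G) B h
    have : I = B.filter (G.Adj h) := eq_of_subset_of_card_le
      (fun z hz => mem_filter.mpr ⟨i1 hz, i2.1 z hz⟩) (by rw [i3, e2 h hh]; exact le_rfl)
    exact i2.2 x (this ▸ mem_filter.mpr ⟨hx, a⟩) y (this ▸ mem_filter.mpr ⟨hy, b⟩)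
  have q1 : ∑ v ∈ B, la G (S ∪ B) v ≤ ∑ v ∈ B, (la G B v + 1) := sum_le_sum fun v hv => by
    have := la_le_of (G := G) (S := S ∪ B) (T := B) (U := S) (v := v)
      fun y hy _ => (mem_union.mp hy).symm
    have := d1 v hv
    omega
  rw [sum_add_distrib] at q1
  have q2 : (m + 1) * B.card ≤ ∑ v ∈ B, la G B v := by nlinarith
  have cls : ∀ h ∈ S, (m + 1) * (B.filter (G.Adj h)).card ≤ ∑ x ∈ B.filter (G.Adj h), la G B x := by
    intro h hh
    rcases (B.filter (G.Adj h)).eq_empty_or_nonempty with he | hne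
    · simp [he]
    · have a := star hc hB (nB h hh) hne (hl h hh) ⟨Subset.rfl, fun _ _ _ hy _ => hy⟩
      have b := sum_sdiff (f := la G B) (filter_subset (G.Adj h) B)
      have c := card_sdiff_add_card_eq_card (filter_subset (G.Adj h) B)
      rw [← c, ← b] at q2
      nlinarith
  have rest : ∀ h1 ∈ S, ∀ h2 ∈ S,
      (m + 1) * ((B \ B.filter (G.Adj h2)) \ B.filter (G.Adj h1)).card ≤
        ∑ x ∈ (B \ B.filter (G.Adj h2)) \ B.filter (G.Adj h1), la G B x := by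
    intro h1 a1 h2 a2
    have e : (B \ B.filter (G.Adj h2)) \ B.filter (G.Adj h1) =
        ((S.erase h2).erase h1).biUnion (fun h => B.filter (G.Adj h)) := by
      ext x
      simp only [mem_sdiff, mem_filter, mem_biUnion, mem_erase, not_and]
      constructor
      · rintro ⟨⟨b1, b2⟩, b3⟩
        obtain ⟨h, c1, c2⟩ := hub x b1
        exact ⟨h, ⟨fun he => b3 b1 (he ▸ c2), fun he => b2 b1 (he ▸ c2), c1⟩, b1, c2⟩
      · rintro ⟨h, ⟨c1, c2, c3⟩, b1, b2⟩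
        exact ⟨⟨b1, fun _ ha => c2 (hs x b1 h c3 h2 a2 b2 ha)⟩,
          fun _ ha => c1 (hs x b1 h c3 h1 a1 b2 ha)⟩
    have pd : ((((S.erase h2).erase h1) : Finset V) : Set V).PairwiseDisjoint
        (fun h => B.filter (G.Adj h)) := by
      intro a ha b hb hab
      rw [Function.onFun, disjoint_left]
      intro x c1 c2
      exact hab (hs x (mem_filter.mp c1).1 a (mem_of_mem_erase (mem_of_mem_erase ha)) b
        (mem_of_mem_erase (mem_of_mem_erase hb)) (mem_filter.mp c1).2 (mem_filter.mp c2).2)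
    rw [e, sum_biUnion pd, card_biUnion pd, mul_sum]
    exact sum_le_sum fun h hh => cls h (mem_of_mem_erase (mem_of_mem_erase hh))
  obtain ⟨v, hv, v', hv', ha⟩ : ∃ v ∈ B, ∃ v' ∈ B, G.Adj v v' := by
    by_contra hcon
    push Not at hcon
    have : ∑ v ∈ B, la G B v = 0 := sum_eq_zero fun v hv => by
      have := la_le_deg (G := G) B v
      rwa [filter_eq_empty_iff.mpr (hcon v hv), card_empty, Nat.le_zero] at this
    obtain ⟨x, hx, -⟩ := hat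
    have := card_pos.mpr ⟨x, hx⟩
    nlinarith
  obtain ⟨h1, a1, b1⟩ := hub v hv
  obtain ⟨h2, a2, b2⟩ := hub v' hv'
  have hne : h1 ≠ h2 := fun he => ind h1 a1 v hv v' hv' b1 (he ▸ b2) ha
  have n12 : ∀ x ∈ B, G.Adj h1 x → ¬ G.Adj h2 x := fun x hx c1 c2 =>
    hne (hs x hx h1 a1 h2 a2 c1 c2)
  have n21 : ∀ x ∈ B, G.Adj h2 x → ¬ G.Adj h1 x := fun x hx c1 c2 => n12 x hx c2 c1
  refine ⟨h1, a1, h2, a2, Or.inr ⟨hne, fun h => ?_,
    ⟨v, hv, v', hv', b1, ha, b2, n21 v' hv' b2, n12 v hv b1⟩,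
    side hc (nB _ a1) (nB _ a2) n12 (ind _ a1) hv b1 (rest _ a1 _ a2) (cls _ a1) fun K hK =>
      star hc hB (nB _ a2) ⟨v', mem_filter.mpr ⟨hv', b2⟩⟩ (hl _ a2) hK,
    side hc (nB _ a2) (nB _ a1) n21 (ind _ a2) hv' b2 (rest _ a2 _ a1) (cls _ a2) fun K hK =>
      star hc hB (nB _ a1) ⟨v, mem_filter.mpr ⟨hv, b1⟩⟩ (hl _ a1) hK⟩⟩
  rcases hc _ _ _ _ b1 ha b2.symm h.symm with he | he
  · exact nB _ a1 (he ▸ hv')
  · exact nB _ a2 (he ▸ hv)

end Pool.Agent.Lib.MP_0d366e_co
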