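import Pool.Agent.Lib.MP_0d366e_co.Cnt

open Finset

namespace Pool.Agent.Lib.MP_0d366e_co

open Classical

variable {V : Type} {G : SimpleGraph V}

theorem cs (S : Finset V) (f : V → ℕ) : (∑ y ∈ S, f y) ^ 2 ≤ S.card * ∑ y ∈ S, f y ^ 2 := by
  have := sum_mul_sq_le_sq_mul_sq S (fun _ => 1) f
  simpa using this

/-- A nested chain of dense sets with rapidly growing minimum degree is short. -/
theorem chain (hc : C4F G) (m k : ℕ) (Z : ℕ → Finset V) (c : ℕ → ℕ) (X : Finset V)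
    (hX : ∀ e ≤ k, ∀ v ∈ X, c e ≤ dg G (Z e) v) (hsub : ∀ e < k, Z e ⊆ Z (e + 1))
    (hsz : ∀ e ≤ k, (Z e).card ≤ (m * c e) ^ 2) (hgr : ∀ e < k, 4 * m * c e ≤ c (e + 1))
    (hk : ∀ e ≤ k, (Z e).card ≤ X.card ^ 2) (h0 : ∀ e ≤ k, 0 < c e) (hne : X.Nonempty) :
    k ≤ 12 * m ^ 2 := by
  have hS : ∀ e ≤ k, ∑ y ∈ Z e, dg G X y ^ 2 ≤ 3 * X.card ^ 2 := fun e he => by
    have a := sum_sq_le hc (Z e) X
    have b := hk e he
    omega
  have key : ∀ e ≤ k, e * X.card ^ 2 ≤ 4 * m ^ 2 * ∑ y ∈ Z e, dg G X y ^ 2 := by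
    intro e he
    induction e with
    | zero => simp
    | succ e ih =>
      have a1 := ih (by omega)
      have a2 : (∑ y ∈ Z e, dg G X y) ^ 2 ≤ (2 * m * c e * X.card) ^ 2 := by
        refine (cs _ _).trans ((Nat.mul_le_mul (hsz e (by omega)) (hS e (by omega))).trans ?_)
        nlinarith [Nat.zero_le ((m * c e * X.card) ^ 2)]
      have a3 := (Nat.pow_le_pow_iff_left (by norm_num)).mp a2
      have a4 : c (e + 1) * X.card ≤ ∑ y ∈ Z (e + 1), dg G X y := by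
        rw [← sum_dg_comm, mul_comm, ← smul_eq_mul, ← sum_const]
        exact sum_le_sum (hX _ he)
      have a5 := sum_sdiff (f := dg G X) (hsub e (by omega))
      have a6 := sum_sdiff (f := fun y => dg G X y ^ 2) (hsub e (by omega))
      have a7 := Nat.mul_le_mul_right X.card (hgr e (by omega))
      have a8 : c (e + 1) * X.card ≤ 2 * ∑ y ∈ Z (e + 1) \ Z e, dg G X y := by nlinarith
      have a9 := cs (Z (e + 1) \ Z e) (dg G X)
      have b1 : (Z (e + 1) \ Z e).card ≤ (m * c (e + 1)) ^ 2 :=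
        (card_le_card sdiff_subset).trans (hsz _ he)
      have b2 := Nat.pow_le_pow_left a8 2
      have b3 := a9.trans (Nat.mul_le_mul_right _ b1)
      have b4 : X.card ^ 2 ≤ 4 * m ^ 2 * ∑ y ∈ Z (e + 1) \ Z e, dg G X y ^ 2 := by
        refine Nat.le_of_mul_le_mul_left ?_ (pow_pos (h0 _ he) 2)
        nlinarith
      rw [← a6]
      nlinarith
  have a := key k le_rfl
  have b := Nat.mul_le_mul_left (4 * m ^ 2) (hS k le_rfl)
  refine Nat.le_of_mul_le_mul_right ?_ (pow_pos hne.card_pos 2)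
  nlinarith

theorem size_ge (hc : C4F G) (X : Finset V) (hne : X.Nonempty) {c : ℕ}
    (h : ∀ v ∈ X, c + 1 ≤ dg G X v) : (c + 1) * c ≤ X.card := by
  have a := pairs hc X X
  have b : ∑ y ∈ X, (c + 1) * c ≤ ∑ y ∈ X, (dg G X y * dg G X y - dg G X y) := by
    refine sum_le_sum fun y hy => Nat.le_sub_of_add_le ?_
    obtain ⟨e, he⟩ := Nat.exists_eq_add_of_le (h y hy)
    rw [he]
    nlinarith [Nat.zero_le (e * e), Nat.zero_le (c * e)]
  rw [sum_const, smul_eq_mul] at b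
  exact Nat.le_of_mul_le_mul_left (b.trans a) hne.card_pos

/-- No long nested sequence of sets with degrees and sizes tied to the index. -/
theorem no_seq (M a : ℕ) : ∃ b : ℕ, a ≤ b ∧ ∀ (V : Type) (G : SimpleGraph V), C4F G →
    ∀ Y : ℕ → Finset V, (∀ i, a ≤ i → i ≤ b → Y i ⊆ Y (i + 1) ∧ (Y i).Nonempty ∧
      (∀ v ∈ Y i, i ≤ 4 * dg G (Y i) v) ∧ (Y i).card ≤ (M * i) ^ 2) → False := by
  obtain ⟨q, hq⟩ : ∃ q, q = 16 * M + 1 := ⟨_, rfl⟩
  obtain ⟨k, hk⟩ : ∃ k, k = 12 * (4 * M) ^ 2 + 1 := ⟨_, rfl⟩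
  obtain ⟨c, hc'⟩ : ∃ c, c = a + 4 * M * q ^ k := ⟨_, rfl⟩
  have q1 : 1 ≤ q := by omega
  have q2 : ∀ e, 1 ≤ q ^ e := fun e => Nat.one_le_pow _ _ q1
  have q3 : ∀ e, a ≤ 4 * ((c + 1) * q ^ e) := fun e => by nlinarith [q2 e, Nat.zero_le (4 * M * q ^ k)]
  have q4 : ∀ e e', e ≤ e' → 4 * ((c + 1) * q ^ e) ≤ 4 * ((c + 1) * q ^ e') := fun e e' h =>
    Nat.mul_le_mul_left _ (Nat.mul_le_mul_left _ (Nat.pow_le_pow_right q1 h))
  refine ⟨4 * ((c + 1) * q ^ k), q3 k, fun V G hc Y hY => ?_⟩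
  have mono : ∀ i, a ≤ i → ∀ j, i ≤ j → j ≤ 4 * ((c + 1) * q ^ k) → Y i ⊆ Y j := by
    intro i hi j hj
    induction j, hj using Nat.le_induction with
    | base => exact fun _ => Subset.rfl
    | succ j hj ih => exact fun h => (ih (by omega)).trans (hY j (by omega) (by omega)).1
  have h1 := fun e (he : e ≤ k) => hY _ (q3 e) (q4 e k he)
  have h2 : (c + 1) * c ≤ (Y (4 * ((c + 1) * q ^ 0))).card := by
    refine size_ge hc _ (h1 0 (by omega)).2.1 fun v hv => ?_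
    have := (h1 0 (by omega)).2.2.1 v hv
    simp only [pow_zero, mul_one] at this ⊢
    omega
  have h3 : ∀ e ≤ k, (Y (4 * ((c + 1) * q ^ e))).card ≤ (4 * M * ((c + 1) * q ^ e)) ^ 2 :=
    fun e he => (h1 e he).2.2.2.trans (le_of_eq (by ring))
  have := chain hc (4 * M) k (fun e => Y (4 * ((c + 1) * q ^ e))) (fun e => (c + 1) * q ^ e)
    (Y (4 * ((c + 1) * q ^ 0)))
    (fun e he v hv => by
      have := (h1 e he).2.2.1 v (mono _ (q3 0) _ (q4 0 e (by omega)) (q4 e k he) hv)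
      omega)
    (fun e he => mono _ (q3 e) _ (q4 _ _ (by omega)) (q4 _ _ (by omega))) h3
    (fun e _ => by
      rw [pow_succ q e, hq]
      nlinarith [Nat.zero_le ((c + 1) * (16 * M + 1) ^ e)])
    (fun e he => by
      refine (h3 e he).trans (Nat.pow_le_pow_left (le_trans ?_ h2) 2)
      have a1 : 4 * M * q ^ e ≤ c :=
        (Nat.mul_le_mul_left _ (Nat.pow_le_pow_right q1 he)).trans (by omega)
      have := Nat.mul_le_mul_left (c + 1) a1
      nlinarith)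
    (fun e _ => Nat.mul_pos (by omega) (q2 e)) (h1 0 (by omega)).2.1
  omega

end Pool.Agent.Lib.MP_0d366e_co
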