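import Pool.Agent.Lib.MP_0d366e_co.Geo

open Finset

namespace Pool.Agent.Lib.MP_0d366e_co

open Classical

variable {V : Type} {G : SimpleGraph V}

/-- Number of neighbours of `v` in `S`. -/
noncomputable def dg (G : SimpleGraph V) (S : Finset V) (v : V) : ℕ := (S.filter (G.Adj v)).card

theorem dg_mono {S T : Finset V} (h : S ⊆ T) (v : V) : dg G S v ≤ dg G T v :=
  card_le_card (filter_subset_filter _ h)

theorem dg_le_card (S : Finset V) (v : V) : dg G S v ≤ S.card := card_filter_le _ _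

theorem dg_union_le (S T : Finset V) (v : V) : dg G (S ∪ T) v ≤ dg G S v + dg G T v := by
  unfold dg
  rw [filter_union]
  exact card_union_le _ _

theorem dg_split {S T : Finset V} (h : T ⊆ S) (v : V) : dg G S v = dg G T v + dg G (S \ T) v := by
  unfold dg
  rw [← card_union_of_disjoint (disjoint_filter_filter disjoint_sdiff), ← filter_union,
    union_sdiff_of_subset h]

theorem dg_le_of {S T U : Finset V} {v : V} (h : ∀ x ∈ S, G.Adj v x → x ∈ T ∨ x ∈ U) :
    dg G S v ≤ dg G T v + dg G U v := by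
  refine le_trans (card_le_card fun x hx => ?_) (dg_union_le T U v)
  obtain ⟨a, b⟩ := mem_filter.mp hx
  exact mem_filter.mpr ⟨mem_union.mpr (h x a b), b⟩

/-- Weighted double counting. -/
theorem sum_nb (S K : Finset V) (f : V → ℕ) :
    ∑ v ∈ S, ∑ y ∈ K.filter (G.Adj v), f y = ∑ y ∈ K, f y * dg G S y := by
  simp only [sum_filter, dg, card_filter, mul_sum]
  rw [sum_comm]
  refine sum_congr rfl fun y _ => sum_congr rfl fun v _ => ?_
  by_cases h : G.Adj v y
  · rw [if_pos h, if_pos h.symm, mul_one]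
  · rw [if_neg h, if_neg (fun h' => h h'.symm), mul_zero]

theorem sum_dg_comm (S K : Finset V) : ∑ v ∈ S, dg G K v = ∑ y ∈ K, dg G S y := by
  have := sum_nb (G := G) S K (fun _ => 1)
  simpa [dg] using this

theorem dg_nb_le_one (hc : C4F G) (S : Finset V) {w v : V} (h : w ≠ v) :
    dg G (S.filter (G.Adj w)) v ≤ 1 := by
  unfold dg
  rw [card_le_one]
  intro a ha b hb
  obtain ⟨a1, a2⟩ := mem_filter.mp ha
  obtain ⟨b1, b2⟩ := mem_filter.mp hb
  exact hc.uniq h (mem_filter.mp a1).2 a2 (mem_filter.mp b1).2 b2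

/-- The degrees of the neighbours of `v` add up to at most about the number of vertices. -/
theorem sum_nb_le (hc : C4F G) (K S : Finset V) (v : V) :
    ∑ y ∈ S.filter (G.Adj v), dg G K y ≤ K.card + dg G S v := by
  rw [sum_dg_comm]
  by_cases hv : v ∈ K
  · rw [← add_sum_erase K _ hv]
    have a : ∑ y ∈ K.erase v, dg G (S.filter (G.Adj v)) y ≤ ∑ y ∈ K.erase v, 1 :=
      sum_le_sum fun y hy => dg_nb_le_one hc S (mem_erase.mp hy).1.symm
    have b := dg_mono (G := G) (filter_subset (G.Adj v) S) v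
    have c := card_erase_le (s := K) (a := v)
    simp only [sum_const, smul_eq_mul, mul_one] at a
    omega
  · have a : ∑ y ∈ K, dg G (S.filter (G.Adj v)) y ≤ ∑ y ∈ K, 1 :=
      sum_le_sum fun y hy => dg_nb_le_one hc S (fun h => hv (h ▸ hy))
    simp only [sum_const, smul_eq_mul, mul_one] at a
    omega

theorem maxdeg (hc : C4F G) (K : Finset V) {δ : ℕ} (hδ : ∀ v ∈ K, δ + 1 ≤ dg G K v) (v : V) :
    δ * dg G K v ≤ K.card := by
  have a := sum_nb_le hc K K v
  have b : ∑ y ∈ K.filter (G.Adj v), (δ + 1) ≤ ∑ y ∈ K.filter (G.Adj v), dg G K y :=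
    sum_le_sum fun y hy => hδ y (mem_filter.mp hy).1
  simp only [sum_const, smul_eq_mul] at b
  change dg G K v * (δ + 1) ≤ _ at b
  nlinarith

/-- Counting pairs with a common neighbour. -/
theorem pairs (hc : C4F G) (Y S : Finset V) :
    ∑ y ∈ Y, (dg G S y * dg G S y - dg G S y) ≤ S.card * S.card := by
  have : ∑ y ∈ Y, (dg G S y * dg G S y - dg G S y) =
      ∑ y ∈ Y, (S.filter (G.Adj y)).offDiag.card := by
    refine sum_congr rfl fun y _ => ?_
    rw [offDiag_card]; rfl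
  rw [this, ← card_biUnion, ← card_product]
  · refine card_le_card (biUnion_subset.mpr fun y _ p hp => ?_)
    obtain ⟨a, b, -⟩ := mem_offDiag.mp hp
    exact mem_product.mpr ⟨(mem_filter.mp a).1, (mem_filter.mp b).1⟩
  · intro y _ y' _ hne
    rw [Function.onFun, disjoint_left]
    intro p h1 h2
    obtain ⟨a, b, c⟩ := mem_offDiag.mp h1
    obtain ⟨a', b', -⟩ := mem_offDiag.mp h2
    exact hne (hc.uniq c (mem_filter.mp a).2.symm (mem_filter.mp b).2.symm
      (mem_filter.mp a').2.symm (mem_filter.mp b').2.symm)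

theorem kst (hc : C4F G) (K S : Finset V) (f : V → ℕ) :
    ∃ g : ℕ, ∑ y ∈ K, f y * dg G S y ≤ ∑ y ∈ K, f y + g ∧
      g ^ 2 ≤ (∑ y ∈ K, f y ^ 2) * S.card ^ 2 := by
  refine ⟨∑ y ∈ K, f y * (dg G S y - 1), ?_, ?_⟩
  · rw [← sum_add_distrib]
    refine sum_le_sum fun y _ => ?_
    rcases Nat.eq_zero_or_pos (dg G S y) with h | h
    · rw [h]; omega
    · obtain ⟨e, he⟩ : ∃ e, dg G S y = e + 1 := ⟨dg G S y - 1, by omega⟩
      rw [he, Nat.add_sub_cancel]
      nlinarith
  · refine (sum_mul_sq_le_sq_mul_sq K f (fun y => dg G S y - 1)).trans (Nat.mul_le_mul_left _ ?_)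
    refine le_trans (sum_le_sum fun y _ => ?_) ((pairs hc K S).trans (by rw [sq]))
    rcases Nat.eq_zero_or_pos (dg G S y) with h | h
    · rw [h]; omega
    · obtain ⟨e, he⟩ : ∃ e, dg G S y = e + 1 := ⟨dg G S y - 1, by omega⟩
      rw [he, Nat.add_sub_cancel]
      refine Nat.le_sub_of_add_le ?_
      nlinarith

theorem sum_sq_le (hc : C4F G) (Y S : Finset V) :
    ∑ y ∈ Y, dg G S y ^ 2 ≤ 2 * S.card ^ 2 + Y.card := by
  have a := pairs hc Y S
  have b : ∑ y ∈ Y, dg G S y ^ 2 ≤ ∑ y ∈ Y, (2 * (dg G S y * dg G S y - dg G S y) + 1) := by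
    refine sum_le_sum fun y _ => ?_
    rcases Nat.eq_zero_or_pos (dg G S y) with h | h
    · rw [h]; omega
    · obtain ⟨e, he⟩ : ∃ e, dg G S y = e + 1 := ⟨dg G S y - 1, by omega⟩
      have : dg G S y * dg G S y - dg G S y = (e + 1) * e := by
        rw [he]; exact Nat.sub_eq_of_eq_add (by ring)
      rw [this, he]
      nlinarith
  rw [sum_add_distrib, ← mul_sum] at b
  simp only [sum_const, smul_eq_mul, mul_one] at b
  nlinarith

/-- A neighbourhood induces a matching. -/
theorem dg_le_two_la (hc : C4F G) (S : Finset V) (v : V) : dg G S v ≤ 2 * la G S v := by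
  obtain ⟨I, hI, hn, he⟩ := exists_la (G := G) S v
  have hIs : I ⊆ S.filter (G.Adj v) := fun x hx => mem_filter.mpr ⟨hI hx, hn.1 x hx⟩
  have key : ∀ x ∈ S.filter (G.Adj v) \ I, ∃ y ∈ I, G.Adj x y := by
    intro x hx
    obtain ⟨a, b⟩ := mem_sdiff.mp hx
    obtain ⟨a1, a2⟩ := mem_filter.mp a
    by_contra hcon
    push Not at hcon
    have : (insert x I).card ≤ la G S v := by
      refine le_la (insert_subset a1 hI) ⟨fun y hy => ?_, fun y hy z hz => ?_⟩
      · rcases mem_insert.mp hy with rfl | hy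
        · exact a2
        · exact hn.1 y hy
      · rcases mem_insert.mp hy with hy1 | hy1 <;> rcases mem_insert.mp hz with hz1 | hz1
        · rw [hy1, hz1]; exact G.irrefl
        · rw [hy1]; exact hcon z hz1
        · rw [hz1]; exact fun h => hcon y hy1 h.symm
        · exact hn.2 y hy1 z hz1
    rw [card_insert_of_notMem b] at this
    omega
  choose! φ h1 h2 using key
  have a : (S.filter (G.Adj v) \ I).card ≤ I.card := by
    refine card_le_card_of_injOn φ (fun x hx => h1 x hx) fun x hx z hz hxz => ?_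
    have hx' := (mem_filter.mp (mem_sdiff.mp hx).1).2
    have hz' := (mem_filter.mp (mem_sdiff.mp hz).1).2
    have hne : v ≠ φ x := (hn.1 _ (h1 x hx)).ne
    exact hc.uniq hne hx' (h2 x hx).symm hz' (hxz ▸ (h2 z hz).symm)
  have b := card_sdiff_add_card_eq_card hIs
  unfold dg
  omega

/-- The sum of squared degrees is small in a sparse set. -/
theorem sq_small (hc : C4F G) (K : Finset V) {δ : ℕ} (hδ : ∀ v ∈ K, δ + 1 ≤ dg G K v)
    (h0 : 100000 ≤ δ) (hs : ∑ v ∈ K, dg G K v ≤ 6 * δ * K.card)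
    (hN : (1000000 * δ) ^ 2 ≤ K.card) : 16384 * ∑ v ∈ K, dg G K v ^ 2 ≤ K.card ^ 2 := by
  set N := K.card with hNd
  set s := Nat.sqrt N with hsd
  have s1 : s * s ≤ N := Nat.sqrt_le N
  have s2 : N < (s + 1) * (s + 1) := Nat.lt_succ_sqrt N
  have s3 : 1000000 * δ ≤ s := Nat.le_sqrt'.mpr hN
  set S := K.filter (fun v => 2 * (s + 1) < dg G K v) with hS
  have hSK : S ⊆ K := filter_subset _ _
  obtain ⟨g, g1, g2⟩ := kst hc K S (fun _ => 1)
  simp only [one_mul, sum_const, smul_eq_mul, mul_one, one_pow] at g1 g2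
  rw [← sum_dg_comm, ← hNd] at g1
  rw [← hNd] at g2
  set E := ∑ v ∈ S, dg G K v with hE
  have e1 : S.card * (2 * (s + 1)) ≤ E := by
    have : ∑ v ∈ S, 2 * (s + 1) ≤ E := sum_le_sum fun v hv => (mem_filter.mp hv).2.le
    simpa using this
  have e2 : 2 * g ≤ E := by
    have : (2 * g) ^ 2 ≤ (S.card * (2 * (s + 1))) ^ 2 := by
      have : N * S.card ^ 2 ≤ (s + 1) * (s + 1) * S.card ^ 2 := Nat.mul_le_mul_right _ s2.le
      nlinarith
    exact (Nat.pow_le_pow_iff_left (by norm_num)).mp this |>.trans e1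
  have e3 : E ≤ 2 * N := by omega
  have q1 : δ * ∑ v ∈ S, dg G K v ^ 2 ≤ N * E := by
    rw [hE, mul_sum, mul_sum]
    refine sum_le_sum fun v _ => ?_
    have := maxdeg hc K hδ v
    rw [sq, ← mul_assoc]
    exact Nat.mul_le_mul_right _ this
  have q2 : ∑ v ∈ K \ S, dg G K v ^ 2 ≤ 2 * (s + 1) * (6 * δ * N) := by
    refine le_trans ?_ (Nat.mul_le_mul_left _ ((sum_le_sum_of_subset (sdiff_subset (t := S))).trans hs))
    rw [mul_sum]
    refine sum_le_sum fun v hv => ?_
    obtain ⟨a, b⟩ := mem_sdiff.mp hv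
    have : dg G K v ≤ 2 * (s + 1) := by
      by_contra hcon
      exact b (mem_filter.mpr ⟨a, by omega⟩)
    rw [sq]
    exact Nat.mul_le_mul_right _ this
  rw [← sum_sdiff hSK]
  have q3 : 100000 * ∑ v ∈ S, dg G K v ^ 2 ≤ N * (2 * N) :=
    le_trans (Nat.mul_le_mul_right _ h0) (q1.trans (Nat.mul_le_mul_left _ e3))
  have q4 : 1000000 * (2 * (s + 1) * (6 * δ * N)) ≤ 13 * (N * N) := by
    have a : 1000000 * δ * (s + 1) ≤ s * (s + 1) := Nat.mul_le_mul_right _ s3
    have b : 12 * s ≤ s * s := Nat.mul_le_mul_right _ (by omega)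
    have c : 12 * (1000000 * δ * (s + 1)) ≤ 13 * N := by nlinarith
    have := Nat.mul_le_mul_right N c
    nlinarith
  nlinarith

/-- Few vertices see a large weight in their neighbourhood. -/
theorem few_big (hc : C4F G) (K S : Finset V) (f : V → ℕ) (N : ℕ)
    (hf : 4096 * ∑ y ∈ K, f y ^ 2 ≤ N ^ 2)
    (hS : ∀ v ∈ S, N ≤ 32 * ∑ y ∈ K.filter (G.Adj v), f y) :
    N * S.card ≤ 64 * ∑ y ∈ K, f y := by
  obtain ⟨g, g1, g2⟩ := kst hc K S f
  rw [← sum_nb] at g1
  have a := sum_le_sum hS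
  rw [← mul_sum, sum_const, smul_eq_mul] at a
  have b : (64 * g) ^ 2 ≤ (N * S.card) ^ 2 := by
    have := Nat.mul_le_mul_right (S.card ^ 2) hf
    nlinarith
  have c := (Nat.pow_le_pow_iff_left (by norm_num)).mp b
  nlinarith

end Pool.Agent.Lib.MP_0d366e_co
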