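import Pool.Agent.Lib.MP_0d366e_co.Geo

open Finset

namespace Pool.Agent.Lib.MP_0d366e_co

open Classical

variable {V : Type} {G : SimpleGraph V}

/-- A smallest vertex set on which the average is still at least `L`. -/
theorem exists_core (U : Finset V) (hU : U.Nonempty) (L : ℕ)
    (hL : L * U.card ≤ ∑ v ∈ U, la G U v) :
    ∃ H : Finset V, H.Nonempty ∧ L * H.card ≤ ∑ v ∈ H, la G H v ∧
      ∀ Y ⊆ H, Y.Nonempty → (H \ Y).Nonempty →
        L * Y.card < ∑ y ∈ Y, (la G H y + ((H \ Y).filter (G.Adj y)).card) := by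
  have hex : ∃ n, ∃ H : Finset V, H.card = n ∧ H.Nonempty ∧ L * H.card ≤ ∑ v ∈ H, la G H v :=
    ⟨_, U, rfl, hU, hL⟩
  obtain ⟨H, hn, hne, hH⟩ := Nat.find_spec hex
  refine ⟨H, hne, hH, fun Y hY hYne hc => ?_⟩
  have l2 := card_sdiff_add_card_eq_card hY
  have l3 := hYne.card_pos
  have m := Nat.find_min hex (m := (H \ Y).card) (by omega)
  push Not at m
  have a1 := m (H \ Y) rfl hc
  have a2 := sum_sdiff (f := la G H) hY
  have a3 : ∑ x ∈ H \ Y, la G H x ≤
      ∑ x ∈ H \ Y, (la G (H \ Y) x + (Y.filter (G.Adj x)).card) := by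
    refine sum_le_sum fun x _ => (la_le H (H \ Y) x).trans ?_
    rw [Finset.sdiff_sdiff_eq_self hY]
  have a4 : ∑ x ∈ H \ Y, (Y.filter (G.Adj x)).card =
      ∑ y ∈ Y, ((H \ Y).filter (G.Adj y)).card := by
    simp only [card_filter]
    rw [sum_comm]
    refine sum_congr rfl fun y _ => sum_congr rfl fun x _ => ?_
    simp only [G.adj_comm]
  rw [sum_add_distrib] at a3 ⊢
  rw [← l2, Nat.mul_add] at hH
  omega

theorem dense [Finite V] (hG : G.Connected) (hc : C4F G) (U : Finset V) (hU : U.Nonempty) (L : ℕ)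
    (hL : L * U.card ≤ ∑ v ∈ U, la G U v) (hr1 : 1 ≤ G.radius.toNat) :
    ∃ f, IP G f (G.radius.toNat + L - 7) := by
  set r := G.radius.toNat with hr
  obtain ⟨H, hne, hH, hM⟩ := exists_core (G := G) U hU L hL
  obtain ⟨v, hv⟩ := hne
  obtain ⟨g, hg0, hg⟩ := exists_geo hG v
  rw [← hr] at hg
  have hip := hg.ip
  by_cases h8 : L ≤ 8
  · exact ⟨g, hip.mono (by omega)⟩
  have hdeg : ∀ x ∈ H, 5 ≤ (H.filter (G.Adj x)).card := by
    intro x hx
    have a1 := la_le_deg (G := G) H x
    rcases (H \ {x}).eq_empty_or_nonempty with he | he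
    · have : H = {x} := Subset.antisymm (sdiff_eq_empty_iff_subset.mp he) (by simpa using hx)
      subst this
      have : (({x} : Finset V).filter (G.Adj x)).card = 0 := by
        rw [card_eq_zero, filter_eq_empty_iff]
        intro y hy
        rw [mem_singleton.mp hy]
        exact G.irrefl
      simp only [card_singleton, sum_singleton] at hH
      omega
    · have a2 := hM {x} (by simpa using hx) (singleton_nonempty x) he
      simp only [card_singleton, sum_singleton] at a2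
      have a3 : ((H \ {x}).filter (G.Adj x)).card ≤ (H.filter (G.Adj x)).card :=
        card_le_card (filter_subset_filter _ sdiff_subset)
      omega
  set D := H.filter (fun x => ∀ i ≤ r, g i ≠ x ∧ ¬ G.Adj (g i) x) with hD
  obtain ⟨A, hA⟩ : ∃ A : Finset V, ∀ x, x ∈ A ↔ x ∈ H ∧ G.Adj (g 0) x ∧
      ∀ i, 1 ≤ i → i ≤ r → g i ≠ x ∧ ¬ G.Adj (g i) x :=
    ⟨@Finset.filter V _ (fun _ => propDecidable _) H,
      fun x => @mem_filter V _ (fun _ => propDecidable _) H x⟩
  have hAne : A.Nonempty := by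
    by_contra hcon
    rw [not_nonempty_iff_eq_empty] at hcon
    have a1 := hdeg v hv
    have a2 : ((H.filter (G.Adj v)).erase (g 1)).card ≤ ((Icc 1 2).filter (· ≤ r)).card := by
      refine card_hit hc v _ g _ (fun i hi he => ?_) (fun x hx => ?_)
      · obtain ⟨a, b⟩ := mem_filter.mp hi
        have := (hip i (by omega) 0 (by omega)).2 (he.trans hg0.symm)
        have := (mem_Icc.mp a).1
        omega
      · obtain ⟨a, b⟩ := mem_erase.mp hx
        obtain ⟨b1, b2⟩ := mem_filter.mp b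
        refine ⟨b2, ?_⟩
        have hxA : x ∉ A := by rw [hcon]; exact notMem_empty _
        rw [hA] at hxA
        push Not at hxA
        obtain ⟨i, i1, i2, i3⟩ := hxA b1 (hg0 ▸ b2)
        by_cases he : g i = x
        · have := (hip 0 (by omega) i (by omega)).1.mp (by rw [hg0, he]; exact b2)
          exact (a (by rw [← he, show i = 1 by omega])).elim
        · have d1 := dist_two hG (hg0 ▸ b2 : G.Adj (g 0) x) (i3 he).symm
          rw [hg 0 i (by omega) i2] at d1
          exact ⟨i, mem_filter.mpr ⟨mem_Icc.mpr ⟨i1, by omega⟩, i2⟩, i3 he⟩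
    have a3 : ((Icc 1 2).filter (· ≤ r)).card ≤ 2 := (card_filter_le _ _).trans (by simp)
    have a4 := pred_card_le_card_erase (s := H.filter (G.Adj v)) (a := g 1)
    omega
  obtain ⟨a, ha⟩ := hAne
  obtain ⟨haH, ha0, hai⟩ := (hA a).mp ha
  have hx : ∃ x ∈ D, G.Adj a x := by
    by_contra hcon
    push Not at hcon
    have a1 := hdeg a haH
    have a2 : (H.filter (G.Adj a)).card ≤ ((range 4).filter (· ≤ r)).card := by
      refine card_hit hc a _ g _ (fun i hi he => ?_) (fun x hx => ?_)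
      · rcases Nat.eq_zero_or_pos i with rfl | hp
        · exact ha0.ne he
        · exact (hai i hp (mem_filter.mp hi).2).1 he
      · obtain ⟨b1, b2⟩ := mem_filter.mp hx
        refine ⟨b2, ?_⟩
        have hxD : x ∉ D := fun h => hcon x h b2
        rw [hD, mem_filter] at hxD
        push Not at hxD
        obtain ⟨i, i2, i3⟩ := hxD b1
        by_cases he : g i = x
        · rcases Nat.eq_zero_or_pos i with rfl | hp
          · refine ⟨1, mem_filter.mpr ⟨by simp, hr1⟩, ?_⟩
            rw [← he]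
            exact (hip 1 (by omega) 0 (by omega)).1.mpr (by omega)
          · exact ((hai i hp i2).2 (he ▸ b2.symm)).elim
        · have d1 := dist_two hG b2 (i3 he).symm
          have d2 := hG.dist_triangle (u := g 0) (v := a) (w := g i)
          rw [hg 0 i (by omega) i2, dist_adj ha0] at d2
          exact ⟨i, mem_filter.mpr ⟨mem_range.mpr (by omega), i2⟩, i3 he⟩
    have a3 : ((range 4).filter (· ≤ r)).card ≤ 4 := (card_filter_le _ _).trans (by simp)
    omega
  obtain ⟨x, hxD, hax⟩ := hx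
  set Y := D.filter (fun y => ∀ K, Cl G D K → y ∈ K → ∃ x ∈ K, ∃ w ∈ A, G.Adj w x) with hY
  have hYD : Y ⊆ D := filter_subset _ _
  have hDH : D ⊆ H := filter_subset _ _
  have hxY : x ∈ Y := mem_filter.mpr ⟨hxD, fun K _ hK => ⟨x, hK, a, ha, hax⟩⟩
  have hcl : ∀ y ∈ Y, ∀ z ∈ D, G.Adj y z → z ∈ Y := fun y hy z hz hadj =>
    mem_filter.mpr ⟨hz, fun K hK hzK =>
      (mem_filter.mp hy).2 K hK (hK.2 z hzK y (hYD hy) hadj.symm)⟩
  have hfive : ∀ y ∈ Y, ((H \ Y).filter (G.Adj y)).card ≤ 5 := by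
    intro y hy
    have hyD := (mem_filter.mp (hYD hy)).2
    refine (card_hit hc y _ g ((range (r + 1)).filter (fun i => G.dist y (g i) ≤ 2))
      (fun i hi => ?_) (fun z hz => ?_)).trans (hg.window hG y _ fun i hi => ?_)
    · exact (hyD i (by have := mem_range.mp (mem_filter.mp hi).1; omega)).1
    · obtain ⟨b1, b2⟩ := mem_filter.mp hz
      obtain ⟨b3, b4⟩ := mem_sdiff.mp b1
      refine ⟨b2, ?_⟩
      have hzD : z ∉ D := fun h => b4 (hcl y hy z h b2)
      rw [hD, mem_filter] at hzD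
      push Not at hzD
      obtain ⟨i, i2, i3⟩ := hzD b3
      have he : g i ≠ z := fun he => (hyD i i2).2 (he ▸ b2.symm)
      exact ⟨i, mem_filter.mpr ⟨mem_range.mpr (by omega), dist_two hG b2 (i3 he).symm⟩, i3 he⟩
    · obtain ⟨b1, b2⟩ := mem_filter.mp hi
      exact ⟨by have := mem_range.mp b1; omega, b2⟩
  have hsum : (L - 10) * Y.card < ∑ y ∈ Y, la G (A ∪ Y) y := by
    by_cases h10 : L ≤ 10
    · rw [show L - 10 = 0 by omega, zero_mul]
      refine lt_of_lt_of_le ?_ (single_le_sum (fun _ _ => Nat.zero_le _) hxY)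
      refine lt_of_lt_of_le ?_ (le_la (I := {a}) (by simp [ha]) ⟨?_, ?_⟩)
      · simp
      · intro z hz; rw [mem_singleton.mp hz]; exact hax.symm
      · intro z hz z' hz'; rw [mem_singleton.mp hz, mem_singleton.mp hz']; exact G.irrefl
    · have a1 := hM Y (hYD.trans hDH) ⟨x, hxY⟩ ⟨v, mem_sdiff.mpr ⟨hv, fun h =>
        ((mem_filter.mp (hYD h)).2 0 (by omega)).1 hg0⟩⟩
      have a2 : ∑ y ∈ Y, (la G H y + ((H \ Y).filter (G.Adj y)).card) ≤
          ∑ y ∈ Y, (la G (A ∪ Y) y + 10) := by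
        refine sum_le_sum fun y hy => ?_
        have b1 := la_le (G := G) H (A ∪ Y) y
        have b2 : ((H \ (A ∪ Y)).filter (G.Adj y)).card ≤ ((H \ Y).filter (G.Adj y)).card :=
          card_le_card (filter_subset_filter _ (sdiff_subset_sdiff Subset.rfl subset_union_right))
        have b3 := hfive y hy
        omega
      rw [sum_add_distrib (f := fun y => la G (A ∪ Y) y), sum_const, smul_eq_mul] at a2
      obtain ⟨t, rfl⟩ : ∃ t, L = t + 10 := ⟨L - 10, by omega⟩
      rw [Nat.add_sub_cancel]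
      rw [Nat.add_mul] at a1
      omega
  obtain ⟨f, hf, f0, fi⟩ := pot hc (L - 10) A Y
    (disjoint_left.mpr fun z hz hz' =>
      ((mem_filter.mp (hYD hz')).2 0 (by omega)).2 ((hA z).mp hz).2.1)
    (fun y hy w hw w' hw' b b' => hc.uniq ((mem_filter.mp (hYD hy)).2 0 (by omega)).1
      ((hA w).mp hw).2.1 b.symm ((hA w').mp hw').2.1 b'.symm)
    (fun K hK ⟨y, hy⟩ => (mem_filter.mp (hK.1 hy)).2 K ⟨hK.1.trans hYD, fun z hz z' hz' hadj =>
      hK.2 z hz z' (hcl z (hK.1 hz) z' hz' hadj) hadj⟩ hy)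
    hsum
  have f0' := ((hA _).mp f0).2
  obtain ⟨F, hF, -⟩ := hf.prepend (by omega) r hip f0'.1 (by
    intro i hi j hj
    rcases Nat.eq_zero_or_pos j with rfl | hp
    · rcases Nat.eq_zero_or_pos i with rfl | hp'
      · exact ⟨f0'.1.ne, fun _ => ⟨rfl, rfl⟩⟩
      · exact ⟨(f0'.2 i hp' hi).1, fun h => ((f0'.2 i hp' hi).2 h).elim⟩
    · have := (mem_filter.mp (hYD (fi j hp hj))).2 i hi
      exact ⟨this.1, fun h => (this.2 h).elim⟩)
  exact ⟨F, hF.mono (by omega)⟩

end Pool.Agent.Lib.MP_0d366e_co
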