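import Pool.Agent.Lib.MP_0d366e_co.Basic

open Finset

namespace Pool.Agent.Lib.MP_0d366e_co

open Classical

variable {V : Type} {G : SimpleGraph V}

/-- The potential of a set `H` for the live set `A` and the thresholds `τ`. -/
noncomputable def Phi (G : SimpleGraph V) (A : Finset V) (τ : V → ℤ) (H : Finset V) : ℤ :=
  ∑ x ∈ H, ((la G (A ∪ H) x : ℤ) - τ x)

/-- `x` has a neighbour in `S`. -/
def Sees (G : SimpleGraph V) (S : Finset V) (x : V) : Prop := ∃ a ∈ S, G.Adj a x

/-- A connected piece with positive weight. -/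
theorem exists_pieceZ (D : Finset V) (ψ : V → ℤ) (h : 0 < ∑ v ∈ D, ψ v) :
    ∃ K, Cl G D K ∧ 0 < ∑ v ∈ K, ψ v ∧ ∀ K', Cl G K K' → K'.Nonempty → K' = K := by
  have hex : ∃ n, ∃ K, K.card = n ∧ Cl G D K ∧ 0 < ∑ v ∈ K, ψ v :=
    ⟨_, D, rfl, ⟨Subset.rfl, fun _ _ _ hy _ => hy⟩, h⟩
  obtain ⟨K, hKn, hK, hlt⟩ := Nat.find_spec hex
  refine ⟨K, hK, hlt, fun K' hK' hne => ?_⟩
  by_contra hneq
  have hss : K' ⊂ K := ⟨hK'.1, fun hc => hneq (Subset.antisymm hK'.1 hc)⟩
  have c1 : Cl G D K' := ⟨hK'.1.trans hK.1, fun x hx y hy ha =>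
    hK'.2 x hx y (hK.2 x (hK'.1 hx) y hy ha) ha⟩
  have c2 : Cl G D (K \ K') := ⟨sdiff_subset.trans hK.1, fun x hx y hy ha => by
    obtain ⟨a, b⟩ := mem_sdiff.mp hx
    exact mem_sdiff.mpr ⟨hK.2 x a y hy ha, fun hc => b (hK'.2 y hc x a ha.symm)⟩⟩
  have l1 := card_lt_card hss
  have l2 := card_sdiff_add_card_eq_card hK'.1
  have l3 := hne.card_pos
  have s1 := sum_sdiff (f := ψ) hK'.1
  have m1 := Nat.find_min hex (m := K'.card) (by omega)
  have m2 := Nat.find_min hex (m := (K \ K').card) (by omega)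
  push Not at m1 m2
  have a1 := m1 K' rfl c1
  have a2 := m2 (K \ K') rfl c2
  omega

/-- The thresholds after a step from the live set `A` to the live set `B`. -/
noncomputable def nxt (G : SimpleGraph V) (A B : Finset V) (τ : V → ℤ) (x : V) : ℤ :=
  τ x - if Sees G A x ∨ Sees G B x then 1 else 0

/-- What a step to `w` costs. -/
theorem estep_loss (hc : C4F G) (A K H : Finset V) (τ : V → ℤ) (hd : Disjoint A K)
    (hu : ∀ v ∈ K, ∀ w ∈ A, ∀ w' ∈ A, G.Adj w v → G.Adj w' v → w = w') (hH : H ⊆ K)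
    {w : V} (hw : w ∈ A) :
    Phi G A τ H - ∑ x ∈ H.filter (G.Adj w), ((la G (A ∪ H) x : ℤ) - τ x -
        (((H.filter (fun v => ¬ Sees G A v)).filter (G.Adj x)).card : ℤ)) ≤
      Phi G (K.filter (G.Adj w)) (nxt G A (K.filter (G.Adj w)) τ) (H \ K.filter (G.Adj w)) := by
  set B := H.filter (G.Adj w) with hB
  set C := K.filter (G.Adj w) with hC
  set R := H.filter (fun v => ¬ Sees G A v) with hR
  have hBH : B ⊆ H := filter_subset _ _
  have hHC : H \ C = H \ B := by
    ext v
    simp only [mem_sdiff, hB, hC, mem_filter]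
    exact ⟨fun h => ⟨h.1, fun k => h.2 ⟨hH h.1, k.2⟩⟩, fun h => ⟨h.1, fun k => h.2 ⟨h.1, k.2⟩⟩⟩
  have e1 : ∀ x ∈ H \ C, (la G (A ∪ H) x : ℤ) - τ x + (if x ∈ R ∧ Sees G B x then 1 else 0) ≤
      (la G (C ∪ (H \ C)) x : ℤ) - nxt G A C τ x := by
    intro x hx
    have hxH := (mem_sdiff.mp hx).1
    have a1 := la_le (G := G) (A ∪ H) (C ∪ (H \ C)) x
    have sub : ∀ y ∈ ((A ∪ H) \ (C ∪ (H \ C))).filter (G.Adj x), y ∈ A ∧ G.Adj y x := by
      intro y hy
      obtain ⟨a, b⟩ := mem_filter.mp hy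
      obtain ⟨a, c⟩ := mem_sdiff.mp a
      refine ⟨(mem_union.mp a).resolve_right fun h => c ?_, b.symm⟩
      by_cases k : y ∈ C
      · exact mem_union_left _ k
      · exact mem_union_right _ (mem_sdiff.mpr ⟨h, k⟩)
    unfold nxt
    by_cases hs : Sees G A x
    · have a2 : (((A ∪ H) \ (C ∪ (H \ C))).filter (G.Adj x)).card ≤ 1 := by
        rw [card_le_one]
        intro a ha b hb
        exact hu x (hH hxH) a (sub a ha).1 b (sub b hb).1 (sub a ha).2 (sub b hb).2
      have a3 : ¬ (x ∈ R ∧ Sees G B x) := fun h => (mem_filter.mp h.1).2 hs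
      rw [if_neg a3, if_pos (Or.inl hs)]
      omega
    · have a2 : (((A ∪ H) \ (C ∪ (H \ C))).filter (G.Adj x)).card = 0 := by
        rw [card_eq_zero, eq_empty_iff_forall_notMem]
        intro a ha
        exact hs ⟨a, sub a ha⟩
      by_cases hb : Sees G B x
      · obtain ⟨b, b1, b2⟩ := hb
        have hsc : Sees G C x :=
          ⟨b, mem_filter.mpr ⟨hH (mem_filter.mp b1).1, (mem_filter.mp b1).2⟩, b2⟩
        rw [if_pos (Or.inr hsc)]
        split_ifs <;> omega
      · rw [if_neg (fun h => hb h.2)]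
        split_ifs <;> omega
  have e2 : ∑ x ∈ B, (R.filter (G.Adj x)).card ≤
      ((H \ C).filter (fun x => x ∈ R ∧ Sees G B x)).card := by
    rw [← card_biUnion]
    · refine card_le_card (biUnion_subset.mpr fun v hv y hy => ?_)
      obtain ⟨a, b⟩ := mem_filter.mp hy
      refine mem_filter.mpr ⟨mem_sdiff.mpr ⟨(mem_filter.mp a).1, fun k => ?_⟩, a, v, hv, b⟩
      exact (mem_filter.mp a).2 ⟨w, hw, (mem_filter.mp k).2⟩
    · intro v hv v' hv' hne
      rw [Function.onFun, disjoint_left]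
      intro y h1 h2
      obtain ⟨a1, a2⟩ := mem_filter.mp h1
      have hwy : w ≠ y := fun hc' => disjoint_left.mp hd hw (hc' ▸ hH (mem_filter.mp a1).1)
      exact hne (hc.uniq hwy (mem_filter.mp hv).2 a2.symm (mem_filter.mp hv').2
        (mem_filter.mp h2).2.symm)
  have e3 := sum_le_sum e1
  rw [sum_add_distrib, sum_boole] at e3
  have e4 := sum_sdiff (f := fun x => (la G (A ∪ H) x : ℤ) - τ x) hBH
  have e5 : ((∑ x ∈ B, (R.filter (G.Adj x)).card : ℕ) : ℤ) ≤
      (((H \ C).filter (fun x => x ∈ R ∧ Sees G B x)).card : ℤ) := by exact_mod_cast e2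
  rw [Nat.cast_sum] at e5
  rw [← hHC] at e4
  unfold Phi
  rw [sum_sub_distrib (fun x => (la G (A ∪ H) x : ℤ) - τ x)]
  linarith

/-- One step of the walk at a maximiser of the potential: stop or go on. -/
theorem estep (hc : C4F G) (A K H : Finset V) (τ : V → ℤ) (hd : Disjoint A K)
    (hu : ∀ v ∈ K, ∀ w ∈ A, ∀ w' ∈ A, G.Adj w v → G.Adj w' v → w = w')
    (hx : ∃ x ∈ K, ∃ w ∈ A, G.Adj w x) (hH : H ⊆ K) (hpos : 0 < Phi G A τ H)
    (hmax : ∀ H' ⊆ K, Phi G A τ H' ≤ Phi G A τ H) :
    (∃ w ∈ A, ∃ y ∈ K, G.Adj w y ∧ τ y ≤ 0) ∨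
    ∃ w ∈ A, (K.filter (G.Adj w)).Nonempty ∧
      0 < Phi G (K.filter (G.Adj w)) (nxt G A (K.filter (G.Adj w)) τ) (H \ K.filter (G.Adj w)) := by
  set B : V → Finset V := fun w => H.filter (G.Adj w) with hB
  set AK := A.filter (fun w => (B w).Nonempty) with hAK
  set R := H.filter (fun v => ¬ Sees G A v) with hR
  set X := H.filter (Sees G A) with hX
  set g : V → ℤ := fun x => (la G (A ∪ H) x : ℤ) - τ x - ((R.filter (G.Adj x)).card : ℤ) with hg
  have hXH : X ⊆ H := filter_subset _ _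
  have hbi : X = AK.biUnion B := by
    ext v
    simp only [mem_biUnion, hX, hAK, hB, mem_filter]
    constructor
    · rintro ⟨hv, w, hw, ha⟩
      exact ⟨w, ⟨hw, ⟨v, mem_filter.mpr ⟨hv, ha⟩⟩⟩, hv, ha⟩
    · rintro ⟨w, ⟨hw, _⟩, hv, ha⟩
      exact ⟨hv, w, hw, ha⟩
  have hpd : (AK : Set V).PairwiseDisjoint B := by
    intro w hw w' hw' hne
    rw [Function.onFun, disjoint_left]
    intro v h1 h2
    obtain ⟨a1, a2⟩ := mem_filter.mp h1
    exact hne (hu v (hH a1) w (mem_filter.mp hw).1 w' (mem_filter.mp hw').1 a2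
      (mem_filter.mp h2).2)
  have F1 : ∑ w ∈ AK, ∑ v ∈ B w, g v ≤ Phi G A τ H := by
    rw [← sum_biUnion hpd, ← hbi]
    refine le_trans (sum_le_sum fun x _ => ?_) (hmax X (hXH.trans hH))
    have a1 := la_le (G := G) (A ∪ H) (A ∪ X) x
    have a2 : (((A ∪ H) \ (A ∪ X)).filter (G.Adj x)).card ≤ (R.filter (G.Adj x)).card := by
      refine card_le_card fun y hy => ?_
      obtain ⟨a, b⟩ := mem_filter.mp hy
      obtain ⟨a, c⟩ := mem_sdiff.mp a
      have yH : y ∈ H := (mem_union.mp a).resolve_left fun h => c (mem_union_left _ h)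
      exact mem_filter.mpr ⟨mem_filter.mpr ⟨yH, fun h =>
        c (mem_union_right _ (mem_filter.mpr ⟨yH, h⟩))⟩, b⟩
    simp only [hg]
    omega
  have F3 : ∀ v ∈ X, la G (A ∪ H) v ≤ AK.card + (R.filter (G.Adj v)).card := by
    intro v hv
    have hvH := hXH hv
    obtain ⟨I, hI, hn, he⟩ := exists_la (G := G) (A ∪ H) v
    rw [← he, ← card_sdiff_add_card_inter I R]
    refine Nat.add_le_add ?_ (card_le_card fun x hx =>
      mem_filter.mpr ⟨(mem_inter.mp hx).2, hn.1 x (mem_inter.mp hx).1⟩)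
    have key : ∀ x ∈ I \ R, ∃ w ∈ AK, x = w ∨ G.Adj w x := by
      intro x hx
      obtain ⟨a, b⟩ := mem_sdiff.mp hx
      rcases mem_union.mp (hI a) with h1 | h1
      · exact ⟨x, mem_filter.mpr ⟨h1, v, mem_filter.mpr ⟨hvH, (hn.1 x a).symm⟩⟩, Or.inl rfl⟩
      · have : x ∈ AK.biUnion B := by
          rw [← hbi]
          by_contra k
          exact b (mem_filter.mpr ⟨h1, fun s => k (mem_filter.mpr ⟨h1, s⟩)⟩)
        obtain ⟨w, hw, hxw⟩ := mem_biUnion.mp this
        exact ⟨w, hw, Or.inr (mem_filter.mp hxw).2⟩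
    choose! φ hφ hφ' using key
    refine card_le_card_of_injOn φ (fun x hx => hφ x hx) ?_
    intro x hx y hy hxy
    have hx' := (mem_sdiff.mp hx).1
    have hy' := (mem_sdiff.mp hy).1
    have hwv : φ x ≠ v := fun hc' =>
      disjoint_left.mp hd (mem_filter.mp (hφ x hx)).1 (hc' ▸ hH hvH)
    rcases hφ' x hx with a | a <;> rcases hφ' y hy with b | b
    · rw [a, b, hxy]
    · exact (hn.2 x hx' y hy' (by rw [a, hxy]; exact b)).elim
    · exact (hn.2 y hy' x hx' (by rw [b, ← hxy]; exact a)).elim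
    · exact hc.uniq hwv a (hn.1 x hx') (hxy ▸ b) (hn.1 y hy')
  have fin : ∀ w ∈ A, ∑ v ∈ B w, g v < Phi G A τ H →
      0 < Phi G (K.filter (G.Adj w)) (nxt G A (K.filter (G.Adj w)) τ) (H \ K.filter (G.Adj w)) := by
    intro w hw hl
    have := estep_loss hc A K H τ hd hu hH hw
    simp only [hg, hB, hR] at hl
    linarith
  have ne : ∀ w ∈ AK, (K.filter (G.Adj w)).Nonempty := by
    intro w hw
    obtain ⟨b, hb⟩ := (mem_filter.mp hw).2
    exact ⟨b, mem_filter.mpr ⟨hH (mem_filter.mp hb).1, (mem_filter.mp hb).2⟩⟩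
  by_cases hstop : ∃ w ∈ A, ∃ y ∈ K, G.Adj w y ∧ τ y ≤ 0
  · exact Or.inl hstop
  right
  push Not at hstop
  by_cases h2 : 2 ≤ AK.card
  · by_contra hcon
    have a1 : ∀ w ∈ AK, Phi G A τ H ≤ ∑ v ∈ B w, g v := by
      intro w hw
      by_contra k
      exact hcon ⟨w, (mem_filter.mp hw).1, ne w hw, fin w (mem_filter.mp hw).1 (by omega)⟩
    have a2 := sum_le_sum a1
    rw [sum_const, nsmul_eq_mul] at a2
    have a3 : (2 : ℤ) ≤ AK.card := by exact_mod_cast h2
    nlinarith
  · obtain ⟨x, hxK, w, hw, ha⟩ := hx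
    have small : ∀ w ∈ A, ∑ v ∈ B w, g v < Phi G A τ H := by
      intro w hw
      refine lt_of_le_of_lt (sum_nonpos fun v hv => ?_) hpos
      obtain ⟨a, b⟩ := mem_filter.mp hv
      have a1 := F3 v (mem_filter.mpr ⟨a, w, hw, b⟩)
      have a2 := hstop w hw v (hH a) b
      simp only [hg]
      omega
    exact ⟨w, hw, ⟨x, mem_filter.mpr ⟨hxK, ha⟩⟩, fin w hw (small w hw)⟩

/-- `y` sees the live set number `i` of the walk `f` that starts in `A` and goes on in `D`. -/
def Lv (G : SimpleGraph V) (A D : Finset V) (f : ℕ → V) (y : V) : ℕ → Prop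
  | 0 => Sees G A y
  | i + 1 => ∃ x ∈ D, G.Adj x y ∧ G.Adj (f i) x ∧ ∀ h < i, ¬ G.Adj (f h) x

/-- The walk: from a set of positive potential to an end whose threshold is used up. -/
theorem walk (hc : C4F G) (n : ℕ) : ∀ (A D H : Finset V) (τ : V → ℤ), D.card ≤ n → Disjoint A D →
    (∀ v ∈ D, ∀ w ∈ A, ∀ w' ∈ A, G.Adj w v → G.Adj w' v → w = w') → Att G A D → H ⊆ D →
    0 < Phi G A τ H →
    ∃ f k, IP G f (k + 2) ∧ f 0 ∈ A ∧ (∀ i, 0 < i → i < k + 2 → f i ∈ D) ∧
      τ (f (k + 1)) ≤ ∑ i ∈ range k,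
        (if Lv G A D f (f (k + 1)) i ∨ Lv G A D f (f (k + 1)) (i + 1) then (1 : ℤ) else 0) := by
  induction n with
  | zero =>
    intro A D H τ hn _ _ _ hH hp
    rw [Nat.le_zero, card_eq_zero] at hn
    subst hn
    rw [subset_empty.mp hH] at hp
    simp [Phi] at hp
  | succ n ih =>
    intro A D H τ hn hd hu ha hH hp
    obtain ⟨K, hK, hlt, hirr⟩ := exists_pieceZ (G := G) D
      (fun x => if x ∈ H then (la G (A ∪ H) x : ℤ) - τ x else 0)
      (by rw [← sum_filter, filter_mem_eq_inter, inter_eq_right.mpr hH]; exact hp)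
    have hne : K.Nonempty := by
      rw [nonempty_iff_ne_empty]; rintro rfl; simp at hlt
    have hdK : Disjoint A K := hd.mono_right hK.1
    have hp1 : 0 < Phi G A τ (K ∩ H) := by
      rw [← sum_filter, filter_mem_eq_inter] at hlt
      refine hlt.trans_le (sum_le_sum fun v hv => ?_)
      have a1 := la_le (G := G) (A ∪ H) (A ∪ (K ∩ H)) v
      have a2 : (((A ∪ H) \ (A ∪ (K ∩ H))).filter (G.Adj v)).card = 0 := by
        rw [card_eq_zero, filter_eq_empty_iff]
        intro x hx hadj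
        obtain ⟨a, b⟩ := mem_sdiff.mp hx
        rcases mem_union.mp a with a | a
        · exact b (mem_union_left _ a)
        · exact b (mem_union_right _
            (mem_inter.mpr ⟨hK.2 v (mem_inter.mp hv).1 x (hH a) hadj, a⟩))
      omega
    obtain ⟨M, hM, hmax⟩ := exists_max_image K.powerset (Phi G A τ) ⟨∅, empty_mem_powerset _⟩
    have hMK := mem_powerset.mp hM
    have hpM : 0 < Phi G A τ M := hp1.trans_le (hmax _ (mem_powerset.mpr inter_subset_left))
    rcases estep hc A K M τ hdK (fun v hv => hu v (hK.1 hv)) (ha K hK hne) hMK hpM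
      (fun H' h' => hmax H' (mem_powerset.mpr h')) with ⟨w, hw, y, hy, hadj, ht⟩ | ⟨w, hw, hBne, hs⟩
    · have h1 : IP G (fun _ => y) 1 := by
        intro i hi j hj
        refine ⟨⟨fun h => (G.irrefl h).elim, fun h => by omega⟩, fun _ => by omega⟩
      refine ⟨cons w (fun _ => y), 0, h1.cons hadj (fun i a b => by omega)
        (fun _ _ => hadj.ne), hw, fun i a _ => ?_, by simpa [cons] using ht⟩
      obtain ⟨j, rfl⟩ : ∃ j, i = j + 1 := ⟨i - 1, by omega⟩
      exact hK.1 hy
    · set B := K.filter (G.Adj w) with hB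
      have hBK : B ⊆ K := filter_subset _ _
      have hcard : (K \ B).card ≤ n := by
        have a1 := card_sdiff_add_card_eq_card hBK
        have a2 := hBne.card_pos
        have a3 := card_le_card hK.1
        omega
      obtain ⟨f, k, hf, h0, hi, hτ⟩ := ih B (K \ B) (M \ B) (nxt G A B τ) hcard disjoint_sdiff
        (by
          intro v hv x hx y hy a b
          have hwv : w ≠ v := fun hc' => disjoint_left.mp hdK hw (hc' ▸ (mem_sdiff.mp hv).1)
          exact hc.uniq hwv (mem_filter.mp hx).2 a.symm (mem_filter.mp hy).2 b.symm)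
        (by
          intro K' hK' hne'
          by_contra hcon
          push Not at hcon
          have : K' = K := hirr K' ⟨hK'.1.trans sdiff_subset, fun x hx y hy hadj => by
            by_cases hyB : y ∈ B
            · exact (hcon x hx y hyB hadj.symm).elim
            · exact hK'.2 x hx y (mem_sdiff.mpr ⟨hy, hyB⟩) hadj⟩ hne'
          obtain ⟨b, hb⟩ := hBne
          exact (mem_sdiff.mp (hK'.1 (this ▸ hBK hb))).2 hb)
        (sdiff_subset_sdiff hMK Subset.rfl) hs
      have hfK : ∀ i < k + 2, f i ∈ K := fun i hi' => by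
        rcases Nat.eq_zero_or_pos i with rfl | hp
        · exact hBK h0
        · exact (mem_sdiff.mp (hi i hp hi')).1
      refine ⟨cons w f, k + 1, hf.cons (mem_filter.mp h0).2 (fun i a b hadj => ?_)
        (fun i hi' he => disjoint_left.mp hdK hw (he ▸ hfK i hi')), hw, fun i a b => ?_, ?_⟩
      · obtain ⟨c1, c2⟩ := mem_sdiff.mp (hi i a b)
        exact c2 (mem_filter.mpr ⟨c1, hadj⟩)
      · obtain ⟨j, rfl⟩ : ∃ j, i = j + 1 := ⟨i - 1, by omega⟩
        exact hK.1 (hfK j (by omega))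
      · have hy : cons w f (k + 1 + 1) = f (k + 1) := rfl
        rw [hy, sum_range_succ']
        set y := f (k + 1) with hyd
        have up : ∀ i, Lv G B (K \ B) f y i → Lv G A D (cons w f) y (i + 1) := by
          intro i hl
          rcases i with _ | i
          · obtain ⟨a, a1, a2⟩ := hl
            exact ⟨a, hK.1 (hBK a1), a2, (mem_filter.mp a1).2,
              fun h hh => absurd hh (Nat.not_lt_zero h)⟩
          · obtain ⟨x, x1, x2, x3, x4⟩ := hl
            obtain ⟨c1, c2⟩ := mem_sdiff.mp x1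
            refine ⟨x, hK.1 c1, x2, x3, fun h hh => ?_⟩
            rcases h with _ | h
            · exact fun hadj => c2 (mem_filter.mpr ⟨c1, hadj⟩)
            · exact x4 h (by omega)
        have s1 : ∑ i ∈ range k,
            (if Lv G B (K \ B) f y i ∨ Lv G B (K \ B) f y (i + 1) then (1 : ℤ) else 0) ≤
            ∑ i ∈ range k, (if Lv G A D (cons w f) y (i + 1) ∨ Lv G A D (cons w f) y (i + 1 + 1)
              then (1 : ℤ) else 0) := by
          refine sum_le_sum fun i _ => ?_
          by_cases hl : Lv G B (K \ B) f y i ∨ Lv G B (K \ B) f y (i + 1)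
          · rw [if_pos hl, if_pos (hl.imp (up i) (up (i + 1)))]
          · rw [if_neg hl]
            split_ifs <;> omega
        have s2 : (if Sees G A y ∨ Sees G B y then (1 : ℤ) else 0) ≤
            (if Lv G A D (cons w f) y 0 ∨ Lv G A D (cons w f) y (0 + 1) then (1 : ℤ) else 0) := by
          by_cases hl : Sees G A y ∨ Sees G B y
          · have h' : Lv G A D (cons w f) y 0 ∨ Lv G A D (cons w f) y (0 + 1) := hl.imp id (up 0)
            rw [if_pos hl, if_pos h']
          · rw [if_neg hl]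
            split_ifs <;> omega
        unfold nxt at hτ
        linarith

/-- Index `i` of the path `f` is owned: some neighbour of `y` has `i` as its first path index. -/
def Own (G : SimpleGraph V) (f : ℕ → V) (y : V) (i : ℕ) : Prop :=
  ∃ x, G.Adj x y ∧ G.Adj (f i) x ∧ ∀ h < i, ¬ G.Adj (f h) x

/-- The potential at a root: the surplus over `L` is explicit. -/
theorem Phi_root [Fintype V] (hc : C4F G) (L : ℕ) (z : V) :
    (∑ v, (la G univ v : ℤ)) - L * Fintype.card V + L - la G univ z +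
        ((L : ℤ) - 1) * (univ.filter (G.Adj z)).card ≤
      Phi G (univ.filter (G.Adj z))
        (fun x => (L : ℤ) - if Sees G (univ.filter (G.Adj z)) x then 1 else 0)
        ((univ.erase z) \ univ.filter (G.Adj z)) := by
  set A := univ.filter (G.Adj z) with hA
  set D := (univ.erase z) \ A with hD
  have hAz : A ⊆ univ.erase z := fun a ha =>
    mem_erase.mpr ⟨(mem_filter.mp ha).2.ne', mem_univ _⟩
  have e1 : ∀ x ∈ D, (la G univ x : ℤ) - L + (if Sees G A x then 1 else 0) ≤
      (la G (A ∪ D) x : ℤ) - ((L : ℤ) - if Sees G A x then 1 else 0) := by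
    intro x hx
    have a1 := la_le (G := G) univ (A ∪ D) x
    have a2 : ((univ \ (A ∪ D)).filter (G.Adj x)).card = 0 := by
      rw [card_eq_zero, filter_eq_empty_iff]
      intro y hy hadj
      rw [hD, union_sdiff_of_subset hAz] at hy
      have : y = z := by
        by_contra k
        exact (mem_sdiff.mp hy).2 (mem_erase.mpr ⟨k, mem_univ _⟩)
      subst this
      exact (mem_sdiff.mp hx).2 (mem_filter.mpr ⟨mem_univ _, hadj.symm⟩)
    omega
  have e2 : ∀ a ∈ A, (la G univ a : ℤ) ≤ 1 + ((D.filter (G.Adj a)).card : ℤ) := by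
    intro a ha
    obtain ⟨I, hI, hn, he⟩ := exists_la (G := G) univ a
    have a1 := card_sdiff_add_card_inter I D
    have a2 : (I ∩ D).card ≤ (D.filter (G.Adj a)).card := card_le_card fun x hx =>
      mem_filter.mpr ⟨(mem_inter.mp hx).2, hn.1 x (mem_inter.mp hx).1⟩
    have key : ∀ x ∈ I \ D, x = z ∨ G.Adj z x := by
      intro x hx
      by_contra k
      push Not at k
      exact (mem_sdiff.mp hx).2 (mem_sdiff.mpr ⟨mem_erase.mpr ⟨k.1, mem_univ _⟩,
        fun h => k.2 (mem_filter.mp h).2⟩)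
    have a3 : (I \ D).card ≤ 1 := by
      rw [card_le_one]
      intro x hx y hy
      have hx' := (mem_sdiff.mp hx).1
      have hy' := (mem_sdiff.mp hy).1
      rcases key x hx with p | p <;> rcases key y hy with q | q
      · rw [p, q]
      · exact (hn.2 x hx' y hy' (p ▸ q)).elim
      · exact (hn.2 y hy' x hx' (q ▸ p)).elim
      · exact hc.uniq (mem_filter.mp ha).2.ne p (hn.1 x hx') q (hn.1 y hy')
    omega
  have e3 : ∑ a ∈ A, (D.filter (G.Adj a)).card ≤ (D.filter (Sees G A)).card := by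
    rw [← card_biUnion]
    · exact card_le_card (biUnion_subset.mpr fun a ha y hy =>
        mem_filter.mpr ⟨(mem_filter.mp hy).1, a, ha, (mem_filter.mp hy).2⟩)
    · intro v hv v' hv' hne
      rw [Function.onFun, disjoint_left]
      intro y h1 h2
      obtain ⟨a1, a2⟩ := mem_filter.mp h1
      have hzy : z ≠ y := fun k => (mem_erase.mp (mem_sdiff.mp a1).1).1 k.symm
      exact hne (hc.uniq hzy (mem_filter.mp hv).2 a2.symm (mem_filter.mp hv').2
        (mem_filter.mp h2).2.symm)
  have s1 := sum_le_sum e1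
  have s2 := sum_le_sum e2
  rw [sum_add_distrib, sum_boole, sum_sub_distrib, sum_const, nsmul_eq_mul] at s1
  rw [sum_add_distrib, sum_const, nsmul_eq_mul, mul_one] at s2
  have s3 : ((∑ a ∈ A, (D.filter (G.Adj a)).card : ℕ) : ℤ) ≤ ((D.filter (Sees G A)).card : ℤ) := by
    exact_mod_cast e3
  rw [Nat.cast_sum] at s3
  have s4 := sum_sdiff (f := fun v => (la G univ v : ℤ)) hAz
  have s5 := sum_erase_add univ (fun v => (la G univ v : ℤ)) (mem_univ z)
  have s6 : (D.card : ℤ) + A.card + 1 = Fintype.card V := by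
    have a1 := card_sdiff_add_card_eq_card hAz
    have a2 := card_erase_add_one (mem_univ z)
    rw [card_univ] at a2
    have : D.card + A.card + 1 = Fintype.card V := by rw [hD]; omega
    exact_mod_cast this
  unfold Phi
  rw [← s6]
  rw [← hD] at s4
  nlinarith

/-- END LEMMA: from any root `z` an induced path `z = f 0, ..., f k, w, y` on which at least `L` of
the indices `0, ..., k` are owned or follow an owned index. -/
theorem endLemma [Fintype V] (hc : C4F G) (hG : G.Connected) {L : ℕ} (hL : 2 ≤ L)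
    (hs : L * Fintype.card V ≤ ∑ v, la G univ v) (z : V) :
    ∃ f k, IP G f (k + 3) ∧ f 0 = z ∧ L ≤ ((range (k + 1)).filter
      (fun i => Own G f (f (k + 2)) i ∨ (0 < i ∧ Own G f (f (k + 2)) (i - 1)))).card := by
  set A := univ.filter (G.Adj z) with hA
  set D := (univ.erase z) \ A with hD
  have hpos : 0 < Phi G A (fun x => (L : ℤ) - if Sees G A x then 1 else 0) D := by
    refine lt_of_lt_of_le ?_ (Phi_root hc L z)
    have a1 : ((L * Fintype.card V : ℕ) : ℤ) ≤ ((∑ v, la G univ v : ℕ) : ℤ) := by exact_mod_cast hs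
    push_cast at a1
    have a2 : (la G univ z : ℤ) ≤ (A.card : ℤ) := by exact_mod_cast la_le_deg (G := G) univ z
    have a3 : (2 : ℤ) ≤ L := by exact_mod_cast hL
    have a4 : (0 : ℤ) ≤ A.card := by positivity
    nlinarith
  have hDz : ∀ v ∈ D, v ≠ z ∧ ¬ G.Adj z v := fun v hv =>
    ⟨(mem_erase.mp (mem_sdiff.mp hv).1).1,
      fun h => (mem_sdiff.mp hv).2 (mem_filter.mpr ⟨mem_univ _, h⟩)⟩
  obtain ⟨f, k, hf, h0, hi, hτ⟩ := walk hc D.card A D D _ le_rfl disjoint_sdiff
    (fun v hv x hx y hy a b =>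
      hc.uniq (hDz v hv).1.symm (mem_filter.mp hx).2 a.symm (mem_filter.mp hy).2 b.symm)
    (by
      intro K hK ⟨x, hx⟩
      by_contra hcon
      push Not at hcon
      have hall : ∀ a b, G.Walk a b → a ∈ K → b ∈ K := by
        intro a b p
        induction p with
        | nil => exact id
        | cons hab _ ih =>
          rename_i a c _ _
          intro ha
          refine ih (hK.2 a ha c (mem_sdiff.mpr ⟨mem_erase.mpr ⟨?_, mem_univ _⟩, fun h => ?_⟩) hab)
          · rintro rfl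
            exact (hDz a (hK.1 ha)).2 hab.symm
          · exact hcon a ha c h hab.symm
      obtain ⟨p⟩ := hG.preconnected x z
      exact (hDz z (hK.1 (hall x z p hx))).1 rfl)
    Subset.rfl hpos
  have hz0 : G.Adj z (f 0) := (mem_filter.mp h0).2
  refine ⟨cons z f, k, hf.cons hz0 (fun i a b => (hDz _ (hi i a b)).2) (fun i b he => ?_), rfl, ?_⟩
  · rcases Nat.eq_zero_or_pos i with rfl | hp
    · exact hz0.ne he
    · exact (hDz _ (hi i hp b)).1 he.symm
  · have hy : cons z f (k + 2) = f (k + 1) := rfl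
    rw [hy]
    set y := f (k + 1) with hyd
    have up : ∀ i, Lv G A D f y i → Own G (cons z f) y i := by
      intro i hl
      rcases i with _ | i
      · obtain ⟨a, a1, a2⟩ := hl
        exact ⟨a, a2, (mem_filter.mp a1).2, fun h hh => absurd hh (Nat.not_lt_zero h)⟩
      · obtain ⟨x, x1, x2, x3, x4⟩ := hl
        refine ⟨x, x2, x3, fun h hh => ?_⟩
        rcases h with _ | h
        · exact (hDz x x1).2
        · exact x4 h (by omega)
    have s1 : ∑ i ∈ range k, (if Lv G A D f y i ∨ Lv G A D f y (i + 1) then (1 : ℤ) else 0) ≤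
        ∑ i ∈ range k, (if Own G (cons z f) y (i + 1) ∨
          (0 < i + 1 ∧ Own G (cons z f) y (i + 1 - 1)) then (1 : ℤ) else 0) := by
      refine sum_le_sum fun i _ => ?_
      by_cases hl : Lv G A D f y i ∨ Lv G A D f y (i + 1)
      · have h' : Own G (cons z f) y (i + 1) ∨ (0 < i + 1 ∧ Own G (cons z f) y (i + 1 - 1)) :=
          hl.symm.imp (up (i + 1)) fun h => ⟨by omega, up i h⟩
        rw [if_pos hl, if_pos h']
      · rw [if_neg hl]
        split_ifs <;> omega
    have s2 : (if Sees G A y then (1 : ℤ) else 0) ≤ (if Own G (cons z f) y 0 ∨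
        (0 < 0 ∧ Own G (cons z f) y (0 - 1)) then (1 : ℤ) else 0) := by
      by_cases hl : Sees G A y
      · have h' : Own G (cons z f) y 0 ∨ (0 < 0 ∧ Own G (cons z f) y (0 - 1)) := Or.inl (up 0 hl)
        rw [if_pos hl, if_pos h']
      · rw [if_neg hl]
        split_ifs <;> omega
    have s3 := sum_range_succ' (fun i => if Own G (cons z f) y i ∨
      (0 < i ∧ Own G (cons z f) y (i - 1)) then (1 : ℤ) else 0) k
    rw [sum_boole] at s3
    have s4 : (L : ℤ) ≤ (((range (k + 1)).filter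
        (fun i => Own G (cons z f) y i ∨ (0 < i ∧ Own G (cons z f) y (i - 1)))).card : ℤ) := by
      linarith
    exact_mod_cast s4

end Pool.Agent.Lib.MP_0d366e_co
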