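import Pool.Agent.Lib.MP_0d366e_co.Frame

open Finset

namespace Pool.Agent.Lib.MP_0d366e_co

open Classical

variable {V : Type} {G : SimpleGraph V}

/-- Along a walk every level up to the level of index `i0` is met at an index `≤ i0`. -/
theorem level_hit (hG : G.Connected) (z : V) {f : ℕ → V} {i0 : ℕ}
    (hf : ∀ i, i < i0 → G.Adj (f i) (f (i + 1))) {d : ℕ} (h0 : G.dist z (f 0) ≤ d)
    (h1 : d ≤ G.dist z (f i0)) : ∃ i ≤ i0, G.dist z (f i) = d := by
  induction i0 with
  | zero => exact ⟨0, le_rfl, by omega⟩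
  | succ n ih =>
    by_cases hn : d ≤ G.dist z (f n)
    · obtain ⟨i, a, b⟩ := ih (fun i hi => hf i (by omega)) hn
      exact ⟨i, by omega, b⟩
    · have a := hG.dist_triangle (u := z) (v := f n) (w := f (n + 1))
      rw [dist_adj (hf n (by omega))] at a
      exact ⟨n + 1, le_rfl, by omega⟩

/-- At least `ρ - 2` indices `≤ i0` are at distance at least three from the first vertex. -/
theorem far_card (hG : G.Connected) {f : ℕ → V} {k i0 ρ : ℕ} (hf : IP G f k) (hi : i0 < k)
    (hρ : ρ ≤ G.dist (f 0) (f i0)) :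
    ρ ≤ ((range (i0 + 1)).filter (fun i => 3 ≤ G.dist (f 0) (f i))).card + 2 := by
  have hsub : Icc 3 ρ ⊆ ((range (i0 + 1)).filter (fun i => 3 ≤ G.dist (f 0) (f i))).image
      (fun i => G.dist (f 0) (f i)) := by
    intro d hd
    obtain ⟨a, b⟩ := mem_Icc.mp hd
    obtain ⟨i, c, e⟩ := level_hit hG (f 0) (f := f) (i0 := i0) (d := d)
      (fun i h => (hf i (by omega) (i + 1) (by omega)).1.mpr (Or.inl rfl)) (by simp)
      (b.trans hρ)
    exact mem_image.mpr ⟨i, mem_filter.mpr ⟨mem_range.mpr (by omega), by omega⟩, e⟩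
  have := (card_le_card hsub).trans card_image_le
  rw [Nat.card_Icc] at this
  omega

/-- End step from any set `F` of far indices. -/
theorem ext_set [Fintype V] (hG : G.Connected) (hc : C4F G) {f : ℕ → V} {k : ℕ} (hf : IP G f k)
    (hk : 3 ≤ k) (F : Finset ℕ) (hF : ∀ i ∈ F, i < k ∧ 3 ≤ G.dist (f 0) (f i))
    (hl : k ≤ la G univ (f 0) + F.card + 1) :
    ∃ x, G.Adj (f 0) x ∧ IP G (cons x f) (k + 1) := by
  have hsub : F ⊆ Ico 3 k := fun i hi => by
    obtain ⟨a, b⟩ := hF i hi
    have := hf.dist_le hG (Nat.zero_le i) a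
    exact mem_Ico.mpr ⟨by omega, a⟩
  refine end_step hG hc hf (by omega) (Ico 3 k \ F) (fun i a b c => ?_) ?_
  · exact mem_sdiff.mpr ⟨mem_Ico.mpr ⟨a, b⟩, fun h => by have := (hF i h).2; omega⟩
  · have := card_sdiff_add_card_eq_card hsub
    rw [Nat.card_Ico] at this
    omega

/-- End step from one index `i0` at distance at least `ρ` and further far indices `E` after it. -/
theorem ext_far [Fintype V] (hG : G.Connected) (hc : C4F G) {f : ℕ → V} {k i0 ρ : ℕ}
    (hf : IP G f k) (hk : 3 ≤ k) (hi : i0 < k) (hρ : ρ ≤ G.dist (f 0) (f i0)) (E : Finset ℕ)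
    (hE : ∀ i ∈ E, i0 < i ∧ i < k ∧ 3 ≤ G.dist (f 0) (f i))
    (hl : k + 1 ≤ la G univ (f 0) + ρ + E.card) :
    ∃ x, G.Adj (f 0) x ∧ IP G (cons x f) (k + 1) := by
  have h1 := far_card hG hf hi hρ
  have hd : Disjoint ((range (i0 + 1)).filter (fun i => 3 ≤ G.dist (f 0) (f i))) E := by
    rw [disjoint_left]
    intro i a b
    have := mem_range.mp (mem_filter.mp a).1
    have := (hE i b).1
    omega
  refine ext_set hG hc hf hk (((range (i0 + 1)).filter (fun i => 3 ≤ G.dist (f 0) (f i))) ∪ E)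
    (fun i hi' => ?_) ?_
  · rcases mem_union.mp hi' with a | a
    · obtain ⟨b, c⟩ := mem_filter.mp a
      exact ⟨by have := mem_range.mp b; omega, c⟩
    · exact (hE i a).2
  · rw [card_union_of_disjoint hd]
    omega

/-- One end step for an induced path between two vertices at distance at least `r`. -/
theorem one_end [Fintype V] (hG : G.Connected) (hc : C4F G) {f : ℕ → V} {k L r : ℕ}
    (hf : IP G f k) (hr : 2 ≤ r) (hd : r ≤ G.dist (f 0) (f (k - 1))) (hk : r + L ≤ k + 1)
    (hz : L ≤ la G univ (f 0)) : ∃ g, IP G g (r + L) := by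
  by_cases h : r + L ≤ k
  · exact ⟨f, hf.mono h⟩
  have hk0 : 0 < k := by
    rcases Nat.eq_zero_or_pos k with rfl | h0
    · simp at hd; omega
    · exact h0
  have h3 := hf.dist_le hG (Nat.zero_le (k - 1)) (by omega)
  obtain ⟨x, -, hx⟩ := ext_far hG hc hf (by omega) (show k - 1 < k by omega) hd ∅ (by simp)
    (by rw [card_empty]; omega)
  exact ⟨_, hx.mono (by omega)⟩

/-- Both end steps in the exact case `k = r + L - 2`: both ends need only `L - 1` blocks. -/
theorem two_ends_exact [Fintype V] (hG : G.Connected) (hc : C4F G) {f : ℕ → V} {k L r : ℕ}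
    (hf : IP G f k) (hr : 4 ≤ r) (hd : r ≤ G.dist (f 0) (f (k - 1))) (hk : r + L = k + 2)
    (hz : L ≤ la G univ (f 0) + 1) (hu : L ≤ la G univ (f (k - 1)) + 1) :
    ∃ g, IP G g (r + L) := by
  have hk0 : 0 < k := by
    rcases Nat.eq_zero_or_pos k with rfl | h0
    · simp at hd; omega
    · exact h0
  have h3 := hf.dist_le hG (Nat.zero_le (k - 1)) (by omega)
  obtain ⟨x, hx, h1⟩ := ext_far hG hc (ρ := r) hf.rev (by omega) (show k - 1 < k by omega)
    (by simpa [SimpleGraph.dist_comm] using hd) ∅ (by simp)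
    (by rw [card_empty]; simp only [Nat.sub_zero]; omega)
  simp only [Nat.sub_zero] at hx
  have h2 := h1.rev
  have e0 : ∀ i, i < k → cons x (fun i => f (k - 1 - i)) (k + 1 - 1 - i) = f i := by
    intro i hi
    rw [show k + 1 - 1 - i = (k - 1 - i) + 1 by omega]
    simp only [cons]
    congr 1
    omega
  have e1 : cons x (fun i => f (k - 1 - i)) (k + 1 - 1 - k) = x := by
    rw [show k + 1 - 1 - k = 0 by omega]
    rfl
  have t := hG.dist_triangle (u := f 0) (v := x) (w := f (k - 1))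
  rw [dist_adj hx.symm] at t
  obtain ⟨y, -, hy⟩ := ext_far hG hc (ρ := r) h2 (by omega) (show k - 1 < k + 1 by omega)
    (by rw [e0 0 hk0, e0 (k - 1) (by omega)]; exact hd) {k}
    (fun i hi => by
      rw [mem_singleton.mp hi, e0 0 hk0, e1]
      omega)
    (by rw [card_singleton, e0 0 hk0]; omega)
  exact ⟨_, hy.mono (by omega)⟩

/-- Both end steps for an induced path between two vertices at distance at least `r ≥ 4`. -/
theorem two_ends [Fintype V] (hG : G.Connected) (hc : C4F G) {f : ℕ → V} {k L r : ℕ}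
    (hf : IP G f k) (hr : 4 ≤ r) (hd : r ≤ G.dist (f 0) (f (k - 1))) (hk : r + L ≤ k + 2)
    (hz : L ≤ la G univ (f 0)) (hu : L ≤ la G univ (f (k - 1)) + 1) : ∃ g, IP G g (r + L) := by
  by_cases h : r + L ≤ k + 1
  · exact one_end hG hc hf (by omega) hd h hz
  · exact two_ends_exact hG hc hf hr hd (by omega) (by omega) hu

end Pool.Agent.Lib.MP_0d366e_co
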