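import Pool.Agent.Lib.MP_0d366e_co.Geo

open Finset

namespace Pool.Agent.Lib.MP_0d366e_co

open Classical

variable {V : Type} {G : SimpleGraph V}

/-- A shortest path between two given vertices. -/
theorem exists_geo_to (hG : G.Connected) (v u : V) :
    ∃ g : ℕ → V, g 0 = v ∧ g (G.dist v u) = u ∧ Geo G g (G.dist v u) := by
  obtain ⟨p, hp⟩ := hG.exists_walk_length_eq_dist v u
  have hch := dist_chain hG (f := p.getVert) (k := p.length + 1)
    (fun i hi => p.adj_getVert_succ (by omega))
  refine ⟨p.getVert, p.getVert_zero, by rw [← hp, p.getVert_length], fun i j hij hj => ?_⟩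
  have a1 := hch 0 i (by omega)
  have a2 := hch i (j - i) (by omega)
  have a3 := hch j (p.length - j) (by omega)
  rw [show i + (j - i) = j by omega] at a2
  rw [show j + (p.length - j) = p.length by omega, p.getVert_length] at a3
  rw [zero_add, p.getVert_zero] at a1
  have t1 := hG.dist_triangle (u := v) (v := p.getVert i) (w := u)
  have t2 := hG.dist_triangle (u := p.getVert i) (v := p.getVert j) (w := u)
  omega

/-- The case of a vertex `c` with a unique vertex at distance at least `r`. -/
theorem ess_core (hG : G.Connected) {r : ℕ} (h2 : 2 ≤ r) (hr : ∀ v, ∃ u, r ≤ G.dist v u) {c v : V}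
    (hc : ∀ u, u ≠ v → G.dist c u < r) : ∃ f, IP G f (2 * r - 1) := by
  have hv : r ≤ G.dist c v := by
    obtain ⟨u, hu⟩ := hr c
    by_cases h : u = v
    · exact h ▸ hu
    · have := hc u h
      omega
  obtain ⟨g, g0, g1, hg⟩ := exists_geo_to hG c v
  have hd : G.dist c v = r := by
    have a := hg 0 (G.dist c v - 1) (by omega) (by omega)
    have b := hg (G.dist c v - 1) (G.dist c v) (by omega) le_rfl
    rw [g0] at a
    rw [g1] at b
    have := hc (g (G.dist c v - 1)) (fun he => by rw [he, SimpleGraph.dist_self] at b; omega)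
    omega
  rw [hd] at g1 hg
  obtain ⟨w, hw⟩ := hr (g 2)
  have hwv : w ≠ v := by
    rintro rfl
    have := hg 2 r h2 le_rfl
    rw [g1] at this
    omega
  have hq := hc w hwv
  obtain ⟨u, u0, u1, hu⟩ := exists_geo_to hG c w
  set q := G.dist c w with hqd
  have hq2 : r ≤ q + 2 := by
    have a := hG.dist_triangle (u := g 2) (v := c) (w := w)
    have b := hg 0 2 (by omega) h2
    rw [g0, SimpleGraph.dist_comm] at b
    omega
  have key : ∀ i, 1 ≤ i → i ≤ r → ∀ j ≤ q, g i ≠ u j ∧
      (G.Adj (g i) (u j) → i = 1 ∧ (j = 0 ∨ j = 1 ∧ q + 1 = r)) := by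
    intro i h1 hi j hj
    have a1 := hg 0 i (by omega) hi
    have a2 := hu 0 j (by omega) hj
    have a3 := hu j q hj le_rfl
    rw [g0] at a1
    rw [u0] at a2
    rw [u1] at a3
    have a4 : G.dist (g 2) (g i) ≤ (i - 2) + (2 - i) := by
      rcases le_total 2 i with h | h
      · have := hg 2 i h hi
        omega
      · have := hg i 2 h h2
        rw [SimpleGraph.dist_comm] at this
        omega
    have t1 := hG.dist_triangle (u := g 2) (v := g i) (w := w)
    have t2 := hG.dist_triangle (u := g i) (v := u j) (w := w)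
    have t3 := hG.dist_triangle (u := c) (v := u j) (w := g i)
    have t4 := hG.dist_triangle (u := c) (v := g i) (w := u j)
    rw [SimpleGraph.dist_comm (u := u j)] at t3
    refine ⟨fun he => ?_, fun ha => ?_⟩
    · have : G.dist (g i) (u j) = 0 := by rw [he, SimpleGraph.dist_self]
      omega
    · have := dist_adj ha
      omega
  have hg' : IP G (fun i => g (1 + i)) (r - 1 + 1) :=
    IP.shift 1 (hg.ip.mono (by omega))
  by_cases h : 1 ≤ q ∧ G.Adj (g 1) (u 1)
  · have hqr := ((key 1 le_rfl (by omega) 1 h.1).2 h.2).2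
    have hu' : IP G (fun i => u (1 + i)) q := IP.shift 1 (hu.ip.mono (by omega))
    obtain ⟨F, hF, -⟩ := hu'.prepend (by omega) (r - 1) hg' h.2 (fun i hi j hj => by
      obtain ⟨a, b⟩ := key (1 + i) (by omega) (by omega) (1 + j) (by omega)
      exact ⟨a, fun ha => by have := b ha; omega⟩)
    exact ⟨F, hF.mono (by omega)⟩
  · have h0 : G.Adj (g (1 + 0)) (u 0) := by
      rw [u0, ← g0]
      exact (hg.ip 1 (by omega) 0 (by omega)).1.mpr (Or.inr rfl)
    obtain ⟨F, hF, -⟩ := hu.ip.prepend (by omega) (r - 1) hg' h0 (fun i hi j hj => by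
      obtain ⟨a, b⟩ := key (1 + i) (by omega) (by omega) j (by omega)
      refine ⟨a, fun ha => ?_⟩
      obtain ⟨b1, b2⟩ := b ha
      rcases b2 with b2 | ⟨b2, -⟩
      · omega
      · obtain rfl : i = 0 := by omega
        subst b2
        exact (h ⟨by omega, ha⟩).elim)
    exact ⟨F, hF.mono (by omega)⟩

/-- A connected graph of radius at least `r` has an induced path on `2 r - 1` vertices. -/
theorem ess_aux (r : ℕ) (h2 : 2 ≤ r) (n : ℕ) : ∀ (V : Type) [Finite V] (G : SimpleGraph V),
    Nat.card V = n → G.Connected → (∀ v, ∃ u, r ≤ G.dist v u) → ∃ f, IP G f (2 * r - 1) := by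
  induction n with
  | zero =>
    intro V _ G hn hG _
    have : Nonempty V := hG.nonempty
    have := Nat.card_pos (α := V)
    omega
  | succ n ih =>
    intro V _ G hn hG hr
    have : Nontrivial V := by
      obtain ⟨a⟩ := hG.nonempty
      obtain ⟨b, hb⟩ := hr a
      exact ⟨a, b, fun he => by rw [he, SimpleGraph.dist_self] at hb; omega⟩
    obtain ⟨v, hv⟩ := hG.exists_connected_induce_compl_singleton_of_finite_nontrivial
    by_cases h : ∀ c : ({v}ᶜ : Set V), ∃ u, r ≤ (G.induce {v}ᶜ).dist c u
    · have hcard : Nat.card ({v}ᶜ : Set V) = n := by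
        have a := Set.ncard_add_ncard_compl ({v} : Set V)
        rw [Set.ncard_singleton] at a
        rw [Nat.card_coe_set_eq]
        omega
      obtain ⟨f, hf⟩ := ih _ _ hcard hv h
      exact ⟨fun i => f i, fun i hi j hj => ⟨(hf i hi j hj).1,
        fun he => (hf i hi j hj).2 (Subtype.ext he)⟩⟩
    · push Not at h
      obtain ⟨c, hc⟩ := h
      refine ess_core hG h2 hr (c := c) (v := v) fun u hu => ?_
      obtain ⟨p, hp⟩ := hv.exists_walk_length_eq_dist c ⟨u, hu⟩
      have a := SimpleGraph.dist_le (p.map (SimpleGraph.Embedding.induce _).toHom)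
      rw [SimpleGraph.Walk.length_map, hp] at a
      exact a.trans_lt (hc ⟨u, hu⟩)

theorem ess [Finite V] (hG : G.Connected) (h2 : 2 ≤ G.radius.toNat) :
    ∃ f, IP G f (2 * G.radius.toNat - 1) := by
  refine ess_aux _ h2 _ V G rfl hG fun v => ?_
  obtain ⟨u, hu⟩ := G.exists_edist_eq_eccent_of_finite v
  exact ⟨u, ENat.toNat_le_toNat (hu ▸ SimpleGraph.radius_le_eccent)
      (SimpleGraph.edist_ne_top_iff_reachable.mpr (hG v u))⟩

end Pool.Agent.Lib.MP_0d366e_co
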