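import Pool.Agent.Lib.MP_0d366e_co.Geo

open Finset

namespace Pool.Agent.Lib.MP_0d366e_co

open Classical

variable {V : Type} {G : SimpleGraph V}

/-- Neighbours of the first vertex that avoid the second vertex and the vertices indexed by `S`. -/
theorem free (hc : C4F G) {f : ℕ → V} {k : ℕ} (hf : IP G f k) (hk : 2 ≤ k) {I : Finset V}
    (hI : NI G (f 0) I) (S : Finset ℕ) : ∃ T ⊆ I, I.card ≤ 1 + S.card + T.card ∧
      ∀ x ∈ T, x ≠ f 1 ∧ ¬ G.Adj (f 1) x ∧ ∀ i ∈ S, 0 < i → i < k → ¬ G.Adj (f i) x := by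
  have h01 : G.Adj (f 0) (f 1) := (hf 0 (by omega) 1 (by omega)).1.mpr (by omega)
  set T1 := I.filter (fun x => x = f 1 ∨ G.Adj (f 1) x)
  set S' := S.filter (fun i => 0 < i ∧ i < k)
  set T2 := I.filter (fun x => ∃ i ∈ S', G.Adj (f i) x)
  have c1 : T1.card ≤ 1 := by
    rw [card_le_one]
    intro x hx y hy
    obtain ⟨a, a'⟩ := mem_filter.mp hx
    obtain ⟨b, b'⟩ := mem_filter.mp hy
    rcases a' with a' | a' <;> rcases b' with b' | b'
    · rw [a', b']
    · exact (hI.2 x a y b (a' ▸ b')).elim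
    · exact (hI.2 y b x a (b' ▸ a')).elim
    · exact hc.uniq h01.ne (hI.1 x a) a' (hI.1 y b) b'
  have c2 : T2.card ≤ S'.card := by
    refine card_hit hc (f 0) _ f _ (fun i hi he => ?_) (fun x hx => ?_)
    · obtain ⟨a, b⟩ := (mem_filter.mp hi).2
      have := (hf i b 0 (by omega)).2 he
      omega
    · exact ⟨hI.1 x (mem_filter.mp hx).1, (mem_filter.mp hx).2⟩
  have c3 : S'.card ≤ S.card := card_filter_le _ _
  refine ⟨I \ (T1 ∪ T2), sdiff_subset, ?_, fun x hx => ?_⟩
  · have := le_card_sdiff (T1 ∪ T2) I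
    have := card_union_le T1 T2
    omega
  · obtain ⟨a, b⟩ := mem_sdiff.mp hx
    refine ⟨fun h => b (mem_union_left _ (mem_filter.mpr ⟨a, Or.inl h⟩)),
      fun h => b (mem_union_left _ (mem_filter.mpr ⟨a, Or.inr h⟩)), fun i hi h1 h2 h =>
      b (mem_union_right _ (mem_filter.mpr ⟨a, i, mem_filter.mpr ⟨hi, h1, h2⟩, h⟩))⟩

/-- Neighbours of the first vertex that extend the induced path. -/
theorem free2 (hG : G.Connected) (hc : C4F G) {f : ℕ → V} {k : ℕ} (hf : IP G f k) (hk : 2 ≤ k)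
    {I : Finset V} (hI : NI G (f 0) I) (S : Finset ℕ)
    (hS : ∀ i, 3 ≤ i → i < k → G.dist (f 0) (f i) ≤ 2 → i ∈ S) :
    ∃ T ⊆ I, I.card ≤ 1 + S.card + T.card ∧
      ∀ x ∈ T, ∀ i, 0 < i → i < k → ¬ G.Adj x (f i) ∧ x ≠ f i := by
  obtain ⟨T, hT, hcard, h⟩ := free hc hf hk hI S
  refine ⟨T, hT, hcard, fun x hx i h0 hi => ⟨fun ha => ?_, fun he => ?_⟩⟩
  · obtain ⟨a, b, c⟩ := h x hx
    by_cases h1 : i = 1
    · exact b (h1 ▸ ha.symm)
    by_cases h2 : i = 2
    · subst h2
      refine a (hc.uniq (a := f 0) (c := f 2) (fun he => ?_) (hI.1 x (hT hx)) ha.symm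
        ((hf 0 (by omega) 1 (by omega)).1.mpr (by omega))
        ((hf 2 (by omega) 1 (by omega)).1.mpr (by omega)))
      have := (hf 0 (by omega) 2 hi).2 he
      omega
    · exact c i (hS i (by omega) hi (dist_two hG (hI.1 x (hT hx)) ha)) h0 hi ha.symm
  · have := (hf 0 (by omega) i hi).1.mp (he ▸ hI.1 x (hT hx))
    exact (h x hx).1 (by rw [he, show i = 1 by omega])

theorem IP.ext {f : ℕ → V} {k : ℕ} (hf : IP G f k) {x : V} (h0 : G.Adj (f 0) x)
    (h : ∀ i, 0 < i → i < k → ¬ G.Adj x (f i) ∧ x ≠ f i) :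
    IP G (MP_0d366e_co.cons x f) (k + 1) :=
  hf.cons h0.symm (fun i a b => (h i a b).1) fun i hi => by
    rcases Nat.eq_zero_or_pos i with rfl | hp
    · exact h0.ne.symm
    · exact (h i hp hi).2

/-- Greedy extension of a shortest path at its first vertex. -/
theorem grow (hG : G.Connected) (hc : C4F G) {δ : ℕ} (hδ : ∀ v, ∃ I, NI G v I ∧ δ ≤ I.card)
    {g : ℕ → V} {r : ℕ} (hg : Geo G g r) (hr : 1 ≤ r) (J : ℕ)
    (hJ : ∀ j < J, min (j + r - 2) (j + 2) + 2 ≤ δ) :
    ∃ f, IP G f (J + r + 1) ∧ ∀ i ≤ r, f (J + i) = g i := by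
  induction J with
  | zero => exact ⟨g, by simpa using hg.ip, fun i _ => by rw [zero_add]⟩
  | succ J ih =>
    obtain ⟨f, hf, hfg⟩ := ih fun j hj => hJ j (by omega)
    obtain ⟨I, hI, hIc⟩ := hδ (f 0)
    set S := (Ico 3 (J + r + 1)).filter (fun i => G.dist (f 0) (f i) ≤ 2) with hS
    obtain ⟨T, hT, hcard, h⟩ := free2 hG hc hf (by omega) hI S
      (fun i a b c => mem_filter.mpr ⟨mem_Ico.mpr ⟨a, b⟩, c⟩)
    have c1 : S.card ≤ J + r - 2 := (card_filter_le _ _).trans (by simp)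
    have c2 : S.card ≤ J + 2 := by
      by_cases h2 : J ≤ 2
      · refine (card_le_card (t := Icc 3 (2 * J + 2)) fun i hi => ?_).trans (by simp; omega)
        obtain ⟨a, b⟩ := mem_filter.mp hi
        obtain ⟨a1, a2⟩ := mem_Ico.mp a
        have d1 := hg 0 (i - J) (by omega) (by omega)
        rw [← hfg 0 (by omega), ← hfg (i - J) (by omega), show J + (i - J) = i by omega] at d1
        have d2 := hf.dist_le hG (i := 0) (j := J + 0) (by omega) (by omega)
        have d3 := hG.dist_triangle (u := f (J + 0)) (v := f 0) (w := f i)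
        rw [SimpleGraph.dist_comm] at d2
        rw [mem_Icc]
        omega
      · set W := (range (r + 1)).filter (fun s => G.dist (f 0) (g s) ≤ 2)
        have w5 : W.card ≤ 5 := hg.window hG (f 0) W fun s hs => by
          obtain ⟨a, b⟩ := mem_filter.mp hs
          exact ⟨by have := mem_range.mp a; omega, b⟩
        have : S ⊆ Ico 3 J ∪ W.image (J + ·) := by
          intro i hi
          obtain ⟨a, b⟩ := mem_filter.mp hi
          obtain ⟨a1, a2⟩ := mem_Ico.mp a
          by_cases hiJ : i < J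
          · exact mem_union_left _ (mem_Ico.mpr ⟨a1, hiJ⟩)
          · refine mem_union_right _ (mem_image.mpr ⟨i - J, mem_filter.mpr
              ⟨mem_range.mpr (by omega), ?_⟩, by omega⟩)
            rwa [← hfg (i - J) (by omega), show J + (i - J) = i by omega]
        have e1 := card_le_card this
        have e2 := card_union_le (Ico 3 J) (W.image (J + ·))
        have e3 : (W.image (J + ·)).card ≤ W.card := card_image_le
        rw [Nat.card_Ico] at e2
        omega
    have := hJ J (by omega)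
    obtain ⟨x, hx⟩ : T.Nonempty := card_pos.mp (by omega)
    refine ⟨cons x f, ?_, fun i hi => ?_⟩
    · rw [show J + 1 + r + 1 = J + r + 1 + 1 by omega]
      exact hf.ext (hI.1 x (hT hx)) (h x hx)
    · rw [show J + 1 + i = J + i + 1 by omega]
      exact hfg i hi

/-- The same path read from its other end. -/
theorem turn {g f : ℕ → V} {r J : ℕ} (hg : Geo G g r) (hf : IP G f (J + r + 1))
    (hfg : ∀ i ≤ r, f (J + i) = g i) : ∃ h, IP G h (J + r + 1) ∧ Geo G h r := by
  refine ⟨_, hf.rev, fun i j hij hj => ?_⟩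
  show G.dist (f (J + r + 1 - 1 - i)) (f (J + r + 1 - 1 - j)) = j - i
  rw [show J + r + 1 - 1 - i = J + (r - i) by omega, show J + r + 1 - 1 - j = J + (r - j) by omega,
    hfg _ (by omega), hfg _ (by omega), SimpleGraph.dist_comm, hg _ _ (by omega) (by omega)]
  omega

theorem far (hG : G.Connected) {h : ℕ → V} {r k : ℕ} (hh : IP G h k) (hg : Geo G h r) {i d : ℕ}
    (hi : i < k) (hd : G.dist (h 0) (h i) ≤ d) : i ≤ d ∨ 2 * r ≤ i + d := by
  by_cases hir : i ≤ r
  · have := hg 0 i (by omega) hir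
    omega
  · have a := hg 0 r (by omega) le_rfl
    have b := hh.dist_le hG (i := r) (j := i) (by omega) hi
    have c := hG.dist_triangle (u := h 0) (v := h i) (w := h r)
    rw [SimpleGraph.dist_comm] at b
    omega

theorem endB (hG : G.Connected) (hc : C4F G) {δ : ℕ} (hδ : ∀ v, ∃ I, NI G v I ∧ δ ≤ I.card)
    {h : ℕ → V} {r J : ℕ} (hh : IP G h (J + r + 1)) (hg : Geo G h r) (hr : 3 ≤ r) :
    ∃ T, NI G (h 0) T ∧ δ ≤ 1 + (J + 3 - r) + T.card ∧
      ∀ x ∈ T, ∀ i, 0 < i → i < J + r + 1 → ¬ G.Adj x (h i) ∧ x ≠ h i := by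
  obtain ⟨I, hI, hIc⟩ := hδ (h 0)
  obtain ⟨T, hT, hcard, hx⟩ := free2 hG hc hh (by omega) hI (Icc (2 * r - 2) (J + r))
    (fun i a b c => by
      have := far hG hh hg b c
      rw [mem_Icc]; omega)
  refine ⟨T, hI.subset hT, ?_, hx⟩
  rw [Nat.card_Icc] at hcard
  omega

theorem minl (hG : G.Connected) (hc : C4F G) {δ : ℕ} (hδ : ∀ v, ∃ I, NI G v I ∧ δ ≤ I.card)
    {g : ℕ → V} {r : ℕ} (hg : Geo G g r) (hr : 1 ≤ r) : ∃ f, IP G f (r + δ) := by
  by_cases h1 : δ ≤ 1
  · exact ⟨g, hg.ip.mono (by omega)⟩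
  by_cases h2 : r ≤ 2
  · obtain ⟨f, hf, -⟩ := grow hG hc hδ hg hr (δ - 1) (fun j hj => by omega)
    exact ⟨f, hf.mono (by omega)⟩
  by_cases h3 : r = 3 ∨ δ = 2
  · obtain ⟨f, hf, hfg⟩ := grow hG hc hδ hg hr (δ - 2) (fun j hj => by omega)
    obtain ⟨h, hh, hgh⟩ := turn hg hf hfg
    obtain ⟨T, hT, hcard, hx⟩ := endB hG hc hδ hh hgh (by omega)
    obtain ⟨x, hxT⟩ : T.Nonempty := card_pos.mp (by omega)
    exact ⟨_, (hh.ext (hT.1 x hxT) (hx x hxT)).mono (by omega)⟩
  obtain ⟨J, rfl⟩ : ∃ J, δ = J + 3 := ⟨δ - 3, by omega⟩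
  obtain ⟨f, hf, hfg⟩ := grow hG hc hδ hg hr J (fun j hj => by omega)
  obtain ⟨h, hh, hgh⟩ := turn hg hf hfg
  obtain ⟨T, hT, hcard, hx⟩ := endB hG hc hδ hh hgh (by omega)
  obtain ⟨x, hxT, x', hxT', hne⟩ := one_lt_card.mp (show 1 < T.card by omega)
  have hp := hh.ext (hT.1 x hxT) (hx x hxT)
  obtain ⟨I, hI, hIc⟩ := hδ x
  obtain ⟨T', hT', hcard', ht⟩ := free hc hp (by omega) (I := I) hI
    (insert 4 (Icc (2 * r - 2) (J + r + 1)))
  have c1 := card_insert_le 4 (Icc (2 * r - 2) (J + r + 1))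
  rw [Nat.card_Icc] at c1
  obtain ⟨t, htT⟩ : T'.Nonempty := card_pos.mp (by omega)
  obtain ⟨t1, t2, t3⟩ := ht t htT
  replace t1 : t ≠ h 0 := t1
  replace t2 : ¬ G.Adj (h 0) t := t2
  have xt : G.Adj x t := hI.1 t (hT' htT)
  have h0x := hT.1 x hxT
  have t4 : ∀ i, 3 ≤ i → i < J + r + 1 → ¬ G.Adj t (h i) := by
    intro i a b ha
    have d1 := dist_two hG xt ha
    have d2 := hG.dist_triangle (u := h 0) (v := x) (w := h i)
    rw [dist_adj h0x] at d2
    have d3 := far hG hh hgh b (d := 3) (by omega)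
    refine t3 (i + 1) ?_ (by omega) (by omega) ha.symm
    rw [mem_insert, mem_Icc]
    omega
  have t5 : ∀ i, 0 < i → i < J + r + 1 → t ≠ h i := fun i a b he => (hx x hxT i a b).1 (he ▸ xt)
  by_cases ht2 : G.Adj t (h 2)
  · have q0 : IP G (fun i => h (2 + i)) (J + r - 1) :=
      IP.shift 2 (by rw [show 2 + (J + r - 1) = J + r + 1 by omega]; exact hh)
    have q1 := q0.cons (u := t) ht2 (fun i a b => t4 _ (by omega) (by omega))
      (fun i a => t5 _ (by omega) (by omega))
    have q2 := q1.cons (u := x) xt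
      (fun i a b => by
        obtain ⟨j, rfl⟩ : ∃ j, i = j + 1 := ⟨i - 1, by omega⟩
        exact (hx x hxT (2 + j) (by omega) (by omega)).1)
      (fun i a => by
        rcases i with _ | j
        · exact xt.ne
        · exact (hx x hxT (2 + j) (by omega) (by omega)).2)
    have q3 := q2.cons (u := h 0) h0x
      (fun i a b => by
        rcases i with _ | _ | j
        · omega
        · exact t2
        · intro ha
          have := (hh 0 (by omega) (2 + j) (by omega)).1.mp ha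
          omega)
      (fun i a => by
        rcases i with _ | _ | j
        · exact h0x.ne
        · exact t1.symm
        · intro he
          have := (hh 0 (by omega) (2 + j) (by omega)).2 he
          omega)
    have q4 := q3.cons (u := x') (hT.1 x' hxT').symm
      (fun i a b => by
        rcases i with _ | _ | _ | j
        · omega
        · exact hT.2 x' hxT' x hxT
        · intro ha
          exact hne (hc.uniq t1.symm h0x xt.symm (hT.1 x' hxT') ha.symm)
        · exact (hx x' hxT' (2 + j) (by omega) (by omega)).1)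
      (fun i a => by
        rcases i with _ | _ | _ | j
        · exact (hT.1 x' hxT').ne.symm
        · exact hne.symm
        · intro he
          exact hT.2 x hxT x' hxT' (he ▸ xt)
        · exact (hx x' hxT' (2 + j) (by omega) (by omega)).2)
    exact ⟨_, q4.mono (by omega)⟩
  · refine ⟨_, (hp.ext (x := t) xt fun i a b => ?_).mono (by omega)⟩
    rcases i with _ | _ | _ | _ | j
    · omega
    · exact ⟨fun ha => t2 ha.symm, t1⟩
    · refine ⟨fun ha => ?_, t5 1 (by omega) (by omega)⟩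
      exact t1 (hc.uniq (a := x) (c := h 1) (hx x hxT 1 (by omega) (by omega)).2 xt ha.symm
        h0x.symm ((hh 1 (by omega) 0 (by omega)).1.mpr (by omega)))
    · exact ⟨ht2, t5 2 (by omega) (by omega)⟩
    · exact ⟨t4 (j + 3) (by omega) (by omega), t5 (j + 3) (by omega) (by omega)⟩

end Pool.Agent.Lib.MP_0d366e_co
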