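import Pool.Agent.Lib.MP_0d366e_co.Dense
import Pool.Agent.Lib.MP_0d366e_co.MinL

open Finset

namespace Pool.Agent.Lib.MP_0d366e_co

open Classical

variable {V : Type} {G : SimpleGraph V}

theorem exists_NI (v : V) : ∃ I, NI G v I ∧ I.card = (G.induce (G.neighborSet v)).indepNum := by
  obtain ⟨s, hs, hcard⟩ := (G.induce (G.neighborSet v)).exists_isNIndepSet_indepNum
  refine ⟨s.map (Function.Embedding.subtype _), ⟨fun x hx => ?_, fun x hx y hy ha => ?_⟩, ?_⟩
  · obtain ⟨a, -, rfl⟩ := mem_map.mp hx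
    exact a.2
  · obtain ⟨a, ha', rfl⟩ := mem_map.mp hx
    obtain ⟨b, hb', rfl⟩ := mem_map.mp hy
    exact hs ha' hb' (fun he => ha.ne (by rw [he])) ha
  · rw [card_map, hcard]

theorem indepNum_le_la [Fintype V] (v : V) :
    (G.induce (G.neighborSet v)).indepNum ≤ la G univ v := by
  obtain ⟨I, hI, he⟩ := exists_NI (G := G) v
  exact he ▸ le_la (subset_univ I) hI

theorem one_vertex (v : V) : IP G (fun _ => v) 1 := by
  intro i hi j hj
  exact ⟨⟨fun h => (G.irrefl h).elim, fun h => by omega⟩, fun _ => by omega⟩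

theorem minl' [Finite V] (hG : G.Connected) (hc : C4F G) {δ : ℕ}
    (hδ : ∀ v, ∃ I, NI G v I ∧ δ ≤ I.card) : ∃ f, IP G f (G.radius.toNat + δ) := by
  obtain ⟨v⟩ := hG.nonempty
  by_cases hr : 1 ≤ G.radius.toNat
  · obtain ⟨g, -, hg⟩ := exists_geo hG v
    exact minl hG hc hδ hg hr
  · have : Nonempty V := ⟨v⟩
    have h0 : G.radius = 0 := by
      have h1 := SimpleGraph.radius_ne_top_iff.mpr hG
      rw [← ENat.natCast_toNat h1, show G.radius.toNat = 0 by omega]
      rfl
    have hs := (SimpleGraph.radius_eq_zero_iff.mp h0).2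
    obtain ⟨I, hI, hIc⟩ := hδ v
    have : I = ∅ := eq_empty_of_forall_notMem fun x hx => (hI.1 x hx).ne (Subsingleton.elim _ _)
    rw [this, card_empty] at hIc
    exact ⟨_, (one_vertex v).mono (by omega)⟩

/-- If some vertex is below the average, there is an induced path on `L + 2` vertices. -/
theorem below [Fintype V] (hG : G.Connected) (hc : C4F G) (L : ℕ)
    (hL : L * Fintype.card V ≤ ∑ v, la G univ v) (w : V) (hw : la G univ w < L) :
    ∃ f, IP G f (L + 2) := by
  have hu : ({w} : Finset V) ∪ univ.erase w = univ := by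
    ext x; by_cases h : x = w <;> simp [h]
  obtain ⟨f, hf, -⟩ := pot hc L {w} (univ.erase w) (by simp)
    (fun v _ a ha b hb _ _ => by rw [mem_singleton.mp ha, mem_singleton.mp hb])
    (by
      intro K hK ⟨x, hx⟩
      by_contra hcon
      push Not at hcon
      have key : ∀ a b : V, G.Walk a b → a ∈ K → b ∈ K := by
        intro a b p
        induction p with
        | nil => exact id
        | @cons a c b hadj p ih =>
          intro ha
          refine ih (hK.2 a ha c (mem_erase.mpr ⟨fun he => ?_, mem_univ _⟩) hadj)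
          exact hcon a ha w (mem_singleton_self w) (he ▸ hadj.symm)
      obtain ⟨p⟩ := hG x w
      exact (mem_erase.mp (hK.1 (key x w p hx))).1 rfl)
    (by
      rw [hu, card_erase_of_mem (mem_univ w), card_univ]
      have a := add_sum_erase univ (la G univ) (mem_univ w)
      have b : 1 ≤ Fintype.card V := Fintype.card_pos_iff.mpr ⟨w⟩
      obtain ⟨n, hn⟩ : ∃ n, Fintype.card V = n + 1 := ⟨Fintype.card V - 1, by omega⟩
      rw [hn] at hL ⊢
      rw [Nat.add_sub_cancel]
      rw [Nat.mul_add] at hL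
      omega)
  exact ⟨f, hf⟩

theorem small_radius [Fintype V] (hG : G.Connected) (hc : C4F G) (L : ℕ)
    (hL : L * Fintype.card V ≤ ∑ v, la G univ v) (hr : G.radius.toNat ≤ 2) :
    ∃ f, IP G f (G.radius.toNat + L) := by
  by_cases h : ∃ w, la G univ w < L
  · obtain ⟨w, hw⟩ := h
    obtain ⟨f, hf⟩ := below hG hc L hL w hw
    exact ⟨f, hf.mono (by omega)⟩
  · push Not at h
    refine minl' hG hc fun v => ?_
    obtain ⟨I, -, hI, he⟩ := exists_la (G := G) univ v
    exact ⟨I, hI, he ▸ h v⟩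

theorem floor_le [Fintype V] [Nonempty V] (l : V → ℕ) :
    ⌊(∑ v, (l v : ℝ)) / Fintype.card V⌋₊ * Fintype.card V ≤ ∑ v, l v := by
  have h := Nat.floor_div_eq_div (K := ℝ) (∑ v, l v) (Fintype.card V)
  rw [Nat.cast_sum] at h
  rw [h]
  exact Nat.div_mul_le_self _ _

end Pool.Agent.Lib.MP_0d366e_co
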