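import Pool.Agent.Lib.MP_0d366e_co.End
import Pool.Agent.Lib.MP_0d366e_co.Final
import Pool.Agent.Lib.MP_0d366e_co.Ess

open Finset

namespace Pool.Agent.Lib.MP_0d366e_co

open Classical

variable {V : Type} {G : SimpleGraph V}

/-- End inequality: an induced path extends at its first vertex if the blocks of that vertex are
not used up by the indices in `S`. -/
theorem end_step [Fintype V] (hG : G.Connected) (hc : C4F G) {f : ℕ → V} {k : ℕ} (hf : IP G f k)
    (hk : 2 ≤ k) (S : Finset ℕ) (hS : ∀ i, 3 ≤ i → i < k → G.dist (f 0) (f i) ≤ 2 → i ∈ S)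
    (hl : S.card + 2 ≤ la G univ (f 0)) :
    ∃ x, G.Adj (f 0) x ∧ IP G (cons x f) (k + 1) := by
  obtain ⟨I, -, hI, he⟩ := exists_la (G := G) univ (f 0)
  obtain ⟨T, hT, hcard, hfree⟩ := free2 hG hc hf hk hI S hS
  obtain ⟨x, hx⟩ : T.Nonempty := card_pos.mp (by omega)
  exact ⟨x, hI.1 x (hT hx), hf.ext (hI.1 x (hT hx)) (hfree x hx)⟩

/-- Either every vertex is at least average or some vertex is above the average. -/
theorem high_or_min [Fintype V] {L : ℕ} (hs : L * Fintype.card V ≤ ∑ v, la G univ v) :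
    (∀ v, L ≤ la G univ v) ∨ ∃ z, L + 1 ≤ la G univ z := by
  by_contra hcon
  push Not at hcon
  obtain ⟨⟨w, hw⟩, hall⟩ := hcon
  have : ∑ v, la G univ v < ∑ _v : V, L :=
    sum_lt_sum (fun v _ => by have := hall v; omega) ⟨w, mem_univ _, hw⟩
  rw [sum_const, card_univ, smul_eq_mul, mul_comm] at this
  omega

/-- From a root above the average there is an induced path on `L + 3` vertices. -/
theorem plus_three [Fintype V] (hG : G.Connected) (hc : C4F G) {L : ℕ} (hL : 2 ≤ L)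
    (hs : L * Fintype.card V ≤ ∑ v, la G univ v) {z : V} (hz : L + 1 ≤ la G univ z) :
    ∃ f, IP G f (L + 3) := by
  obtain ⟨f, k, hf, h0, hk⟩ := endLemma hc hG hL hs z
  have h1 : L ≤ k + 1 := hk.trans ((card_filter_le _ _).trans (card_range _).le)
  obtain ⟨x, -, hx⟩ := end_step hG hc (hf.mono (show L + 2 ≤ k + 3 by omega)) (by omega)
    (Ico 3 (L + 2)) (fun i a b _ => mem_Ico.mpr ⟨a, b⟩) (by rw [h0, Nat.card_Ico]; omega)
  exact ⟨_, hx⟩

/-- Everything outside the range `4 ≤ r ≤ L` with a vertex above the average. -/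
theorem reduce [Fintype V] (hG : G.Connected) (hc : C4F G) (L : ℕ)
    (hs : L * Fintype.card V ≤ ∑ v, la G univ v)
    (mid : ∀ r, 4 ≤ r → r ≤ L → (∀ v, ∃ u, r ≤ G.dist v u) → (∃ z, L + 1 ≤ la G univ z) →
      (∃ w, la G univ w < L) → ∃ f, IP G f (r + L)) :
    ∃ f, IP G f (G.radius.toNat + L) := by
  by_cases h2 : G.radius.toNat ≤ 2
  · exact small_radius hG hc L hs h2
  by_cases hL : L < G.radius.toNat
  · obtain ⟨f, hf⟩ := ess hG (by omega)
    exact ⟨f, hf.mono (by omega)⟩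
  by_cases hall : ∀ v, L ≤ la G univ v
  · refine minl' hG hc fun v => ?_
    obtain ⟨I, -, hI, he⟩ := exists_la (G := G) univ v
    exact ⟨I, hI, he ▸ hall v⟩
  obtain ⟨z, hz⟩ := (high_or_min hs).resolve_left hall
  by_cases h3 : G.radius.toNat = 3
  · obtain ⟨f, hf⟩ := plus_three hG hc (by omega) hs hz
    exact ⟨f, hf.mono (by omega)⟩
  push Not at hall
  refine mid _ (by omega) (by omega) (fun v => ?_) ⟨z, hz⟩ hall
  obtain ⟨g, h0, hg⟩ := exists_geo hG v
  exact ⟨g G.radius.toNat, by rw [← h0, hg 0 _ (by omega) le_rfl]; omega⟩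

/-- The frame of the final statement. -/
theorem frame (mid : ∀ (V : Type) [Fintype V] (G : SimpleGraph V), G.Connected → C4F G →
      ∀ L r : ℕ, L * Fintype.card V ≤ ∑ v, la G univ v → 4 ≤ r → r ≤ L →
      (∀ v, ∃ u, r ≤ G.dist v u) → (∃ z, L + 1 ≤ la G univ z) → (∃ w, la G univ w < L) →
      ∃ f, IP G f (r + L))
    (V : Type) [Fintype V] (G : SimpleGraph V) (hG : G.Connected)
    (hC4 : ¬ ∃ a b c d : V, a ≠ c ∧ b ≠ d ∧ G.Adj a b ∧ G.Adj b c ∧ G.Adj c d ∧ G.Adj d a)
    (r : ℕ) (hr : G.radius = r)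
    (l : V → ℕ) (hl : ∀ v, l v = (G.induce (G.neighborSet v)).indepNum)
    (L : ℕ) (hL : L = ⌊(∑ v, (l v : ℝ)) / Fintype.card V⌋₊) :
    Nonempty (SimpleGraph.pathGraph (r + L) ↪g G) := by
  have hc : C4F G := by
    intro a b c d h1 h2 h3 h4
    by_contra hcon
    push Not at hcon
    exact hC4 ⟨a, b, c, d, hcon.1, hcon.2, h1, h2, h3, h4⟩
  have hr' : G.radius.toNat = r := by rw [hr]; rfl
  have : Nonempty V := hG.nonempty
  have hsum : L * Fintype.card V ≤ ∑ v, la G Finset.univ v := by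
    rw [hL]
    exact (floor_le l).trans (Finset.sum_le_sum fun v _ => hl v ▸ indepNum_le_la v)
  obtain ⟨f, hf⟩ := reduce hG hc L hsum
    (fun r a b c d e => mid V G hG hc L r hsum a b c d e)
  exact hf.emb (by omega)

end Pool.Agent.Lib.MP_0d366e_co
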