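import Pool.Agent.Lib.MP_0d366e_co.Pot

open Finset

namespace Pool.Agent.Lib.MP_0d366e_co

open Classical

variable {V : Type} {G : SimpleGraph V}

/-- `g 0, ..., g r` is a shortest path. -/
def Geo (G : SimpleGraph V) (g : ℕ → V) (r : ℕ) : Prop :=
  ∀ i j, i ≤ j → j ≤ r → G.dist (g i) (g j) = j - i

theorem dist_adj {a b : V} (h : G.Adj a b) : G.dist a b = 1 := SimpleGraph.dist_eq_one_iff_adj.mpr h

theorem dist_two (hG : G.Connected) {a x b : V} (h1 : G.Adj a x) (h2 : G.Adj x b) :
    G.dist a b ≤ 2 := by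
  have := hG.dist_triangle (u := a) (v := x) (w := b)
  rw [dist_adj h1, dist_adj h2] at this
  exact this

theorem dist_chain (hG : G.Connected) {f : ℕ → V} {k : ℕ}
    (h : ∀ i, i + 1 < k → G.Adj (f i) (f (i + 1))) (i d : ℕ) (hd : i + d < k) :
    G.dist (f i) (f (i + d)) ≤ d := by
  induction d with
  | zero => simp
  | succ d ih =>
    have a := hG.dist_triangle (u := f i) (v := f (i + d)) (w := f (i + d + 1))
    rw [dist_adj (h (i + d) (by omega))] at a
    have := ih (by omega)
    rw [← add_assoc]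
    omega

theorem IP.dist_le (hG : G.Connected) {f : ℕ → V} {k : ℕ} (h : IP G f k) {i j : ℕ} (hij : i ≤ j)
    (hj : j < k) : G.dist (f i) (f j) ≤ j - i := by
  have := dist_chain hG (f := f) (k := k)
    (fun i hi => (h i (by omega) (i + 1) hi).1.mpr (Or.inl rfl)) i (j - i) (by omega)
  rwa [show i + (j - i) = j by omega] at this

theorem exists_geo [Finite V] (hG : G.Connected) (v : V) :
    ∃ g : ℕ → V, g 0 = v ∧ Geo G g G.radius.toNat := by
  obtain ⟨u, hu⟩ := G.exists_edist_eq_eccent_of_finite v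
  have hr : G.radius.toNat ≤ G.dist v u :=
    ENat.toNat_le_toNat (hu ▸ SimpleGraph.radius_le_eccent)
      (SimpleGraph.edist_ne_top_iff_reachable.mpr (hG v u))
  obtain ⟨p, hp⟩ := hG.exists_walk_length_eq_dist v u
  have hch := dist_chain hG (f := p.getVert) (k := p.length + 1)
    (fun i hi => p.adj_getVert_succ (by omega))
  refine ⟨p.getVert, p.getVert_zero, fun i j hij hj => ?_⟩
  have a1 := hch 0 i (by omega)
  have a2 := hch i (j - i) (by omega)
  have a3 := hch j (p.length - j) (by omega)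
  rw [show i + (j - i) = j by omega] at a2
  rw [show j + (p.length - j) = p.length by omega, p.getVert_length] at a3
  rw [zero_add, p.getVert_zero] at a1
  have t1 := hG.dist_triangle (u := v) (v := p.getVert i) (w := u)
  have t2 := hG.dist_triangle (u := p.getVert i) (v := p.getVert j) (w := u)
  omega

theorem Geo.ip {g : ℕ → V} {r : ℕ} (h : Geo G g r) : IP G g (r + 1) := by
  have key : ∀ i j, i ≤ j → j ≤ r →
      (G.Adj (g i) (g j) ↔ (i + 1 = j ∨ j + 1 = i)) ∧ (g i = g j → i = j) := by
    intro i j hij hj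
    have := h i j hij hj
    refine ⟨?_, fun he => ?_⟩
    · rw [← SimpleGraph.dist_eq_one_iff_adj, this]; omega
    · rw [he, SimpleGraph.dist_self] at this; omega
  intro i hi j hj
  rcases le_total i j with hij | hij
  · exact key i j hij (by omega)
  · obtain ⟨a, b⟩ := key j i hij (by omega)
    exact ⟨(G.adj_comm _ _).trans (a.trans or_comm), fun he => (b he.symm).symm⟩

/-- A vertex is within distance two of at most five vertices of a shortest path. -/
theorem Geo.window (hG : G.Connected) {g : ℕ → V} {r : ℕ} (h : Geo G g r) (y : V) (S : Finset ℕ)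
    (hS : ∀ i ∈ S, i ≤ r ∧ G.dist y (g i) ≤ 2) : S.card ≤ 5 := by
  rcases S.eq_empty_or_nonempty with rfl | hne
  · simp
  · have hm := S.min'_mem hne
    calc S.card ≤ (Icc (S.min' hne) (S.min' hne + 4)).card := card_le_card fun i hi => by
          have a := S.min'_le i hi
          have b := h _ i a (hS i hi).1
          have c := hG.dist_triangle (u := g (S.min' hne)) (v := y) (w := g i)
          have d := (hS _ hm).2
          have e := (hS i hi).2
          rw [SimpleGraph.dist_comm] at d
          rw [mem_Icc]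
          omega
      _ = 5 := by simp; omega

/-- Neighbours of `y` that are adjacent to one of the vertices `g i`, `i ∈ S`. -/
theorem card_hit (hc : C4F G) (y : V) (T : Finset V) (g : ℕ → V) (S : Finset ℕ)
    (hy : ∀ i ∈ S, g i ≠ y) (hT : ∀ x ∈ T, G.Adj y x ∧ ∃ i ∈ S, G.Adj (g i) x) :
    T.card ≤ S.card := by
  choose! h1 φ hφ hφ' using hT
  refine card_le_card_of_injOn φ (fun x hx => hφ x hx) fun x hx z hz he => ?_
  exact hc.uniq (hy _ (hφ x hx)) (hφ' x hx) (h1 x hx) (he ▸ hφ' z hz) (h1 z hz)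

/-- Put the vertices `g 0, g 1, ..., g (s-1)` of an induced path in front of a tail. -/
theorem IP.prepend {g f : ℕ → V} {k : ℕ} (hk : 0 < k) (hf : IP G f k) (s : ℕ) (hg : IP G g (s + 1))
    (h0 : G.Adj (g 0) (f 0))
    (h1 : ∀ i ≤ s, ∀ j < k, g i ≠ f j ∧ (G.Adj (g i) (f j) → i = 0 ∧ j = 0)) :
    ∃ F, IP G F (k + (s + 1)) ∧ ∀ j < k + (s + 1),
      (∃ i ≤ s, j + i = s ∧ F j = g i) ∨ (∃ i < k, j = s + 1 + i ∧ F j = f i) := by
  induction s with
  | zero =>
    refine ⟨MP_0d366e_co.cons (g 0) f, hf.cons h0 (fun i a b ha => ?_) (fun i hi => (h1 0 le_rfl i hi).1), ?_⟩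
    · have := ((h1 0 le_rfl i b).2 ha).2; omega
    · intro j hj
      rcases j with _ | j
      · exact Or.inl ⟨0, le_rfl, rfl, rfl⟩
      · exact Or.inr ⟨j, by omega, by omega, rfl⟩
  | succ s ih =>
    obtain ⟨F, hF, hd⟩ := ih (hg.mono (by omega)) (fun i hi => h1 i (by omega))
    refine ⟨MP_0d366e_co.cons (g (s + 1)) F, hF.cons ?_ (fun j a b ha => ?_) (fun j hj he => ?_), ?_⟩
    · rcases hd 0 (by omega) with ⟨i, a, b, c⟩ | ⟨i, a, b, c⟩
      · rw [c]
        exact (hg _ (by omega) i (by omega)).1.mpr (by omega)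
      · omega
    · rcases hd j b with ⟨i, a', b', c⟩ | ⟨i, a', b', c⟩
      · rw [c] at ha
        have := (hg _ (by omega) i (by omega)).1.mp ha
        omega
      · rw [c] at ha
        have := ((h1 _ le_rfl i a').2 ha).1
        omega
    · rcases hd j hj with ⟨i, a', b', c⟩ | ⟨i, a', b', c⟩
      · rw [c] at he
        have := (hg _ (by omega) i (by omega)).2 he
        omega
      · rw [c] at he
        exact (h1 _ le_rfl i a').1 he
    · intro j hj
      rcases j with _ | j
      · exact Or.inl ⟨s + 1, le_rfl, by omega, rfl⟩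
      · rcases hd j (by omega) with ⟨i, a, b, c⟩ | ⟨i, a, b, c⟩
        · exact Or.inl ⟨i, by omega, by omega, c⟩
        · exact Or.inr ⟨i, a, by omega, c⟩

end Pool.Agent.Lib.MP_0d366e_co
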