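import Pool.Agent.Lib.MP_0d366e_co.Bfs
import Pool.Agent.Lib.MP_4953ed_an.Ramsey

open Finset

namespace Pool.Agent.Lib.MP_0d366e_co

open Classical

/-- A shortest path from `b` down to `a` inside the interval. -/
theorem piece {G : SimpleGraph ℕ} (hs : ∀ i, G.Adj i (i + 1)) {k : ℕ} (hk : ¬ ∃ f, IP G f k)
    (a b : ℕ) : ∃ p : ℕ → ℕ, a ≤ b → p 0 = b ∧ p k = a ∧ (∀ i, a ≤ p i ∧ p i ≤ b) ∧
      ∀ i, p (i + 1) = p i ∨ G.Adj (p i) (p (i + 1)) := by
  by_cases hab : a ≤ b
  swap
  · exact ⟨id, fun h => (hab h).elim⟩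
  obtain ⟨U, lv, par, h⟩ := exists_bfs (G := G) (Icc a b) (ρ := a) (mem_Icc.mpr ⟨le_rfl, hab⟩)
  have hU : ∀ d, a + d ≤ b → a + d ∈ U := by
    intro d
    induction d with
    | zero => exact fun _ => h.root
    | succ d ih =>
      intro hd
      exact h.cl _ (ih (by omega)) _ (mem_Icc.mpr ⟨by omega, hd⟩) (hs _)
  have hb : b ∈ U := by
    have := hU (b - a) (by omega)
    rwa [show a + (b - a) = b by omega] at this
  have hl : lv b < k := by
    by_contra hc
    exact hk ⟨_, (h.ip hb).mono (by omega)⟩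
  refine ⟨fun i => par^[i] b, fun _ => ⟨rfl, ?_, fun i => mem_Icc.mp (h.sub (h.iter hb i).1),
    fun i => ?_⟩⟩
  · exact h.eq_root (h.iter hb k).1 (by rw [(h.iter hb k).2]; omega)
  · by_cases hi : i < lv b
    · exact Or.inr (h.adj hb hi)
    · left
      have e1 := h.eq_root (h.iter hb i).1 (by rw [(h.iter hb i).2]; omega)
      have e2 := h.eq_root (h.iter hb (i + 1)).1 (by rw [(h.iter hb (i + 1)).2]; omega)
      exact e2.trans e1.symm

open Pool.Agent.Lib.MP_4953ed_an in
/-- An infinite path in a graph without four-cycles spans long induced paths. -/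
theorem grs_inf {G : SimpleGraph ℕ} (hs : ∀ i, G.Adj i (i + 1)) (hc : C4F G) (k : ℕ) :
    ∃ f, IP G f k := by
  by_contra hk
  choose p hp using piece hs hk
  obtain ⟨S, -, hS, col, hcol⟩ := ramsey (κ := Fin (k + 1) → Fin (k + 1) → Prop) 4
    (fun y s t => G.Adj (p (y 0) (y 1) s) (p (y 2) (y 3) t))
    (fun y y' h => by
      simp only [h 0 (by omega), h 1 (by omega), h 2 (by omega), h 3 (by omega)])
    Set.univ Set.infinite_univ
  set e := Nat.nth (· ∈ S) with he
  have hm : StrictMono e := Nat.nth_strictMono hS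
  have hom : ∀ a b c d, a < b → b < c → c < d → ∀ s t : Fin (k + 1),
      G.Adj (p (e a) (e b) s) (p (e c) (e d) t) ↔ col s t := by
    intro a b c d h1 h2 h3 s t
    have := hcol (fun n => e (if n = 0 then a else if n = 1 then b else if n = 2 then c
      else d + (n - 3))) ⟨fun i j hij => hm (by split_ifs <;> omega),
        fun n => Nat.nth_mem_of_infinite hS _⟩
    rw [← this]
    simp
  have hb : ∀ a b, a < b → ∀ i, e a ≤ p (e a) (e b) i ∧ p (e a) (e b) i ≤ e b :=
    fun a b h => (hp _ _ (hm h).le).2.2.1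
  have hno : ∀ s t, ¬ col s t := by
    intro s t hst
    have a1 := (hom 0 1 4 5 (by omega) (by omega) (by omega) s t).mpr hst
    have a2 := (hom 0 1 6 7 (by omega) (by omega) (by omega) s t).mpr hst
    have a3 := (hom 2 3 4 5 (by omega) (by omega) (by omega) s t).mpr hst
    have a4 := (hom 2 3 6 7 (by omega) (by omega) (by omega) s t).mpr hst
    have b1 := hb 0 1 (by omega) s
    have b2 := hb 2 3 (by omega) s
    have b3 := hb 4 5 (by omega) t
    have b4 := hb 6 7 (by omega) t
    have c1 := hm (show 1 < 2 by omega)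
    have c2 := hm (show 5 < 6 by omega)
    rcases hc _ _ _ _ a1 a3.symm a4 a2.symm with h | h <;> omega
  set P : ℕ → ℕ → ℕ := fun i s => p (e i) (e (i + 1)) s with hP
  set T : Finset ℕ := (range (k + 1) ×ˢ range (k + 1)).image (fun x => P x.1 x.2) with hT
  have hmem : ∀ i ≤ k, ∀ s ≤ k, P i s ∈ T := fun i hi s hs' =>
    mem_image.mpr ⟨(i, s), by simp; omega, rfl⟩
  have hidx : ∀ v, ∃ i, v ∈ T → i ≤ k ∧ ∃ s ≤ k, v = P i s := by
    intro v
    by_cases h : v ∈ T
    · obtain ⟨⟨i, s⟩, hx, rfl⟩ := mem_image.mp h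
      simp only [mem_product, mem_range] at hx
      exact ⟨i, fun _ => ⟨by omega, s, by omega, rfl⟩⟩
    · exact ⟨0, fun h' => (h h').elim⟩
  choose idx hidx using hidx
  have e0 : ∀ i, P i k = e i := fun i => (hp _ _ (hm (Nat.lt_succ_self i)).le).2.1
  have e1 : ∀ i, P i 0 = e (i + 1) := fun i => (hp _ _ (hm (Nat.lt_succ_self i)).le).1
  obtain ⟨U, lv, par, h⟩ := exists_bfs (G := G) T (ρ := e 0) (e0 0 ▸ hmem 0 (by omega) k le_rfl)
  have hU : ∀ i ≤ k + 1, e i ∈ U := by
    intro i
    induction i with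
    | zero => exact fun _ => h.root
    | succ i ih =>
      intro hi
      have : ∀ d ≤ k, P i (k - d) ∈ U := by
        intro d
        induction d with
        | zero => exact fun _ => (e0 i).symm ▸ ih (by omega)
        | succ d ihd =>
          intro hd
          have a := ihd (by omega)
          rw [show k - d = k - (d + 1) + 1 by omega] at a
          rcases (hp _ _ (hm (Nat.lt_succ_self i)).le).2.2.2 (k - (d + 1)) with b | b
          · exact (show P i (k - (d + 1) + 1) = P i (k - (d + 1)) from b) ▸ a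
          · exact h.cl _ a _ (hmem i (by omega) _ (by omega)) b.symm
      have := this k le_rfl
      rwa [Nat.sub_self, e1] at this
  have hlip := (h.lipschitz idx (fun x hx y hy ha => by
    obtain ⟨-, s, hs', ex⟩ := hidx x hx
    obtain ⟨-, t, ht', ey⟩ := hidx y hy
    by_contra hlt
    refine hno ⟨s, by omega⟩ ⟨t, by omega⟩ ((hom (idx x) (idx x + 1) (idx y) (idx y + 1)
      (by omega) (by omega) (by omega) _ _).mp ?_)
    rw [ex, ey] at ha
    exact ha) (hU (k + 1) le_rfl)).1
  have i0 : idx (e 0) = 0 := by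
    obtain ⟨-, s, -, ex⟩ := hidx _ (h.sub h.root)
    have a := (hb _ _ (Nat.lt_succ_self (idx (e 0))) s).1
    have : e (idx (e 0)) ≤ e 0 := a.trans ex.ge
    have := hm.le_iff_le.mp this
    omega
  have i1 : idx (e (k + 1)) = k := by
    obtain ⟨b, s, -, ex⟩ := hidx _ (h.sub (hU (k + 1) le_rfl))
    have a := (hb _ _ (Nat.lt_succ_self (idx (e (k + 1)))) s).2
    have : e (k + 1) ≤ e (idx (e (k + 1)) + 1) := ex.le.trans a
    have := hm.le_iff_le.mp this
    omega
  exact hk ⟨_, (h.ip (hU (k + 1) le_rfl)).mono (by omega)⟩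

/-- `g 0, ..., g (n-1)` is a path, not necessarily induced. -/
def Pth {V : Type} (G : SimpleGraph V) (g : ℕ → V) (n : ℕ) : Prop :=
  (∀ i, i + 1 < n → G.Adj (g i) (g (i + 1))) ∧ ∀ i < n, ∀ j < n, g i = g j → i = j

/-- Without four-cycles, a long path forces a long induced path. -/
theorem grs (k : ℕ) : ∃ n, ∀ (V : Type) (G : SimpleGraph V), C4F G →
    (∃ g, Pth G g n) → ∃ f, IP G f k := by
  by_contra hcon
  push Not at hcon
  choose W H hc hg hk using hcon
  choose g hg using hg
  let 𝒰 := Filter.hyperfilter ℕ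
  have big : ∀ m : ℕ, ∀ᶠ n in (𝒰 : Filter ℕ), m < n := fun m =>
    Filter.hyperfilter_le_cofinite (by
      rw [Nat.cofinite_eq_atTop]
      exact Filter.eventually_gt_atTop m)
  let Γ : SimpleGraph ℕ :=
    { Adj := fun i j => ∀ᶠ n in (𝒰 : Filter ℕ), (H n).Adj (g n i) (g n j)
      symm := ⟨fun i j h => h.mono fun n hn => hn.symm⟩
      loopless := ⟨fun i h => by
        obtain ⟨n, hn⟩ := h.exists
        exact (H n).irrefl hn⟩ }
  obtain ⟨f, hf⟩ := grs_inf (G := Γ) (fun i => (big (i + 1)).mono fun n hn => (hg n).1 i hn)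
    (fun a b c d h1 h2 h3 h4 => by
      obtain ⟨n, ⟨x1, x2, x3, x4⟩, y1, y2, y3, y4⟩ := ((h1.and (h2.and (h3.and h4))).and
        ((big a).and ((big b).and ((big c).and (big d))))).exists
      exact (hc n _ _ _ _ x1 x2 x3 x4).imp ((hg n).2 a y1 c y3) ((hg n).2 b y2 d y4)) k
  have : ∀ᶠ n in (𝒰 : Filter ℕ), ∀ i ∈ range k, ∀ j ∈ range k, f i < n ∧ f j < n ∧
      ((H n).Adj (g n (f i)) (g n (f j)) ↔ Γ.Adj (f i) (f j)) := by
    refine (Filter.eventually_all_finset _).mpr fun i _ =>
      (Filter.eventually_all_finset _).mpr fun j _ => (big _).and ((big _).and ?_)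
    by_cases h : Γ.Adj (f i) (f j)
    · exact Filter.Eventually.mono h fun n hn => iff_of_true hn h
    · exact (Ultrafilter.eventually_not.mpr h).mono fun n hn => iff_of_false hn h
  obtain ⟨n, hn⟩ := this.exists
  refine hk n (fun i => g n (f i)) fun i hi j hj => ?_
  obtain ⟨a, b, c⟩ := hn i (mem_range.mpr hi) j (mem_range.mpr hj)
  exact ⟨c.trans (hf i hi j hj).1, fun he => (hf i hi j hj).2 ((hg n).2 _ a _ b he)⟩

end Pool.Agent.Lib.MP_0d366e_co
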