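import Pool.Agent.Lib.MP_0d366e_co.Sparse

open Finset

namespace Pool.Agent.Lib.MP_0d366e_co

open Classical

variable {V : Type} {G : SimpleGraph V}

/-- How often a vertex occurs among the first 31 iterates of `par`. -/
noncomputable def load (K : Finset V) (par : V → V) (c : V) : ℕ :=
  ∑ i ∈ range 31, (K.filter (fun x => par^[i] x = c)).card

theorem load_sum (K : Finset V) (par : V → V) (h : ∀ x ∈ K, ∀ i, par^[i] x ∈ K) :
    ∑ c ∈ K, load K par c = 31 * K.card := by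
  unfold load
  rw [sum_comm, sum_congr rfl (g := fun _ => K.card)]
  · simp
  · intro i _
    exact (card_eq_sum_card_fiberwise (f := fun x => par^[i] x) (fun x hx => h x hx i)).symm

theorem load_hit (K Z : Finset V) (par : V → V) :
    (K.filter (fun x => ∃ i ∈ range 31, par^[i] x ∈ Z)).card ≤ ∑ c ∈ Z, load K par c := by
  unfold load
  refine le_trans (card_le_card (t := Z.biUnion fun c => (range 31).biUnion fun i =>
    K.filter (fun x => par^[i] x = c)) fun x hx => ?_)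
    (card_biUnion_le.trans (sum_le_sum fun c _ => card_biUnion_le))
  obtain ⟨a, i, b, c⟩ := mem_filter.mp hx
  exact mem_biUnion.mpr ⟨_, c, mem_biUnion.mpr ⟨i, b, mem_filter.mpr ⟨a, rfl⟩⟩⟩

/-- A set of small total degree outside which neighbourhoods carry little degree and load. -/
theorem exists_W (hc : C4F G) (K : Finset V) {δ : ℕ} (hδ : ∀ v ∈ K, δ + 1 ≤ dg G K v)
    (h0 : 100000 ≤ δ) (hs : ∑ v ∈ K, dg G K v ≤ 6 * δ * K.card)
    (hN : (1000000 * δ) ^ 2 ≤ K.card) (h : V → ℕ) (hh : ∑ c ∈ K, h c ≤ 31 * K.card) {ρ : V}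
    (hρ : ρ ∈ K) : ∃ W ⊆ K, ρ ∈ W ∧ ∑ v ∈ W, dg G K v ≤ 70000000 * K.card ∧ ∀ v ∈ K \ W,
      32 * ∑ y ∈ K.filter (G.Adj v), dg G K y ≤ K.card ∧
      32 * ∑ y ∈ K.filter (G.Adj v), h y ≤ K.card := by
  set N := K.card with hNd
  have hpos : 0 < N := card_pos.mpr ⟨ρ, hρ⟩
  set h' : V → ℕ := fun c => if 1048576 * h c ≤ N then h c else 0 with hh'
  have a1 : ∀ c, h' c ≤ h c := fun c => by simp only [hh']; split_ifs <;> omega
  have a2 : ∀ c, 1048576 * h' c ≤ N := fun c => by simp only [hh']; split_ifs <;> omega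
  have a3 : 1048576 * ∑ c ∈ K, h' c ^ 2 ≤ N * ∑ c ∈ K, h c := by
    rw [mul_sum, mul_sum]
    refine sum_le_sum fun c _ => ?_
    rw [sq, ← mul_assoc]
    exact Nat.mul_le_mul (a2 c) (a1 c)
  have a4 := sq_small hc K hδ h0 hs hN
  have a5 : ∑ c ∈ K, (dg G K c + h' c) ^ 2 ≤
      2 * ∑ c ∈ K, dg G K c ^ 2 + 2 * ∑ c ∈ K, h' c ^ 2 := by
    rw [mul_sum, mul_sum, ← sum_add_distrib]
    refine sum_le_sum fun c _ => ?_
    nlinarith [sq_nonneg ((dg G K c : ℤ) - h' c)]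
  have a6 : 4096 * ∑ c ∈ K, (dg G K c + h' c) ^ 2 ≤ N ^ 2 := by
    have := Nat.mul_le_mul_left N hh
    rw [← hNd] at a4
    nlinarith
  set S := K.filter (fun v => N ≤ 32 * ∑ y ∈ K.filter (G.Adj v), (dg G K y + h' y)) with hS
  have b1 := few_big hc K S (fun c => dg G K c + h' c) N a6 (fun v hv => (mem_filter.mp hv).2)
  have b2 : ∑ c ∈ K, h' c ≤ ∑ c ∈ K, h c := sum_le_sum fun c _ => a1 c
  rw [sum_add_distrib] at b1
  have b3 : S.card ≤ 400 * δ := by
    refine Nat.le_of_mul_le_mul_left ?_ hpos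
    have := Nat.mul_le_mul_right N h0
    nlinarith
  have b4 : δ * ∑ v ∈ S, dg G K v ≤ S.card * N := by
    rw [mul_sum, ← smul_eq_mul, ← sum_const]
    exact sum_le_sum fun d _ => maxdeg hc K hδ d
  have b5 : ∑ v ∈ S, dg G K v ≤ 400 * N := by
    refine Nat.le_of_mul_le_mul_left ?_ (show 0 < δ by omega)
    have := Nat.mul_le_mul_right N b3
    nlinarith
  set H := K.filter (fun c => N < 1048576 * h c) with hH
  have c1 : H.card * N ≤ 1048576 * ∑ c ∈ K, h c := by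
    rw [← smul_eq_mul, ← sum_const, mul_sum]
    exact (sum_le_sum fun c hc' => (mem_filter.mp hc').2.le).trans
      (sum_le_sum_of_subset (filter_subset _ _))
  have c2 : H.card ≤ 31 * 1048576 := by
    refine Nat.le_of_mul_le_mul_right ?_ hpos
    nlinarith
  set NH := K.filter (fun v => ∃ c ∈ H, G.Adj c v) with hNH
  have c3 : ∑ v ∈ NH, dg G K v ≤ H.card * (2 * N) := by
    refine (nb_weight H K _).trans ?_
    rw [← smul_eq_mul, ← sum_const]
    refine sum_le_sum fun c _ => (sum_nb_le hc K K c).trans ?_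
    have := dg_le_card (G := G) K c
    omega
  have c4 := Nat.mul_le_mul_right (2 * N) c2
  refine ⟨{ρ} ∪ (S ∪ NH), union_subset (by simpa using hρ)
    (union_subset (filter_subset _ _) (filter_subset _ _)), by simp, ?_, fun v hv => ?_⟩
  · have d1 := sum_union_inter (s₁ := {ρ}) (s₂ := S ∪ NH) (f := dg G K)
    have d2 := sum_union_inter (s₁ := S) (s₂ := NH) (f := dg G K)
    have d3 := dg_le_card (G := G) K ρ
    rw [sum_singleton] at d1
    omega
  · obtain ⟨v1, v2⟩ := mem_sdiff.mp hv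
    simp only [mem_union, not_or] at v2
    have d1 : 32 * ∑ y ∈ K.filter (G.Adj v), (dg G K y + h' y) < N := by
      by_contra hn
      exact v2.2.1 (mem_filter.mpr ⟨v1, by omega⟩)
    have d2 : ∑ y ∈ K.filter (G.Adj v), h' y = ∑ y ∈ K.filter (G.Adj v), h y := by
      refine sum_congr rfl fun y hy => if_pos ?_
      obtain ⟨y1, y2⟩ := mem_filter.mp hy
      by_contra hn
      exact v2.2.2 (mem_filter.mpr ⟨v1, y, mem_filter.mpr ⟨y1, by omega⟩, y2.symm⟩)
    rw [sum_add_distrib, d2] at d1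
    omega

theorem sparse (hc : C4F G) {B K : Finset V} (hd : Disjoint B K)
    (hu : ∀ v ∈ K, ∀ w ∈ B, ∀ w' ∈ B, G.Adj w v → G.Adj w' v → w = w') (hirr : Irr G K)
    {δ : ℕ} (hδ : ∀ v ∈ K, δ + 1 ≤ dg G K v) (h0 : 10000000000 ≤ δ)
    (hs : ∑ v ∈ K, dg G K v ≤ 6 * δ * K.card) (hN : (1000000 * δ) ^ 2 ≤ K.card)
    (hcov : K.card ≤ 4 * (K.filter (fun v => ∃ c ∈ B, G.Adj c v)).card) : Out G B K := by
  by_contra hno
  have hpos : 0 < K.card := lt_of_lt_of_le (by positivity) hN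
  obtain ⟨ρ, hρ⟩ := card_pos.mp hpos
  obtain ⟨U, lv, par, h⟩ := exists_bfs (G := G) K hρ
  have hUK : U = K := hirr U ⟨h.sub, h.cl⟩ ⟨ρ, h.root⟩
  subst hUK
  have hlv := shallow hc hd hu hirr hδ (by omega) hcov hno h
  have hl := (load_sum U par fun x hx i => (h.iter hx i).1).le
  obtain ⟨W, w1, w2, w3, w4⟩ := exists_W hc U hδ (by omega) hs hN (load U par) hl hρ
  set N := U.card with hNd
  set Bb := B.filter (fun d => N < 32 * ∑ y ∈ U.filter (G.Adj d), load U par y) with hBb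
  have a1 : Bb.card * N ≤ 32 * ∑ y ∈ U, load U par y := by
    have e1 : ∑ d ∈ Bb, N ≤ ∑ d ∈ Bb, 32 * ∑ y ∈ U.filter (G.Adj d), load U par y :=
      sum_le_sum fun d hd' => (mem_filter.mp hd').2.le
    rw [sum_const, smul_eq_mul, ← mul_sum, sum_nb] at e1
    refine e1.trans (Nat.mul_le_mul_left _ (sum_le_sum fun y hy => ?_))
    have : dg G Bb y ≤ 1 := card_le_one.mpr fun a ha b hb =>
      hu y hy a (mem_filter.mp (mem_filter.mp ha).1).1 b (mem_filter.mp (mem_filter.mp hb).1).1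
        (mem_filter.mp ha).2.symm (mem_filter.mp hb).2.symm
    nlinarith
  have a2 : Bb.card ≤ 1000 := by
    refine Nat.le_of_mul_le_mul_right ?_ hpos
    omega
  set NB := U.filter (fun v => ∃ c ∈ Bb, G.Adj c v) with hNB
  have a3 : ∑ v ∈ NB, dg G U v ≤ Bb.card * (2 * N) := by
    refine (nb_weight Bb U _).trans ?_
    rw [← smul_eq_mul, ← sum_const]
    refine sum_le_sum fun c _ => (sum_nb_le hc U U c).trans ?_
    have := dg_le_card (G := G) U c
    omega
  have a4 := Nat.mul_le_mul_right (2 * N) a2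
  set C := U.filter (fun v => ∃ c ∈ B, G.Adj c v) with hC
  have a5 : C.card * δ ≤ ∑ v ∈ C \ (W ∪ NB), dg G U v + ∑ v ∈ W ∪ NB, dg G U v := by
    rw [← sum_union sdiff_disjoint, ← smul_eq_mul, ← sum_const]
    refine (sum_le_sum fun v hv => ?_).trans (sum_le_sum_of_subset (t := C \ (W ∪ NB) ∪ (W ∪ NB))
      (by rw [sdiff_union_self_eq_union]; exact subset_union_left))
    have := hδ v (mem_filter.mp hv).1
    omega
  have a6 := sum_union_inter (s₁ := W) (s₂ := NB) (f := dg G U)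
  obtain ⟨T, t0, t1, t2, t3⟩ := peel (G := G) U W (C \ (W ∪ NB)) w1
    (sdiff_subset_sdiff (filter_subset _ _) subset_union_left) 135
  obtain ⟨x, hx⟩ : (T 15).Nonempty := by
    rw [nonempty_iff_ne_empty]
    intro he
    have e1 := t3 15
    rw [he, sum_empty] at e1
    have e2 := Nat.mul_le_mul_right δ hcov
    have e3 := Nat.mul_le_mul_left N h0
    rw [mul_assoc] at e2
    omega
  obtain ⟨x1, x2⟩ := mem_sdiff.mp (t1 15 hx)
  obtain ⟨p1, p2, p3⟩ := h.step x x1 (fun he => x2 (he ▸ w2))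
  set O := (Icc 1 30).image (fun i => par^[i] x) with hO
  obtain ⟨f, f1, f2, f3, f4, f5⟩ := walk hc hd hu T (fun j => (t1 j).trans sdiff_subset) 135 t2 15
    O x (fun c hc' => by
      obtain ⟨i, -, rfl⟩ := mem_image.mp hc'
      exact (h.iter x1 i).1) hx
    (fun hc' => by
      obtain ⟨i, i1, i2⟩ := mem_image.mp hc'
      have e1 := (h.iter x1 i).2
      have e2 := (mem_Icc.mp i1).1
      rw [i2] at e1
      omega)
    (by
      have : O.card ≤ 30 := card_image_le.trans (by simp)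
      omega) (fun h => by omega)
  have g1 := f3 15 le_rfl
  rw [Nat.sub_self, t0] at g1
  obtain ⟨g2, g3⟩ := mem_sdiff.mp g1
  obtain ⟨g4, d, d1, d2⟩ := mem_filter.mp g2
  have d3 : 32 * ∑ y ∈ U.filter (G.Adj d), load U par y ≤ N := by
    by_contra hn
    exact g3 (mem_union_right _ (mem_filter.mpr ⟨g4, d, mem_filter.mpr ⟨d1, by omega⟩, d2⟩))
  obtain ⟨d4, d5⟩ := f5 d d1 d2
  have hfW : ∀ i ≤ 15, f i ∈ U \ W := fun i hi => t1 _ (f3 i hi)
  set P := (Icc 1 15).image f with hP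
  have hPc : P.card ≤ 15 := card_image_le.trans (by simp)
  have hPW : ∀ c ∈ P, c ∈ U \ W := fun c hc' => by
    obtain ⟨i, i1, rfl⟩ := mem_image.mp hc'
    exact hfW i (mem_Icc.mp i1).2
  set NP := U.filter (fun v => ∃ c ∈ P, G.Adj c v) with hNP
  set D := U \ (U.filter (G.Adj d) ∪ NP) with hD
  have hDn : ∀ y, y ∈ D ↔ y ∈ U ∧ ¬ G.Adj d y ∧ ∀ i, 1 ≤ i → i ≤ 15 → ¬ G.Adj (f i) y := by
    intro y
    simp only [hD, hNP, hP, mem_sdiff, mem_union, mem_filter, mem_image, mem_Icc, not_or]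
    constructor
    · rintro ⟨a, b, c⟩
      exact ⟨a, fun e => b ⟨a, e⟩, fun i i1 i2 e => c ⟨a, _, ⟨i, ⟨i1, i2⟩, rfl⟩, e⟩⟩
    · rintro ⟨a, b, c⟩
      refine ⟨a, fun e => b e.2, ?_⟩
      rintro ⟨-, _, ⟨i, ⟨i1, i2⟩, rfl⟩, e⟩
      exact c i i1 i2 e
  obtain ⟨R, r1, r2, r3⟩ := exists_att (G := G) {x} D
  have hOD : ∀ i, 1 ≤ i → i ≤ 30 → par^[i] x ∈ D := fun i i1 i2 => by
    have : par^[i] x ∈ O := mem_image.mpr ⟨i, mem_Icc.mpr ⟨i1, i2⟩, rfl⟩
    exact (hDn _).mpr ⟨(h.iter x1 i).1, d4 _ this, fun j j1 j2 => (f4 j j1 j2).2 _ this⟩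
  have s1 : par x ∈ R := r3 _ (hOD 1 le_rfl (by omega)) ⟨x, mem_singleton_self x, p2⟩
  have s2 : ρ ∈ R := by
    refine (h.chain r1.2 p1 fun i hi => ?_).mp s1
    rw [← Function.iterate_succ_apply]
    have := hlv x x1
    exact hOD _ (by omega) (by omega)
  have s3 : U \ R ⊆ U.filter (fun x => ∃ i ∈ range 31, par^[i] x ∈ U.filter (G.Adj d) ∪ NP) := by
    intro y hy
    obtain ⟨y1, y2⟩ := mem_sdiff.mp hy
    refine mem_filter.mpr ⟨y1, ?_⟩
    by_contra hn
    push Not at hn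
    have := hlv y y1
    exact y2 ((h.chain r1.2 y1 fun i hi => mem_sdiff.mpr ⟨(h.iter y1 i).1,
      hn i (mem_range.mpr (by omega))⟩).mpr s2)
  have s4 := (card_le_card s3).trans (load_hit U _ par)
  have s5 := sum_union_inter (s₁ := U.filter (G.Adj d)) (s₂ := NP) (f := load U par)
  have s6 : ∀ g : V → ℕ, (∀ v ∈ U \ W, 32 * ∑ y ∈ U.filter (G.Adj v), g y ≤ N) →
      32 * ∑ y ∈ NP, g y ≤ 15 * N := by
    intro g hg
    refine (Nat.mul_le_mul_left 32 (nb_weight P U g)).trans ?_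
    rw [mul_sum]
    refine (sum_le_sum fun c hc' => hg c (hPW c hc')).trans ?_
    rw [sum_const, smul_eq_mul]
    exact Nat.mul_le_mul_right _ hPc
  have s7 := s6 _ fun v hv => (w4 v hv).2
  have s8 := s6 _ fun v hv => (w4 v hv).1
  have hRU : R ⊆ U := r1.1.trans sdiff_subset
  have s9 := card_sdiff_add_card_eq_card hRU
  have hRn := fun y (hy : y ∈ R) => ((hDn y).mp (r1.1 hy)).2
  refine hno ⟨x, R, ⟨ρ, s2⟩, hRU, fun hx' => path_ne f1 d2 (hRn x hx') (Nat.zero_le _) f2, r2,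
    fun m hm he => Ext.glue hd f1 (fun i hi => (mem_sdiff.mp (hfW i hi)).1) d1 d2 d5 hRU hRn hm
      (f2 ▸ he), ?_⟩
  have u1 : ∑ y ∈ R, dg G (U \ R) y ≤ ∑ y ∈ R, (1 + dg G NP y) := by
    refine sum_le_sum fun y hy => ?_
    refine (dg_le_of (T := U.filter (G.Adj d)) (U := NP) fun c hc' ha => ?_).trans
      (Nat.add_le_add_right (dg_nb_le_one hc U fun he : d = y => disjoint_left.mp hd d1 (he ▸ hRU hy)) _)
    obtain ⟨c1, c2⟩ := mem_sdiff.mp hc'
    rw [← mem_union]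
    by_contra hn
    exact c2 (r1.2 y hy c (mem_sdiff.mpr ⟨c1, hn⟩) ha)
  rw [sum_add_distrib, sum_const, smul_eq_mul, sum_dg_comm R NP] at u1
  have u2 : ∑ y ∈ NP, dg G R y ≤ ∑ y ∈ NP, dg G U y := sum_le_sum fun y _ => dg_mono hRU y
  omega

end Pool.Agent.Lib.MP_0d366e_co
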