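import Pool.Agent.Lib.MP_0d366e_co.Opt
import Pool.Agent.Lib.MP_0d366e_co.SparseMain
import Pool.Agent.Lib.MP_0d366e_co.Chain

open Finset

namespace Pool.Agent.Lib.MP_0d366e_co

open Classical

variable {V : Type} {G : SimpleGraph V}

/-- Every state of average at least `φ ≥ φ0` extends to a path with `φ + σ` vertices. -/
def Gain (G : SimpleGraph V) (σ φ0 : ℝ) : Prop :=
  ∀ (A D : Finset V) (n : ℕ) (φ : ℝ), Val G A D → D.Nonempty → φ0 ≤ φ →
    φ * D.card ≤ (∑ v ∈ D, la G (A ∪ D) v : ℕ) → (n : ℝ) ≤ φ + σ → Ext G A D n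

theorem gain_one (hc : C4F G) : Gain G 1 1 := by
  intro A D n φ hv hne h0 hs hn
  have h1 : ((n - 2 : ℕ) : ℝ) < φ := by
    rcases Nat.lt_or_ge n 2 with a | a
    · rw [show n - 2 = 0 by omega]; push_cast; linarith
    · rw [Nat.cast_sub a]; push_cast; linarith
  have h2 : (((n - 2) * D.card : ℕ) : ℝ) < (∑ v ∈ D, la G (A ∪ D) v : ℕ) := by
    rw [Nat.cast_mul]
    exact lt_of_lt_of_le (mul_lt_mul_of_pos_right h1 (by exact_mod_cast hne.card_pos)) hs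
  exact Ext.mono (pot hc (n - 2) A D hv.1 hv.2.1 hv.2.2 (by exact_mod_cast h2)) Subset.rfl
    Subset.rfl (by omega)

theorem Gain.ns {σ φ0 : ℝ} (h : Gain G σ φ0) {A D : Finset V} {n : ℕ} {φ : ℝ} (hv : Val G A D)
    (hne : D.Nonempty) (h0 : φ0 ≤ φ) (hs : φ * D.card ≤ (∑ v ∈ D, la G (A ∪ D) v : ℕ))
    (hn : ¬ Ext G A D n) : φ + σ < n :=
  lt_of_not_ge fun h' => hn (h A D n φ hv hne h0 hs h')

/-- A losing state whose second part is a connected maximiser of nearly critical average. -/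
def Good (G : SimpleGraph V) (σ : ℝ) (n : ℕ) (A H : Finset V) : Prop :=
  Disjoint A H ∧ (∀ v ∈ H, ∀ w ∈ A, ∀ w' ∈ A, G.Adj w v → G.Adj w' v → w = w') ∧ Irr G H ∧
    (∃ x ∈ H, ∃ a ∈ A, G.Adj a x) ∧ ¬ Ext G A H n ∧ ∃ ψ : ℝ, n - σ - 1 / 2 ≤ ψ ∧
    ψ * H.card ≤ (∑ v ∈ H, la G (A ∪ H) v : ℕ) ∧
    ∀ R ⊆ H, ((∑ v ∈ R, la G (A ∪ R) v : ℕ) : ℝ) ≤ ψ * R.card

theorem optimise (hc : C4F G) {σ φ0 : ℝ} (h : Gain G σ φ0) {A D : Finset V} {n : ℕ}
    (hv : Val G A D) (hne : D.Nonempty) (hn : ¬ Ext G A D n) (h0 : φ0 ≤ n - σ - 1 / 2)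
    (h1 : 1 ≤ n) (hs : (n - σ - 1 / 2) * D.card ≤ (∑ v ∈ D, la G (A ∪ D) v : ℕ)) :
    ∃ H ⊆ D, Good G σ n A H := by
  obtain ⟨H, a1, a2, a3, ψ, a4, a5⟩ := exists_max (G := G) A D hne
  have a6 : n - σ - 1 / 2 ≤ ψ :=
    le_of_mul_le_mul_right (hs.trans (a5 D Subset.rfl)) (by exact_mod_cast hne.card_pos)
  have hat : ∃ x ∈ H, ∃ a ∈ A, G.Adj a x := by
    by_contra hat
    obtain ⟨z, z1, ⟨x, x1, x2⟩, z3⟩ := (detour hc a3 a2 _ A D le_rfl hv a1).resolve_left hat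
    have b1 : ∑ v ∈ H, la G (A ∪ H) v ≤ ∑ v ∈ H, la G ({z} ∪ H) v :=
      sum_le_sum fun v hv' => la_le_of' fun y hy ha => mem_union_right _
        ((mem_union.mp hy).resolve_left fun hA => hat ⟨v, hv', y, hA, ha.symm⟩)
    have b2 := h.ns (A := {z}) (D := H) (n := n - 1) (φ := ψ) ⟨by simpa using z1,
      fun v _ a ha b hb _ _ => by rw [mem_singleton.mp ha, mem_singleton.mp hb],
      a3.att ⟨x, x1, z, mem_singleton_self z, x2⟩⟩ a2 (by linarith)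
      (a4.trans (by exact_mod_cast b1)) (fun he => hn ((z3 _ he).mono Subset.rfl Subset.rfl (by omega)))
    rw [Nat.cast_sub h1] at b2
    push_cast at b2
    linarith
  exact ⟨H, a1, hv.1.mono_right a1, fun v hv' => hv.2.1 v (a1 hv'), a3, hat,
    fun he => hn (he.mono Subset.rfl a1 le_rfl), ψ, a6, a4, fun R hR => a5 R (hR.trans a1)⟩

theorem dg_le_one {A H : Finset V}
    (hu : ∀ v ∈ H, ∀ w ∈ A, ∀ w' ∈ A, G.Adj w v → G.Adj w' v → w = w') {v : V} (hv : v ∈ H) :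
    dg G A v ≤ 1 :=
  card_le_one.mpr fun a ha b hb => hu v hv a (mem_filter.mp ha).1 b (mem_filter.mp hb).1
    (mem_filter.mp ha).2.symm (mem_filter.mp hb).2.symm

theorem mindeg {A H : Finset V} {ψ : ℝ}
    (hu : ∀ v ∈ H, ∀ w ∈ A, ∀ w' ∈ A, G.Adj w v → G.Adj w' v → w = w')
    (h1 : ψ * H.card ≤ (∑ v ∈ H, la G (A ∪ H) v : ℕ))
    (h2 : ∀ R ⊆ H, ((∑ v ∈ R, la G (A ∪ R) v : ℕ) : ℝ) ≤ ψ * R.card) {v : V} (hv : v ∈ H) :
    ψ ≤ 1 + 2 * dg G H v := by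
  have a1 := transfer h1 h2 (R := {v}) (by simpa using hv)
  rw [card_singleton, sum_singleton, sum_singleton, Nat.cast_one, mul_one] at a1
  have a2 : la G (A ∪ H) v ≤ dg G A v + dg G H v := (la_le_deg _ v).trans (dg_union_le A H v)
  have a3 := dg_le_one hu hv
  have a4 := dg_mono (G := G) (sdiff_subset (s := H) (t := {v})) v
  refine a1.trans ?_
  exact_mod_cast (by omega)

theorem sum_dg_le_cover {A H K : Finset V} (hK : K ⊆ H)
    (hu : ∀ v ∈ H, ∀ w ∈ A, ∀ w' ∈ A, G.Adj w v → G.Adj w' v → w = w') :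
    ∑ v ∈ K, dg G A v ≤ (K.filter (fun v => ∃ c ∈ A, G.Adj c v)).card := by
  rw [card_filter]
  refine sum_le_sum fun v hv => ?_
  split_ifs with h
  · exact dg_le_one hu (hK hv)
  · rw [Nat.le_zero, dg, card_eq_zero, filter_eq_empty_iff]
    exact fun x hx ha => h ⟨x, hx, ha.symm⟩

theorem good_step (hc : C4F G) {σ φ0 : ℝ} (h : Gain G σ φ0) (s1 : 1 ≤ σ) (s2 : σ ≤ 10) {n : ℕ}
    (h0 : φ0 + 100 ≤ n) (h1 : 100000000000 ≤ n) {A H : Finset V} (hg : Good G σ (n + 1) A H) :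
    ∃ A' H', H' ⊆ H ∧ Good G σ n A' H' ∧ H'.card ≤ (1000000 * n) ^ 2 := by
  obtain ⟨g1, g2, g3, g4, g5, ψ, g6, g7, g8⟩ := hg
  push_cast at g6
  have h1' : (100000000000 : ℝ) ≤ n := by exact_mod_cast h1
  have hne : H.Nonempty := by obtain ⟨x, hx, -⟩ := g4; exact ⟨x, hx⟩
  have hψ := h.ns ⟨g1, g2, g3.att g4⟩ hne (by linarith) g7 g5
  push_cast at hψ
  obtain ⟨w, w1, w2, w3⟩ := step_real hc ψ A H g1 g2 g4 g7
  have hwH : w ∉ H := disjoint_left.mp g1 w1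
  have hval := val_step hc g3 hwH w2
  set B := H.filter (G.Adj w) with hB
  have hBH : B ⊆ H := filter_subset _ _
  have hlose : ¬ Ext G B (H \ B) n := fun he => g5 (ext_step w1 hwH he)
  have hB1 : ∀ v ∈ H, dg G B v ≤ 1 := fun v hv => dg_nb_le_one hc H fun he : w = v => hwH (he ▸ hv)
  have hDne : (H \ B).Nonempty := by
    obtain ⟨x, hx⟩ := hne
    have a1 := mindeg g2 g7 g8 hx
    have a2 := dg_split (G := G) hBH x
    have a3 := hB1 x hx
    have a4 : (2 : ℝ) ≤ dg G H x := by linarith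
    have a5 : 2 ≤ dg G H x := by exact_mod_cast a4
    obtain ⟨y, hy⟩ := card_pos.mp (show 0 < dg G (H \ B) x by omega)
    exact ⟨y, (mem_filter.mp hy).1⟩
  obtain ⟨H', a1, a2⟩ := optimise hc h hval hDne hlose (by linarith) (by omega) (by
    rw [union_sdiff_of_subset hBH]
    exact le_trans (mul_le_mul_of_nonneg_right (by linarith) (Nat.cast_nonneg _)) w3)
  refine ⟨B, H', a1.trans sdiff_subset, a2, ?_⟩
  by_contra hbig
  obtain ⟨x0, x1, -⟩ := a2.2.2.2.1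
  obtain ⟨K, k1, k2, k3⟩ := exists_comp (G := G) (H \ B) (a1 x1)
  have hH'K : H' ⊆ K := a2.2.2.1.subset (fun x hx y hy => k1.2 x hx y (a1 hy)) x1 k2
  have hKH : K ⊆ H := k1.1.trans sdiff_subset
  have hout : ∀ v ∈ K, ∀ y ∈ H, G.Adj v y → y ∈ K ∨ y ∈ B := fun v hv y hy ha => by
    by_cases hyB : y ∈ B
    · exact Or.inr hyB
    · exact Or.inl (k1.2 v hv y (mem_sdiff.mpr ⟨hy, hyB⟩) ha)
  have huB : ∀ v ∈ K, ∀ w ∈ B, ∀ w' ∈ B, G.Adj w v → G.Adj w' v → w = w' :=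
    fun v hv => hval.2.1 v (k1.1 hv)
  have hKpos : (0 : ℝ) < K.card := by exact_mod_cast card_pos.mpr ⟨x0, k2⟩
  set δ := ⌊(ψ - 5) / 2⌋₊ with hδ
  have d1 : (δ : ℝ) ≤ (ψ - 5) / 2 := Nat.floor_le (by linarith)
  have d2 : (ψ - 5) / 2 < δ + 1 := Nat.lt_floor_add_one _
  have d3 : ∀ v ∈ K, δ + 1 ≤ dg G K v := by
    intro v hv
    have b1 := mindeg g2 g7 g8 (hKH hv)
    have b2 : dg G H v ≤ dg G K v + 1 := (dg_le_of (hout v hv)).trans
      (Nat.add_le_add_left (hB1 v (hKH hv)) _)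
    have b3 : (dg G H v : ℝ) ≤ dg G K v + 1 := by exact_mod_cast b2
    have b4 : (δ : ℝ) + 1 ≤ dg G K v := by linarith
    exact_mod_cast b4
  have d4 : 10000000000 ≤ δ := by
    have : (10000000000 : ℝ) ≤ δ := by linarith
    exact_mod_cast this
  have d5 : ∑ v ∈ K, dg G K v ≤ 6 * δ * K.card := by
    have b1 : ∑ v ∈ K, dg G K v ≤ 2 * ∑ v ∈ K, la G (A ∪ K) v := by
      rw [mul_sum]
      exact sum_le_sum fun v _ => (dg_mono subset_union_right v).trans (dg_le_two_la hc _ v)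
    have b2 : ((∑ v ∈ K, dg G K v : ℕ) : ℝ) ≤ 2 * (∑ v ∈ K, la G (A ∪ K) v : ℕ) := by
      exact_mod_cast b1
    have b3 := g8 K hKH
    have b4 : 2 * ψ * K.card ≤ 6 * δ * K.card := mul_le_mul_of_nonneg_right (by linarith) hKpos.le
    have b5 : ((∑ v ∈ K, dg G K v : ℕ) : ℝ) ≤ 6 * δ * K.card := by linarith
    exact_mod_cast b5
  have d6 : (1000000 * δ) ^ 2 ≤ K.card := by
    have b1 : (δ : ℝ) ≤ n := by linarith
    have b2 : δ ≤ n := by exact_mod_cast b1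
    have b3 := Nat.pow_le_pow_left (Nat.mul_le_mul_left 1000000 b2) 2
    have b4 := card_le_card hH'K
    omega
  have key : ∀ B', ¬ Ext G B' K (n + 1) → ¬ Out G B' K := by
    rintro B' hl ⟨x, R, r1, r2, r3, r4, r5, r6⟩
    have b1 := transfer g7 g8 (r2.trans hKH)
    have b2 : ∑ v ∈ R, dg G (H \ R) v ≤ ∑ v ∈ R, (dg G (K \ R) v + 1) := by
      refine sum_le_sum fun v hv => (dg_le_of (T := K \ R) (U := B) fun y hy ha => ?_).trans
        (Nat.add_le_add_left (hB1 v (hKH (r2 hv))) _)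
      obtain ⟨y1, y2⟩ := mem_sdiff.mp hy
      exact (hout v (r2 hv) y y1 ha).imp_left fun e => mem_sdiff.mpr ⟨e, y2⟩
    have b3 : ∑ v ∈ R, la G (A ∪ H) v ≤ ∑ v ∈ R, (la G ({x} ∪ R) v + (1 + dg G (H \ R) v)) := by
      refine sum_le_sum fun v hv => (la_le_of (T := {x} ∪ R) (U := A ∪ (H \ R)) fun y hy _ => ?_).trans
        (Nat.add_le_add_left ((dg_union_le _ _ v).trans
          (Nat.add_le_add_right (dg_le_one g2 (hKH (r2 hv))) _)) _)
      simp only [mem_union, mem_sdiff] at hy ⊢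
      tauto
    simp only [sum_add_distrib, sum_const, smul_eq_mul, mul_one] at b2 b3
    have b4 : ((∑ v ∈ R, la G (A ∪ H) v + ∑ v ∈ R, dg G (H \ R) v : ℕ) : ℝ) ≤
        (∑ v ∈ R, la G ({x} ∪ R) v : ℕ) + 15 * R.card := by exact_mod_cast (by omega)
    have b5 := h.ns (A := {x}) (D := R) (n := n - 15) (φ := ψ - 15) ⟨by simpa using r3,
      fun v _ a ha b hb _ _ => by rw [mem_singleton.mp ha, mem_singleton.mp hb], r4⟩ r1
      (by linarith) (by linarith)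
      (fun he => hl ((r5 _ (by omega) he).mono Subset.rfl Subset.rfl (by omega)))
    rw [Nat.cast_sub (by omega)] at b5
    push_cast at b5
    linarith
  have c1 := mt (sparse hc (g1.mono_right hKH) (fun v hv => g2 v (hKH hv)) k3 d3 d4 d5 d6)
    (key A fun he => g5 (he.mono Subset.rfl hKH le_rfl))
  have c2 := mt (sparse hc (hval.1.mono_right k1.1) huB k3 d3 d4 d5 d6)
    (key B fun he => hlose (he.mono Subset.rfl k1.1 (by omega)))
  have c3 := sum_dg_le_cover hKH g2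
  have c4 := sum_dg_le_cover Subset.rfl huB
  have c5 := transfer g7 g8 hKH
  have c6 : ∑ v ∈ K, dg G (H \ K) v ≤ ∑ v ∈ K, dg G B v := by
    refine sum_le_sum fun v hv => card_le_card fun y hy => ?_
    obtain ⟨y1, y2⟩ := mem_filter.mp hy
    obtain ⟨y3, y4⟩ := mem_sdiff.mp y1
    exact mem_filter.mpr ⟨(hout v hv y y3 y2).resolve_left y4, y2⟩
  have c7 : ∑ v ∈ K, la G (A ∪ H) v ≤ ∑ v ∈ K, (la G (B ∪ K) v + dg G A v) := by
    refine sum_le_sum fun v hv => la_le_of fun y hy ha => ?_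
    rcases mem_union.mp hy with e | e
    · exact Or.inr e
    · exact Or.inl (mem_union.mpr (hout v hv y e ha).symm)
  rw [sum_add_distrib] at c7
  have c8 : (2 : ℝ) * (∑ v ∈ K, la G (A ∪ H) v + ∑ v ∈ K, dg G (H \ K) v : ℕ) ≤
      2 * (∑ v ∈ K, la G (B ∪ K) v : ℕ) + K.card := by exact_mod_cast (by omega)
  have c9 := h.ns (A := B) (D := K) (n := n) (φ := ψ - 1 / 2) ⟨hval.1.mono_right k1.1, huB,
    fun K' hK' => hval.2.2 K' (k1.trans hK')⟩ ⟨x0, k2⟩ (by linarith) (by linarith)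
    (fun he => hlose (he.mono Subset.rfl k1.1 le_rfl))
  linarith

theorem Good.deg {σ : ℝ} (s2 : σ ≤ 10) {n : ℕ} (h1 : 100 ≤ n) {A H : Finset V}
    (hg : Good G σ n A H) : H.Nonempty ∧ ∀ v ∈ H, n ≤ 4 * dg G H v := by
  obtain ⟨-, g2, -, ⟨x, hx, -⟩, -, ψ, g6, g7, g8⟩ := hg
  refine ⟨⟨x, hx⟩, fun v hv => ?_⟩
  have a1 := mindeg g2 g7 g8 hv
  have a2 : (100 : ℝ) ≤ n := by exact_mod_cast h1
  have a3 : (n : ℝ) ≤ 4 * dg G H v := by linarith
  exact_mod_cast a3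

theorem improve (φ0 : ℝ) : ∃ φ1 : ℝ, ∀ (V : Type) (G : SimpleGraph V) (σ : ℝ), C4F G → 1 ≤ σ →
    σ ≤ 10 → Gain G σ φ0 → Gain G (σ + 1 / 2) φ1 := by
  obtain ⟨a0, ha0⟩ := exists_nat_ge (φ0 + 100)
  obtain ⟨b, hab, hb⟩ := no_seq 1000000 (a0 + 100000000000)
  refine ⟨b, fun V G σ hc s1 s2 h A D n φ hv hne h0 hs hn => ?_⟩
  by_contra hno
  have hab' : (a0 : ℝ) + 100000000000 ≤ b := by exact_mod_cast hab
  have h1 := h.ns hv hne (by linarith) hs hno
  have h2 : b < n := by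
    have : (b : ℝ) < n := by linarith
    exact_mod_cast this
  obtain ⟨H, -, hH⟩ := optimise hc h hv hne hno (by linarith) (by omega)
    (le_trans (mul_le_mul_of_nonneg_right (by linarith) (Nat.cast_nonneg _)) hs)
  have key : ∀ j k, k + j = n → a0 + 100000000000 ≤ k → ∃ Y : ℕ → Finset V, ∃ A',
      Good G σ k A' (Y k) ∧ ∀ i, k ≤ i → i < n → Y i ⊆ Y (i + 1) ∧ (Y i).Nonempty ∧
      (∀ v ∈ Y i, i ≤ 4 * dg G (Y i) v) ∧ (Y i).card ≤ (1000000 * i) ^ 2 := by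
    intro j
    induction j with
    | zero =>
      intro k hk _
      exact ⟨fun _ => H, A, by rwa [show k = n by omega], fun i a b => by omega⟩
    | succ j ih =>
      intro k hk hk'
      obtain ⟨Y, A', y1, y2⟩ := ih (k + 1) (by omega) (by omega)
      have hk'' : (a0 : ℝ) ≤ k := by exact_mod_cast (by omega)
      obtain ⟨A'', H', z1, z2, z3⟩ := good_step hc h s1 s2 (by linarith) (by omega) y1
      obtain ⟨z4, z5⟩ := z2.deg s2 (by omega)
      refine ⟨fun i => if i = k then H' else Y i, A'', by simpa using z2, fun i i1 i2 => ?_⟩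
      rcases Nat.eq_or_lt_of_le i1 with rfl | i3
      · simp only [if_true, if_neg (Nat.succ_ne_self _)]
        exact ⟨z1, z4, z5, z3⟩
      · simp only [if_neg i3.ne', if_neg (show i + 1 ≠ k by omega)]
        exact y2 i i3 i2
  obtain ⟨Y, -, -, hY⟩ := key (n - (a0 + 100000000000)) _ (by omega) le_rfl
  exact hb V G hc Y fun i a b => hY i a (by omega)

theorem gain_nine : ∃ φ : ℝ, ∀ (V : Type) (G : SimpleGraph V), C4F G → Gain G 9 φ := by
  have key : ∀ k : ℕ, k ≤ 16 → ∃ φ : ℝ, ∀ (V : Type) (G : SimpleGraph V), C4F G →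
      Gain G (1 + k / 2) φ := by
    intro k hk
    induction k with
    | zero => exact ⟨1, fun V G hc => by simpa using gain_one hc⟩
    | succ k ih =>
      obtain ⟨φ, hφ⟩ := ih (by omega)
      obtain ⟨φ1, h1⟩ := improve φ
      have a : (k : ℝ) ≤ 16 := by exact_mod_cast (by omega)
      have b : (0 : ℝ) ≤ k := Nat.cast_nonneg k
      refine ⟨φ1, fun V G hc => ?_⟩
      have := h1 V G _ hc (by linarith) (by linarith) (hφ V G hc)
      convert this using 1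
      push_cast
      ring
  obtain ⟨φ, h⟩ := key 16 le_rfl
  refine ⟨φ, fun V G hc => ?_⟩
  convert h V G hc using 1
  norm_num

end Pool.Agent.Lib.MP_0d366e_co
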