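import Pool.Agent.Lib.MP_0d366e_co.Bfs

open Finset

namespace Pool.Agent.Lib.MP_0d366e_co

open Classical

variable {V : Type} {G : SimpleGraph V}

/-- The step of the potential argument for a real average. -/
theorem step_real (hc : C4F G) (ψ : ℝ) (A K : Finset V) (hd : Disjoint A K)
    (hu : ∀ v ∈ K, ∀ w ∈ A, ∀ w' ∈ A, G.Adj w v → G.Adj w' v → w = w')
    (hx : ∃ x ∈ K, ∃ w ∈ A, G.Adj w x)
    (h : ψ * K.card ≤ (∑ v ∈ K, la G (A ∪ K) v : ℕ)) :
    ∃ w ∈ A, (K.filter (G.Adj w)).Nonempty ∧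
      (ψ - 1) * (K \ K.filter (G.Adj w)).card ≤
        (∑ v ∈ K \ K.filter (G.Adj w), la G K v : ℕ) := by
  set B : V → Finset V := fun w => K.filter (G.Adj w) with hB
  set AK := A.filter (fun w => (B w).Nonempty) with hAK
  set R := K.filter (fun v => ∀ w ∈ A, ¬ G.Adj w v) with hR
  set l : V → ℕ := la G (A ∪ K) with hl
  have hBK : ∀ w, B w ⊆ K := fun w => filter_subset _ _
  have hRK : R ⊆ K := filter_subset _ _
  have hbi : K \ R = AK.biUnion B := by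
    ext v
    simp only [mem_sdiff, mem_biUnion, hR, hAK, hB, mem_filter]
    constructor
    · rintro ⟨hv, hn⟩
      push Not at hn
      obtain ⟨w, hw, ha⟩ := hn hv
      exact ⟨w, ⟨hw, ⟨v, mem_filter.mpr ⟨hv, ha⟩⟩⟩, hv, ha⟩
    · rintro ⟨w, ⟨hw, _⟩, hv, ha⟩
      exact ⟨hv, fun hn => hn.2 w hw ha⟩
  have hpd : (AK : Set V).PairwiseDisjoint B := by
    intro w hw w' hw' hne
    rw [Function.onFun, disjoint_left]
    intro v h1 h2
    obtain ⟨a1, a2⟩ := mem_filter.mp h1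
    exact hne (hu v a1 w (mem_filter.mp hw).1 w' (mem_filter.mp hw').1 a2 (mem_filter.mp h2).2)
  have F1 : ∀ g : V → ℕ, ∑ w ∈ AK, ∑ v ∈ B w, g v + ∑ v ∈ R, g v = ∑ v ∈ K, g v := by
    intro g
    rw [← sum_biUnion hpd, ← hbi, sum_sdiff hRK]
  have F2 : ∀ v ∈ K, l v ≤ la G K v + (if v ∈ R then 0 else 1) := by
    intro v hv
    refine (la_le (A ∪ K) K v).trans (Nat.add_le_add_left ?_ _)
    split_ifs with hvR
    · rw [Nat.le_zero, card_eq_zero, filter_eq_empty_iff]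
      intro x hx ha
      obtain ⟨a, b⟩ := mem_sdiff.mp hx
      exact (mem_filter.mp hvR).2 x ((mem_union.mp a).resolve_right b) ha.symm
    · rw [card_le_one]
      intro x hx y hy
      obtain ⟨a, a'⟩ := mem_filter.mp hx
      obtain ⟨b, b'⟩ := mem_filter.mp hy
      exact hu v hv x ((mem_union.mp (mem_sdiff.mp a).1).resolve_right (mem_sdiff.mp a).2) y
        ((mem_union.mp (mem_sdiff.mp b).1).resolve_right (mem_sdiff.mp b).2) a'.symm b'.symm
  have F3 : ∀ v ∈ K \ R, l v ≤ AK.card + (R.filter (G.Adj v)).card := by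
    intro v hv
    obtain ⟨hvK, hvR⟩ := mem_sdiff.mp hv
    obtain ⟨I, hI, hn, he⟩ := exists_la (G := G) (A ∪ K) v
    rw [hl, ← he, ← card_sdiff_add_card_inter I R]
    refine Nat.add_le_add ?_ (card_le_card fun x hx =>
      mem_filter.mpr ⟨(mem_inter.mp hx).2, hn.1 x (mem_inter.mp hx).1⟩)
    have key : ∀ x ∈ I \ R, ∃ w ∈ AK, x = w ∨ G.Adj w x := by
      intro x hx
      obtain ⟨a, b⟩ := mem_sdiff.mp hx
      rcases mem_union.mp (hI a) with h1 | h1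
      · exact ⟨x, mem_filter.mpr ⟨h1, v, mem_filter.mpr ⟨hvK, (hn.1 x a).symm⟩⟩, Or.inl rfl⟩
      · have : x ∈ AK.biUnion B := hbi ▸ mem_sdiff.mpr ⟨h1, b⟩
        obtain ⟨w, hw, hxw⟩ := mem_biUnion.mp this
        exact ⟨w, hw, Or.inr (mem_filter.mp hxw).2⟩
    choose! φ hφ hφ' using key
    refine card_le_card_of_injOn φ (fun x hx => hφ x hx) ?_
    intro x hx y hy hxy
    have hx' := (mem_sdiff.mp hx).1
    have hy' := (mem_sdiff.mp hy).1
    have hwv : φ x ≠ v := fun hc' =>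
      disjoint_left.mp hd (mem_filter.mp (hφ x hx)).1 (hc' ▸ hvK)
    rcases hφ' x hx with a | a <;> rcases hφ' y hy with b | b
    · rw [a, b, hxy]
    · exact (hn.2 x hx' y hy' (by rw [a, hxy]; exact b)).elim
    · exact (hn.2 y hy' x hx' (by rw [b, ← hxy]; exact a)).elim
    · exact hc.uniq hwv a (hn.1 x hx') (hxy ▸ b) (hn.1 y hy')
  have F4 : ∀ w ∈ A, ∑ v ∈ B w, (R.filter (G.Adj v)).card ≤ R.card := by
    intro w hw
    rw [← card_biUnion]
    · exact card_le_card (biUnion_subset.mpr fun v _ => filter_subset _ _)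
    · intro v hv v' hv' hne
      rw [Function.onFun, disjoint_left]
      intro y h1 h2
      obtain ⟨a1, a2⟩ := mem_filter.mp h1
      have hwy : w ≠ y := fun hc' => disjoint_left.mp hd hw (hc' ▸ hRK a1)
      exact hne (hc.uniq hwy (mem_filter.mp hv).2 a2.symm (mem_filter.mp hv').2
        (mem_filter.mp h2).2.symm)
  have main : ∃ w ∈ AK, ((∑ v ∈ B w, l v : ℕ) : ℝ) + ψ * K.card ≤
      (∑ v ∈ K, l v : ℕ) + R.card + ψ * (B w).card := by
    obtain ⟨x, hxK, w, hw, ha⟩ := hx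
    have hwA : w ∈ AK := mem_filter.mpr ⟨hw, x, mem_filter.mpr ⟨hxK, ha⟩⟩
    by_cases hm : (AK.card : ℝ) ≤ ψ
    · refine ⟨w, hwA, ?_⟩
      have a1 : ∑ v ∈ B w, l v ≤ ∑ v ∈ B w, (AK.card + (R.filter (G.Adj v)).card) :=
        sum_le_sum fun v hv => F3 v (hbi ▸ mem_biUnion.mpr ⟨w, hwA, hv⟩)
      rw [sum_add_distrib, sum_const, smul_eq_mul] at a1
      have a2 := F4 w hw
      have a3 : ((∑ v ∈ B w, l v : ℕ) : ℝ) ≤ (B w).card * AK.card + R.card := by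
        exact_mod_cast a1.trans (Nat.add_le_add_left a2 _)
      have a4 := mul_le_mul_of_nonneg_left hm (Nat.cast_nonneg (α := ℝ) (B w).card)
      linarith
    · by_contra hcon
      push Not at hcon hm
      have a1 := sum_lt_sum_of_nonempty ⟨w, hwA⟩ hcon
      rw [sum_add_distrib, sum_add_distrib, sum_add_distrib, sum_const, sum_const, sum_const,
        ← mul_sum, nsmul_eq_mul, nsmul_eq_mul, nsmul_eq_mul, ← Nat.cast_sum, ← Nat.cast_sum] at a1
      have a2 : ((∑ w ∈ AK, ∑ v ∈ B w, l v : ℕ) : ℝ) ≤ (∑ v ∈ K, l v : ℕ) := by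
        have := F1 l
        exact_mod_cast (by omega)
      have a3 := F1 (fun _ => 1)
      simp only [sum_const, smul_eq_mul, mul_one] at a3
      have a4 : ((∑ w ∈ AK, (B w).card : ℕ) : ℝ) = K.card - R.card := by
        rw [← a3]; push_cast; ring
      have a5 : (1 : ℝ) ≤ AK.card := by exact_mod_cast card_pos.mpr ⟨w, hwA⟩
      rw [a4] at a1
      have a6 := mul_le_mul_of_nonneg_right hm.le (Nat.cast_nonneg (α := ℝ) R.card)
      have a7 := mul_le_mul_of_nonneg_right a5 (sub_nonneg.mpr h)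
      nlinarith
  obtain ⟨w, hw, hlt⟩ := main
  obtain ⟨hwA, hne⟩ := mem_filter.mp hw
  refine ⟨w, hwA, hne, ?_⟩
  have hRs : R ⊆ K \ B w := fun v hv =>
    mem_sdiff.mpr ⟨hRK hv, fun hc' => (mem_filter.mp hv).2 w hwA (mem_filter.mp hc').2⟩
  have b1 : ∑ v ∈ K \ B w, l v ≤ ∑ v ∈ K \ B w, (la G K v + (if v ∈ R then 0 else 1)) :=
    sum_le_sum fun v hv => F2 v (mem_sdiff.mp hv).1
  have b2 : ∑ v ∈ K \ B w, (if v ∈ R then 0 else 1) + R.card = (K \ B w).card := by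
    rw [← sum_sdiff hRs, sum_congr rfl (g := fun _ => 1) fun v hv => if_neg (mem_sdiff.mp hv).2,
      sum_congr rfl (g := fun _ => 0) fun v hv => if_pos hv]
    simp only [sum_const, smul_eq_mul, mul_one, mul_zero, add_zero]
    exact card_sdiff_add_card_eq_card hRs
  rw [sum_add_distrib] at b1
  have b3 := sum_sdiff (f := l) (hBK w)
  have b4 : (K.card : ℝ) = (K \ B w).card + (B w).card := by
    exact_mod_cast (card_sdiff_add_card_eq_card (hBK w)).symm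
  have b5 : ((∑ v ∈ K, l v : ℕ) : ℝ) + R.card ≤
      (∑ v ∈ K \ B w, la G K v : ℕ) + (K \ B w).card + (∑ v ∈ B w, l v : ℕ) := by
    exact_mod_cast (by omega)
  show (ψ - 1) * (K \ B w).card ≤ (∑ v ∈ K \ B w, la G K v : ℕ)
  rw [b4] at hlt
  linarith

/-- A state of the path growing process. -/
def Val (G : SimpleGraph V) (A D : Finset V) : Prop :=
  Disjoint A D ∧ (∀ v ∈ D, ∀ w ∈ A, ∀ w' ∈ A, G.Adj w v → G.Adj w' v → w = w') ∧ Att G A D

theorem Irr.att {A K : Finset V} (h : Irr G K) (hx : ∃ x ∈ K, ∃ w ∈ A, G.Adj w x) : Att G A K :=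
  fun K' hK' hne => (h K' hK' hne).symm ▸ hx

theorem val_step (hc : C4F G) {K : Finset V} (hirr : Irr G K) {w : V} (hw : w ∉ K)
    (hne : (K.filter (G.Adj w)).Nonempty) :
    Val G (K.filter (G.Adj w)) (K \ K.filter (G.Adj w)) := by
  refine ⟨disjoint_sdiff, fun v hv x hx y hy a b => ?_, fun K' hK' hne' => ?_⟩
  · exact hc.uniq (fun h : w = v => hw (h ▸ (mem_sdiff.mp hv).1)) (mem_filter.mp hx).2 a.symm
      (mem_filter.mp hy).2 b.symm
  · by_contra hcon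
    push Not at hcon
    have : K' = K := hirr K' ⟨hK'.1.trans sdiff_subset, fun x hx y hy hadj => by
      by_cases hyB : y ∈ K.filter (G.Adj w)
      · exact (hcon x hx y hyB hadj.symm).elim
      · exact hK'.2 x hx y (mem_sdiff.mpr ⟨hy, hyB⟩) hadj⟩ hne'
    obtain ⟨b, hb⟩ := hne
    exact (mem_sdiff.mp (hK'.1 (this ▸ (mem_filter.mp hb).1))).2 hb

theorem ext_step {A K : Finset V} {w : V} (hwA : w ∈ A) (hw : w ∉ K) {m : ℕ}
    (h : Ext G (K.filter (G.Adj w)) (K \ K.filter (G.Adj w)) m) : Ext G A K (m + 1) := by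
  obtain ⟨f, hf, h0, hi⟩ := h
  have hfK : ∀ i < m, f i ∈ K := fun i hi' => by
    rcases Nat.eq_zero_or_pos i with rfl | hp
    · exact (mem_filter.mp h0).1
    · exact (mem_sdiff.mp (hi i hp hi')).1
  refine ⟨cons w f, hf.cons (mem_filter.mp h0).2 (fun i a b hadj => ?_)
    (fun i hi' he => hw (he ▸ hfK i hi')), hwA, fun i a b => ?_⟩
  · obtain ⟨c1, c2⟩ := mem_sdiff.mp (hi i a b)
    exact c2 (mem_filter.mpr ⟨c1, hadj⟩)
  · obtain ⟨j, rfl⟩ : ∃ j, i = j + 1 := ⟨i - 1, by omega⟩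
    exact hfK j (by omega)

theorem detour (hc : C4F G) {H : Finset V} (hirr : Irr G H) (hne : H.Nonempty) (n : ℕ) :
    ∀ A D : Finset V, D.card ≤ n → Val G A D → H ⊆ D → (∃ x ∈ H, ∃ a ∈ A, G.Adj a x) ∨
      ∃ z, z ∉ H ∧ (∃ x ∈ H, G.Adj z x) ∧ ∀ m, Ext G {z} H m → Ext G A D (m + 1) := by
  obtain ⟨v, hv⟩ := hne
  induction n with
  | zero =>
    intro A D hD _ hH
    have := card_pos.mpr ⟨v, hH hv⟩
    omega
  | succ n ih =>
    intro A D hD hval hH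
    by_cases hat : ∃ x ∈ H, ∃ a ∈ A, G.Adj a x
    · exact Or.inl hat
    right
    obtain ⟨K, k1, k2, k3⟩ := exists_comp (G := G) D (hH hv)
    have hHK : H ⊆ K := hirr.subset (fun x hx y hy => k1.2 x hx y (hH hy)) hv k2
    obtain ⟨x, hx, w, hw, ha⟩ := hval.2.2 K k1 ⟨v, k2⟩
    have hwK : w ∉ K := fun h => disjoint_left.mp hval.1 hw (k1.1 h)
    have hxB : x ∈ K.filter (G.Adj w) := mem_filter.mpr ⟨hx, ha⟩
    have hH' : H ⊆ K \ K.filter (G.Adj w) := fun y hy =>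
      mem_sdiff.mpr ⟨hHK hy, fun h => hat ⟨y, hy, w, hw, (mem_filter.mp h).2⟩⟩
    have c1 := card_sdiff_add_card_eq_card (filter_subset (G.Adj w) K)
    have c2 := card_pos.mpr ⟨x, hxB⟩
    have c3 := card_le_card k1.1
    rcases ih _ _ (by omega) (val_step hc k3 hwK ⟨x, hxB⟩) hH' with ⟨y, hy, a, a1, a2⟩ | ⟨z, z1, z2, z3⟩
    · exact ⟨a, fun h => (mem_sdiff.mp (hH' h)).2 a1, ⟨y, hy, a2⟩, fun m hm =>
        (ext_step hw hwK (hm.mono (by simpa using a1) hH' le_rfl)).mono Subset.rfl k1.1 le_rfl⟩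
    · exact ⟨z, z1, z2, fun m hm => (ext_step hw hwK (z3 m hm)).mono Subset.rfl k1.1 (by omega)⟩

theorem la_le_of {S T U : Finset V} {v : V} (h : ∀ x ∈ S, G.Adj v x → x ∈ T ∨ x ∈ U) :
    la G S v ≤ la G T v + dg G U v := by
  refine (la_le S T v).trans (Nat.add_le_add_left (card_le_card fun x hx => ?_) _)
  obtain ⟨a, b⟩ := mem_filter.mp hx
  obtain ⟨c, d⟩ := mem_sdiff.mp a
  exact mem_filter.mpr ⟨(h x c b).resolve_left d, b⟩

theorem la_le_of' {S T : Finset V} {v : V} (h : ∀ x ∈ S, G.Adj v x → x ∈ T) :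
    la G S v ≤ la G T v := by
  have := la_le_of (G := G) (S := S) (T := T) (U := ∅) (v := v) fun x a b => Or.inl (h x a b)
  simpa [dg] using this

theorem la_cl {A D K : Finset V} (h : Cl G D K) {v : V} (hv : v ∈ K) :
    la G (A ∪ D) v ≤ la G (A ∪ K) v :=
  la_le_of' fun x hx ha => (mem_union.mp hx).elim (mem_union_left _)
    fun b => mem_union_right _ (h.2 v hv x b ha)

/-- A connected subset with the largest average. -/
theorem exists_max (A D : Finset V) (hne : D.Nonempty) :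
    ∃ H ⊆ D, H.Nonempty ∧ Irr G H ∧ ∃ ψ : ℝ, ψ * H.card ≤ (∑ v ∈ H, la G (A ∪ H) v : ℕ) ∧
      ∀ R ⊆ D, ((∑ v ∈ R, la G (A ∪ R) v : ℕ) : ℝ) ≤ ψ * R.card := by
  obtain ⟨H0, h1, h2⟩ := exists_max_image (D.powerset.filter Finset.Nonempty)
    (fun R => ((∑ v ∈ R, la G (A ∪ R) v : ℕ) : ℝ) / R.card)
    ⟨D, mem_filter.mpr ⟨mem_powerset_self D, hne⟩⟩
  obtain ⟨h3, h4⟩ := mem_filter.mp h1
  set ψ := ((∑ v ∈ H0, la G (A ∪ H0) v : ℕ) : ℝ) / H0.card with hψ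
  have hup : ∀ R ⊆ D, ((∑ v ∈ R, la G (A ∪ R) v : ℕ) : ℝ) ≤ ψ * R.card := by
    intro R hR
    rcases R.eq_empty_or_nonempty with rfl | hR'
    · simp
    · exact (div_le_iff₀ (by exact_mod_cast hR'.card_pos)).mp
        (h2 R (mem_filter.mpr ⟨mem_powerset.mpr hR, hR'⟩))
  have hex : ∃ n, ∃ H : Finset V, H.card = n ∧ H ⊆ D ∧ H.Nonempty ∧
      ψ * H.card ≤ (∑ v ∈ H, la G (A ∪ H) v : ℕ) :=
    ⟨_, H0, rfl, mem_powerset.mp h3, h4,
      le_of_eq (div_mul_cancel₀ _ (by exact_mod_cast h4.card_pos.ne'))⟩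
  obtain ⟨H, hn, hHD, hH, hle⟩ := Nat.find_spec hex
  refine ⟨H, hHD, hH, fun K hK hKne => ?_, ψ, hle, hup⟩
  by_contra hneq
  have l1 := card_lt_card (show K ⊂ H from ⟨hK.1, fun hc => hneq (Subset.antisymm hK.1 hc)⟩)
  refine Nat.find_min hex (m := K.card) (by omega) ⟨K, rfl, hK.1.trans hHD, hKne, ?_⟩
  have a1 := hup (H \ K) (sdiff_subset.trans hHD)
  have a2 := sum_sdiff (f := la G (A ∪ H)) hK.1
  have a3 : ∑ v ∈ K, la G (A ∪ H) v ≤ ∑ v ∈ K, la G (A ∪ K) v := sum_le_sum fun v hv => la_cl hK hv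
  have a4 : ∑ v ∈ H \ K, la G (A ∪ H) v ≤ ∑ v ∈ H \ K, la G (A ∪ (H \ K)) v :=
    sum_le_sum fun v hv => la_cl (Cl.sdiff ⟨Subset.rfl, fun _ _ _ hy _ => hy⟩ hK) hv
  have a5 : (H.card : ℝ) = (H \ K).card + K.card := by
    exact_mod_cast (card_sdiff_add_card_eq_card hK.1).symm
  have a6 : ((∑ v ∈ H, la G (A ∪ H) v : ℕ) : ℝ) ≤
      (∑ v ∈ H \ K, la G (A ∪ (H \ K)) v : ℕ) + (∑ v ∈ K, la G (A ∪ K) v : ℕ) := by
    exact_mod_cast (by omega)
  rw [a5] at hle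
  linarith

/-- Every subset of a maximiser keeps the average up to its boundary edges. -/
theorem transfer {A H : Finset V} {ψ : ℝ} (h1 : ψ * H.card ≤ (∑ v ∈ H, la G (A ∪ H) v : ℕ))
    (h2 : ∀ R ⊆ H, ((∑ v ∈ R, la G (A ∪ R) v : ℕ) : ℝ) ≤ ψ * R.card) {R : Finset V} (hR : R ⊆ H) :
    ψ * R.card ≤ (∑ v ∈ R, la G (A ∪ H) v + ∑ v ∈ R, dg G (H \ R) v : ℕ) := by
  have a1 := h2 (H \ R) sdiff_subset
  have a2 := sum_sdiff (f := la G (A ∪ H)) hR
  have a3 : ∑ v ∈ H \ R, la G (A ∪ H) v ≤ ∑ v ∈ H \ R, (la G (A ∪ (H \ R)) v + dg G R v) := by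
    refine sum_le_sum fun v _ => la_le_of fun x hx _ => ?_
    simp only [mem_union, mem_sdiff] at hx ⊢
    tauto
  rw [sum_add_distrib, sum_dg_comm] at a3
  have a5 : (H.card : ℝ) = (H \ R).card + R.card := by
    exact_mod_cast (card_sdiff_add_card_eq_card hR).symm
  have a6 : ((∑ v ∈ H, la G (A ∪ H) v : ℕ) : ℝ) ≤ (∑ v ∈ H \ R, la G (A ∪ (H \ R)) v : ℕ) +
      (∑ v ∈ R, la G (A ∪ H) v + ∑ v ∈ R, dg G (H \ R) v : ℕ) := by
    exact_mod_cast (by omega)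
  rw [a5] at h1
  linarith

end Pool.Agent.Lib.MP_0d366e_co
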