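import Pool.Agent.Lib.MP_0d366e_co.Basic

open Finset

namespace Pool.Agent.Lib.MP_0d366e_co

open Classical

variable {V : Type} {G : SimpleGraph V}

/-- One step of the potential argument: some vertex `w` of `A` can be used at the cost of at most
one unit of the average. -/
theorem step (hc : C4F G) (t : ℕ) (A K : Finset V) (hd : Disjoint A K)
    (hu : ∀ v ∈ K, ∀ w ∈ A, ∀ w' ∈ A, G.Adj w v → G.Adj w' v → w = w')
    (hx : ∃ x ∈ K, ∃ w ∈ A, G.Adj w x)
    (h : (t + 1) * K.card < ∑ v ∈ K, la G (A ∪ K) v) :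
    ∃ w ∈ A, (K.filter (G.Adj w)).Nonempty ∧
      t * (K \ K.filter (G.Adj w)).card < ∑ v ∈ K \ K.filter (G.Adj w), la G K v := by
  set B : V → Finset V := fun w => K.filter (G.Adj w) with hB
  set AK := A.filter (fun w => (B w).Nonempty) with hAK
  set R := K.filter (fun v => ∀ w ∈ A, ¬ G.Adj w v) with hR
  set l : V → ℕ := la G (A ∪ K) with hl
  have hBK : ∀ w, B w ⊆ K := fun w => filter_subset _ _
  have hRK : R ⊆ K := filter_subset _ _
  have hbi : K \ R = AK.biUnion B := by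
    ext v
    simp only [mem_sdiff, mem_biUnion, hR, hAK, hB, mem_filter]
    constructor
    · rintro ⟨hv, hn⟩
      push Not at hn
      obtain ⟨w, hw, ha⟩ := hn hv
      exact ⟨w, ⟨hw, ⟨v, mem_filter.mpr ⟨hv, ha⟩⟩⟩, hv, ha⟩
    · rintro ⟨w, ⟨hw, _⟩, hv, ha⟩
      exact ⟨hv, fun hn => hn.2 w hw ha⟩
  have hpd : (AK : Set V).PairwiseDisjoint B := by
    intro w hw w' hw' hne
    rw [Function.onFun, disjoint_left]
    intro v h1 h2
    obtain ⟨a1, a2⟩ := mem_filter.mp h1
    exact hne (hu v a1 w (mem_filter.mp hw).1 w' (mem_filter.mp hw').1 a2 (mem_filter.mp h2).2)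
  have F1 : ∀ g : V → ℕ, ∑ w ∈ AK, ∑ v ∈ B w, g v + ∑ v ∈ R, g v = ∑ v ∈ K, g v := by
    intro g
    rw [← sum_biUnion hpd, ← hbi, sum_sdiff hRK]
  have F2 : ∀ v ∈ K, l v ≤ la G K v + (if v ∈ R then 0 else 1) := by
    intro v hv
    refine (la_le (A ∪ K) K v).trans (Nat.add_le_add_left ?_ _)
    split_ifs with hvR
    · rw [Nat.le_zero, card_eq_zero, filter_eq_empty_iff]
      intro x hx ha
      obtain ⟨a, b⟩ := mem_sdiff.mp hx
      exact (mem_filter.mp hvR).2 x ((mem_union.mp a).resolve_right b) ha.symm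
    · rw [card_le_one]
      intro x hx y hy
      obtain ⟨a, a'⟩ := mem_filter.mp hx
      obtain ⟨b, b'⟩ := mem_filter.mp hy
      exact hu v hv x ((mem_union.mp (mem_sdiff.mp a).1).resolve_right (mem_sdiff.mp a).2) y
        ((mem_union.mp (mem_sdiff.mp b).1).resolve_right (mem_sdiff.mp b).2) a'.symm b'.symm
  have F3 : ∀ v ∈ K \ R, l v ≤ AK.card + (R.filter (G.Adj v)).card := by
    intro v hv
    obtain ⟨hvK, hvR⟩ := mem_sdiff.mp hv
    obtain ⟨I, hI, hn, he⟩ := exists_la (G := G) (A ∪ K) v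
    rw [hl, ← he, ← card_sdiff_add_card_inter I R]
    refine Nat.add_le_add ?_ (card_le_card fun x hx =>
      mem_filter.mpr ⟨(mem_inter.mp hx).2, hn.1 x (mem_inter.mp hx).1⟩)
    have key : ∀ x ∈ I \ R, ∃ w ∈ AK, x = w ∨ G.Adj w x := by
      intro x hx
      obtain ⟨a, b⟩ := mem_sdiff.mp hx
      rcases mem_union.mp (hI a) with h1 | h1
      · exact ⟨x, mem_filter.mpr ⟨h1, v, mem_filter.mpr ⟨hvK, (hn.1 x a).symm⟩⟩, Or.inl rfl⟩
      · have : x ∈ AK.biUnion B := hbi ▸ mem_sdiff.mpr ⟨h1, b⟩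
        obtain ⟨w, hw, hxw⟩ := mem_biUnion.mp this
        exact ⟨w, hw, Or.inr (mem_filter.mp hxw).2⟩
    choose! φ hφ hφ' using key
    refine card_le_card_of_injOn φ (fun x hx => hφ x hx) ?_
    intro x hx y hy hxy
    have hx' := (mem_sdiff.mp hx).1
    have hy' := (mem_sdiff.mp hy).1
    have hwv : φ x ≠ v := fun hc' =>
      disjoint_left.mp hd (mem_filter.mp (hφ x hx)).1 (hc' ▸ hvK)
    rcases hφ' x hx with a | a <;> rcases hφ' y hy with b | b
    · rw [a, b, hxy]
    · exact (hn.2 x hx' y hy' (by rw [a, hxy]; exact b)).elim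
    · exact (hn.2 y hy' x hx' (by rw [b, ← hxy]; exact a)).elim
    · exact hc.uniq hwv a (hn.1 x hx') (hxy ▸ b) (hn.1 y hy')
  have F4 : ∀ w ∈ A, ∑ v ∈ B w, (R.filter (G.Adj v)).card ≤ R.card := by
    intro w hw
    rw [← card_biUnion]
    · exact card_le_card (biUnion_subset.mpr fun v _ => filter_subset _ _)
    · intro v hv v' hv' hne
      rw [Function.onFun, disjoint_left]
      intro y h1 h2
      obtain ⟨a1, a2⟩ := mem_filter.mp h1
      have hwy : w ≠ y := fun hc' => disjoint_left.mp hd hw (hc' ▸ hRK a1)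
      exact hne (hc.uniq hwy (mem_filter.mp hv).2 a2.symm (mem_filter.mp hv').2
        (mem_filter.mp h2).2.symm)
  have main : ∃ w ∈ AK, ∑ v ∈ B w, l v + (t + 1) * K.card <
      ∑ v ∈ K, l v + R.card + (t + 1) * (B w).card := by
    by_cases hm : AK.card ≤ t + 1
    · obtain ⟨x, hxK, w, hw, ha⟩ := hx
      have hwA : w ∈ AK := mem_filter.mpr ⟨hw, x, mem_filter.mpr ⟨hxK, ha⟩⟩
      refine ⟨w, hwA, ?_⟩
      have a1 : ∑ v ∈ B w, l v ≤ ∑ v ∈ B w, (AK.card + (R.filter (G.Adj v)).card) :=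
        sum_le_sum fun v hv => F3 v (hbi ▸ mem_biUnion.mpr ⟨w, hwA, hv⟩)
      rw [sum_add_distrib, sum_const, smul_eq_mul] at a1
      have a2 := F4 w hw
      have a3 : (B w).card * AK.card ≤ (t + 1) * (B w).card := by
        rw [mul_comm]; exact Nat.mul_le_mul_right _ hm
      omega
    · by_contra hcon
      push Not at hcon hm
      have a1 := sum_le_sum hcon
      rw [sum_add_distrib, sum_add_distrib, sum_add_distrib, sum_const, sum_const, sum_const,
        ← mul_sum, smul_eq_mul, smul_eq_mul, smul_eq_mul] at a1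
      have a2 := F1 l
      have a3 := F1 (fun _ => 1)
      simp only [sum_const, smul_eq_mul, mul_one] at a3
      obtain ⟨e, he⟩ : ∃ e, AK.card = t + 2 + e := ⟨AK.card - (t + 2), by omega⟩
      obtain ⟨s, hs⟩ : ∃ s, ∑ v ∈ K, l v = (t + 1) * K.card + 1 + s :=
        ⟨∑ v ∈ K, l v - ((t + 1) * K.card + 1), by omega⟩
      have a4 : ∑ w ∈ AK, ∑ v ∈ B w, l v ≤ (t + 1) * K.card + 1 + s := by omega
      rw [hs, he] at a1
      rw [← a3] at a1 a4
      nlinarith [Nat.zero_le (e * R.card), Nat.zero_le (e * s), Nat.zero_le (t * s)]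
  obtain ⟨w, hw, hlt⟩ := main
  obtain ⟨hwA, hne⟩ := mem_filter.mp hw
  refine ⟨w, hwA, hne, ?_⟩
  have hRs : R ⊆ K \ B w := fun v hv =>
    mem_sdiff.mpr ⟨hRK hv, fun hc' => (mem_filter.mp hv).2 w hwA (mem_filter.mp hc').2⟩
  have b1 : ∑ v ∈ K \ B w, l v ≤ ∑ v ∈ K \ B w, (la G K v + (if v ∈ R then 0 else 1)) :=
    sum_le_sum fun v hv => F2 v (mem_sdiff.mp hv).1
  have b2 : ∑ v ∈ K \ B w, (if v ∈ R then 0 else 1) + R.card = (K \ B w).card := by
    rw [← sum_sdiff hRs, sum_congr rfl (g := fun _ => 1) fun v hv => if_neg (mem_sdiff.mp hv).2,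
      sum_congr rfl (g := fun _ => 0) fun v hv => if_pos hv]
    simp only [sum_const, smul_eq_mul, mul_one, mul_zero, add_zero]
    exact card_sdiff_add_card_eq_card hRs
  rw [sum_add_distrib] at b1
  have b3 := sum_sdiff (f := l) (hBK w)
  have b4 := card_sdiff_add_card_eq_card (hBK w)
  show t * (K \ B w).card < ∑ v ∈ K \ B w, la G K v
  rw [← b4] at hlt
  nlinarith

/-- If the average over `D` of the neighbourhood independence number exceeds `t`, there is an
induced path with `t + 2` vertices starting in `A` and continuing in `D`. -/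
theorem pot (hc : C4F G) (t : ℕ) : ∀ (A D : Finset V), Disjoint A D →
    (∀ v ∈ D, ∀ w ∈ A, ∀ w' ∈ A, G.Adj w v → G.Adj w' v → w = w') → Att G A D →
    t * D.card < ∑ v ∈ D, la G (A ∪ D) v →
    ∃ f, IP G f (t + 2) ∧ f 0 ∈ A ∧ ∀ i, 0 < i → i < t + 2 → f i ∈ D := by
  induction t with
  | zero =>
    intro A D hd _ ha h
    have hne : D.Nonempty := by
      rw [nonempty_iff_ne_empty]; rintro rfl; simp at h
    obtain ⟨x, hx, w, hw, hadj⟩ := ha D ⟨Subset.rfl, fun _ _ _ hy _ => hy⟩ hne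
    have h1 : IP G (fun _ => x) 1 := by
      intro i hi j hj
      refine ⟨⟨fun h => (G.irrefl h).elim, fun h => by omega⟩, fun _ => by omega⟩
    refine ⟨cons w (fun _ => x), h1.cons hadj (fun i a b => by omega)
      (fun _ _ => hadj.ne), hw, fun i a _ => ?_⟩
    obtain ⟨j, rfl⟩ : ∃ j, i = j + 1 := ⟨i - 1, by omega⟩
    exact hx
  | succ t ih =>
    intro A D hd hu ha h
    obtain ⟨K, hK, hlt, hirr⟩ := exists_piece (G := G) D (la G (A ∪ D)) (t + 1) h
    have hne : K.Nonempty := by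
      rw [nonempty_iff_ne_empty]; rintro rfl; simp at hlt
    have hdK : Disjoint A K := hd.mono_right hK.1
    have hlt' : (t + 1) * K.card < ∑ v ∈ K, la G (A ∪ K) v := by
      refine hlt.trans_le (sum_le_sum fun v hv => (la_le (A ∪ D) (A ∪ K) v).trans ?_)
      rw [add_le_iff_nonpos_right, Nat.le_zero, card_eq_zero, filter_eq_empty_iff]
      intro x hx hadj
      obtain ⟨a, b⟩ := mem_sdiff.mp hx
      rcases mem_union.mp a with a | a
      · exact b (mem_union_left _ a)
      · exact b (mem_union_right _ (hK.2 v hv x a hadj))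
    obtain ⟨w, hw, hBne, hs⟩ := step hc t A K hdK (fun v hv => hu v (hK.1 hv)) (ha K hK hne) hlt'
    set B := K.filter (G.Adj w) with hB
    have hBK : B ⊆ K := filter_subset _ _
    obtain ⟨f, hf, h0, hi⟩ := ih B (K \ B) disjoint_sdiff
      (by
        intro v hv x hx y hy a b
        have hwv : w ≠ v := fun hc' => disjoint_left.mp hdK hw (hc' ▸ (mem_sdiff.mp hv).1)
        exact hc.uniq hwv (mem_filter.mp hx).2 a.symm (mem_filter.mp hy).2 b.symm)
      (by
        intro K' hK' hne'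
        by_contra hcon
        push Not at hcon
        have : K' = K := hirr K' ⟨hK'.1.trans sdiff_subset, fun x hx y hy hadj => by
          by_cases hyB : y ∈ B
          · exact (hcon x hx y hyB hadj.symm).elim
          · exact hK'.2 x hx y (mem_sdiff.mpr ⟨hy, hyB⟩) hadj⟩ hne'
        obtain ⟨b, hb⟩ := hBne
        exact (mem_sdiff.mp (hK'.1 (this ▸ hBK hb))).2 hb)
      (by rwa [union_sdiff_of_subset hBK])
    have hfK : ∀ i < t + 2, f i ∈ K := fun i hi' => by
      rcases Nat.eq_zero_or_pos i with rfl | hp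
      · exact hBK h0
      · exact (mem_sdiff.mp (hi i hp hi')).1
    refine ⟨cons w f, hf.cons (mem_filter.mp h0).2 (fun i a b hadj => ?_)
      (fun i hi' he => disjoint_left.mp hdK hw (he ▸ hfK i hi')), hw, fun i a b => ?_⟩
    · obtain ⟨c1, c2⟩ := mem_sdiff.mp (hi i a b)
      exact c2 (mem_filter.mpr ⟨c1, hadj⟩)
    · obtain ⟨j, rfl⟩ : ∃ j, i = j + 1 := ⟨i - 1, by omega⟩
      exact hK.1 (hfK j (by omega))

end Pool.Agent.Lib.MP_0d366e_co
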