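import Pool.Agent.Lib.MP_0d366e_co.Bfs

open Finset

namespace Pool.Agent.Lib.MP_0d366e_co

open Classical

variable {V : Type} {G : SimpleGraph V}

/-- Sixteen steps of an induced path that destroy few edges at the part `R` where it continues. -/
def Out (G : SimpleGraph V) (B K : Finset V) : Prop :=
  ∃ x R, R.Nonempty ∧ R ⊆ K ∧ x ∉ R ∧ Att G {x} R ∧
    (∀ m, 1 ≤ m → Ext G {x} R m → Ext G B K (m + 16)) ∧ ∑ y ∈ R, dg G (K \ R) y ≤ 6 * R.card

theorem path_ne {f : ℕ → V} {t : ℕ} (hf : IP G f (t + 1)) {d y : V} (h1 : G.Adj d (f t))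
    (h3 : ¬ G.Adj d y ∧ ∀ i, 1 ≤ i → i ≤ t → ¬ G.Adj (f i) y) {i : ℕ} (hi : i ≤ t) : f i ≠ y := by
  intro he
  rcases Nat.lt_or_ge i t with a | a
  · refine h3.2 (i + 1) (by omega) a ?_
    rw [← he]
    exact (hf _ (by omega) _ (by omega)).1.mpr (by omega)
  · exact h3.1 (by rw [← he, show i = t by omega]; exact h1)

theorem nb_weight (S K : Finset V) (f : V → ℕ) :
    ∑ v ∈ K.filter (fun v => ∃ c ∈ S, G.Adj c v), f v ≤
      ∑ c ∈ S, ∑ v ∈ K.filter (G.Adj c), f v := by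
  rw [sum_nb]
  refine le_trans (sum_le_sum fun v hv => ?_) (sum_le_sum_of_subset (filter_subset
    (fun v => ∃ c ∈ S, G.Adj c v) K))
  obtain ⟨c, a, b⟩ := (mem_filter.mp hv).2
  exact Nat.le_mul_of_pos_right _ (card_pos.mpr ⟨c, mem_filter.mpr ⟨a, b.symm⟩⟩)

theorem geo_case (hc : C4F G) {B K : Finset V} (hd : Disjoint B K) {d z : V} (hdB : d ∈ B)
    (hz : z ∈ K) (hdz : G.Adj d z) {U : Finset V} {lv : V → ℕ} {par : V → V}
    (h : Bfs G (insert z (K.filter (fun y => ¬ G.Adj d y))) z U lv par) {b : V} (hb : b ∈ U)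
    (hl : 16 ≤ lv b) : Out G B K := by
  have hSK : insert z (K.filter (fun y => ¬ G.Adj d y)) ⊆ K := insert_subset hz (filter_subset _ _)
  have hUK : U ⊆ K := h.sub.trans hSK
  have hnd : ∀ v ∈ U, lv v ≠ 0 → ¬ G.Adj d v := by
    intro v hv h0
    rcases mem_insert.mp (h.sub hv) with a | a
    · rw [a, h.lv0] at h0; exact (h0 rfl).elim
    · exact (mem_filter.mp a).2
  obtain ⟨b1, b2⟩ := h.iter hb (lv b - 16)
  set b' := par^[lv b - 16] b with hb'
  have b3 : lv b' = 16 := by omega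
  obtain ⟨x1, x2, x3⟩ := h.step b' b1 (fun he => by rw [he, h.lv0] at b3; omega)
  set x := par b' with hx
  have x4 : lv x = 15 := by omega
  set f : ℕ → V := fun i => par^[i] x with hf
  have f1 : IP G f (15 + 1) := x4 ▸ h.ip x1
  have f2 : ∀ i, f i ∈ U ∧ lv (f i) = 15 - i := fun i => x4 ▸ h.iter x1 i
  have f3 : G.Adj d (f 15) := by rw [h.eq_root (f2 15).1 (f2 15).2]; exact hdz
  obtain ⟨D, hD⟩ : ∃ D : Finset V, ∀ y, y ∈ D ↔ y ∈ U ∧ ¬ G.Adj d y ∧
      ∀ i, 1 ≤ i → i ≤ 15 → ¬ G.Adj (f i) y :=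
    ⟨@Finset.filter V _ (fun _ => propDecidable _) U,
      fun x => @mem_filter V _ (fun _ => propDecidable _) U x⟩
  obtain ⟨R, r1, r2, r3⟩ := exists_att (G := G) {x} D
  have hRU : ∀ y ∈ R, y ∈ U := fun y hy => ((hD y).mp (r1.1 hy)).1
  have hRn := fun y (hy : y ∈ R) => ((hD y).mp (r1.1 hy)).2
  refine ⟨x, R, ⟨b', r3 b' ((hD b').mpr ⟨b1, hnd b' b1 (by omega), fun i a _ ha => ?_⟩)
    ⟨x, mem_singleton_self x, x2.symm⟩⟩, fun y hy => hUK (hRU y hy),
    fun hx' => path_ne f1 f3 (hRn x hx') (Nat.zero_le _) rfl, r2,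
    fun m hm he => Ext.glue hd f1 (fun i _ => hUK (f2 i).1) hdB f3
      (fun i hi => hnd _ (f2 i).1 (by rw [(f2 i).2]; omega)) (fun y hy => hUK (hRU y hy)) hRn hm he,
    ?_⟩
  · have := h.lip _ (f2 i).1 _ (h.sub b1) ha
    rw [(f2 i).2] at this
    omega
  · rw [mul_comm, ← smul_eq_mul, ← sum_const]
    refine sum_le_sum fun y hy => ?_
    refine (card_hit hc y _ (fun i => if i = 0 then d else f i)
      ((range 16).filter (fun i => i = 0 ∨ (13 ≤ lv y + i ∧ lv y + i ≤ 17))) (fun i hi => ?_)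
      (fun c hc' => ?_)).trans ?_
    · split_ifs with h0
      · exact fun he => disjoint_left.mp hd hdB (he ▸ hUK (hRU y hy))
      · exact path_ne f1 f3 (hRn y hy) (by have := mem_range.mp (mem_filter.mp hi).1; omega)
    · obtain ⟨c1, c2⟩ := mem_filter.mp hc'
      obtain ⟨c3, c4⟩ := mem_sdiff.mp c1
      refine ⟨c2, ?_⟩
      by_cases hdc : G.Adj d c
      · exact ⟨0, by simp, by simpa using hdc⟩
      · have c5 : c ∈ insert z (K.filter (fun y => ¬ G.Adj d y)) :=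
          mem_insert_of_mem (mem_filter.mpr ⟨c3, hdc⟩)
        have c6 := h.cl y (hRU y hy) c c5 c2
        have c7 : c ∉ D := fun hcD => c4 (r1.2 y hy c hcD c2)
        rw [hD] at c7
        push Not at c7
        obtain ⟨i, i1, i2, i3⟩ := c7 c6 hdc
        have l1 := h.lip y (hRU y hy) c c5 c2
        have l2 := h.lip c c6 y (h.sub (hRU y hy)) c2.symm
        have l3 := h.lip _ (f2 i).1 c c5 i3
        have l4 := h.lip c c6 _ (h.sub (f2 i).1) i3.symm
        rw [(f2 i).2] at l3 l4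
        refine ⟨i, mem_filter.mpr ⟨mem_range.mpr (by omega), Or.inr (by omega)⟩, ?_⟩
        rw [if_neg (by omega)]
        exact i3
    · refine (card_le_card (t := insert 0 (Icc (13 - lv y) (17 - lv y))) fun i hi => ?_).trans ?_
      · rcases (mem_filter.mp hi).2 with a | a
        · rw [a]; exact mem_insert_self _ _
        · exact mem_insert_of_mem (mem_Icc.mpr (by omega))
      · refine (card_insert_le _ _).trans ?_
        rw [Nat.card_Icc]
        omega

theorem shallow (hc : C4F G) {B K : Finset V} (hd : Disjoint B K)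
    (hu : ∀ v ∈ K, ∀ w ∈ B, ∀ w' ∈ B, G.Adj w v → G.Adj w' v → w = w') (hirr : Irr G K)
    {δ : ℕ} (hδ : ∀ v ∈ K, δ + 1 ≤ dg G K v) (h0 : 200 ≤ δ)
    (hcov : K.card ≤ 4 * (K.filter (fun v => ∃ c ∈ B, G.Adj c v)).card) (hno : ¬ Out G B K)
    {ρ : V} {lv : V → ℕ} {par : V → V} (h : Bfs G K ρ K lv par) : ∀ v ∈ K, lv v ≤ 30 := by
  intro v hv
  by_contra hcon
  obtain ⟨b1, b2⟩ := h.iter hv (lv v - 31)
  set b := par^[lv v - 31] v with hb
  have b3 : lv b = 31 := by omega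
  set P := (range 32).image (fun i => par^[i] b) with hP
  have hPK : P ⊆ K := fun c hc' => by
    obtain ⟨i, -, rfl⟩ := mem_image.mp hc'
    exact (h.iter b1 i).1
  set B' := B.filter (fun d => (K.filter (G.Adj d)).Nonempty) with hB'
  have c1 : (B'.filter (fun d => ∃ c ∈ P, G.Adj d c)).card ≤ P.card := by
    have key : ∀ d ∈ B'.filter (fun d => ∃ c ∈ P, G.Adj d c), ∃ c ∈ P, G.Adj d c :=
      fun d hd' => (mem_filter.mp hd').2
    choose! φ h1 h2 using key
    refine card_le_card_of_injOn φ (fun y hy => h1 y hy) fun y hy z hz he => ?_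
    exact hu _ (hPK (h1 y hy)) y (mem_filter.mp (mem_filter.mp hy).1).1 z
      (mem_filter.mp (mem_filter.mp hz).1).1 (h2 y hy) (he ▸ h2 z hz)
  have c2 : P.card ≤ 32 := card_image_le.trans (by simp)
  have c3 : (K.filter (fun v => ∃ c ∈ B, G.Adj c v)).card ≤ ∑ d ∈ B', dg G K d := by
    refine le_trans (card_le_card fun y hy => ?_) (card_biUnion_le (s := B')
      (t := fun d => K.filter (G.Adj d)))
    obtain ⟨a, c, c1, c2⟩ := mem_filter.mp hy
    have : y ∈ K.filter (G.Adj c) := mem_filter.mpr ⟨a, c2⟩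
    exact mem_biUnion.mpr ⟨c, mem_filter.mpr ⟨c1, y, this⟩, this⟩
  have c4 : δ * ∑ d ∈ B', dg G K d ≤ B'.card * K.card := by
    rw [mul_sum, ← smul_eq_mul, ← sum_const]
    exact sum_le_sum fun d _ => maxdeg hc K hδ d
  have c5 : 0 < K.card := card_pos.mpr ⟨v, hv⟩
  have c6 : δ ≤ 4 * B'.card := by
    refine Nat.le_of_mul_le_mul_right ?_ c5
    have := Nat.mul_le_mul_left δ (hcov.trans (Nat.mul_le_mul_left 4 c3))
    nlinarith
  obtain ⟨d, d1, d2⟩ : ∃ d ∈ B', d ∉ B'.filter (fun d => ∃ c ∈ P, G.Adj d c) :=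
    exists_mem_notMem_of_card_lt_card (by omega)
  obtain ⟨d3, a, ha⟩ := mem_filter.mp d1
  set K' := K.filter (fun y => ¬ G.Adj d y) with hK'
  have hPK' : ∀ i ≤ 31, par^[i] b ∈ K' := fun i hi => by
    have : par^[i] b ∈ P := mem_image.mpr ⟨i, mem_range.mpr (by omega), rfl⟩
    exact mem_filter.mpr ⟨hPK this, fun ha => d2 (mem_filter.mpr ⟨d1, _, this, ha⟩)⟩
  obtain ⟨Y, y1, y2, y3⟩ := exists_comp (G := G) K' (hPK' 0 (by omega))
  have y4 : ρ ∈ Y := (h.chain y1.2 b1 (by rw [b3]; exact hPK')).mp y2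
  obtain ⟨y, y5, z, z1, z2, z3⟩ : ∃ y ∈ Y, ∃ z ∈ K, G.Adj y z ∧ z ∉ Y := by
    by_contra hcon'
    push Not at hcon'
    have := hirr Y ⟨y1.1.trans (filter_subset _ _), hcon'⟩ ⟨ρ, y4⟩
    obtain ⟨a1, a2⟩ := mem_filter.mp ha
    exact (mem_filter.mp (y1.1 (this ▸ a1))).2 a2
  have z4 : G.Adj d z := by
    by_contra hn
    exact z3 (y1.2 y y5 z (mem_filter.mpr ⟨z1, hn⟩) z2)
  obtain ⟨U, lv', par', h'⟩ := exists_bfs (G := G) (insert z K') (mem_insert_self z K')
  have hl : ∀ u ∈ U, lv' u ≤ 15 := fun u hu' => by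
    by_contra hn
    exact hno (geo_case hc hd d3 z1 z4 h' hu' (by omega))
  have hYU : Y ⊆ U := y3.subset (fun x hx w hw ha' => h'.cl x hx w (mem_insert_of_mem (y1.1 hw)) ha')
    y5 (h'.cl z h'.root y (mem_insert_of_mem (y1.1 y5)) z2.symm)
  have hSK : insert z K' ⊆ K := insert_subset z1 (filter_subset _ _)
  have e1 := (h'.lipschitz lv (fun x hx w hw => h.lip x (hSK hx) w (hSK hw)) (hYU y2)).1
  have e2 := (h'.lipschitz lv (fun x hx w hw => h.lip x (hSK hx) w (hSK hw)) (hYU y4)).2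
  have e3 := hl _ (hYU y2)
  have e4 := hl _ (hYU y4)
  have e5 := h.lv0
  simp only [Function.iterate_zero, id] at e1 e3
  omega

/-- Peeling: a set of large total degree can be reached by long walks avoiding `W`. -/
theorem peel (K W T0 : Finset V) (hW : W ⊆ K) (h0 : T0 ⊆ K \ W) (F : ℕ) :
    ∃ T : ℕ → Finset V, T 0 = T0 ∧ (∀ j, T j ⊆ K \ W) ∧
      (∀ j, ∀ v ∈ T (j + 1), F < dg G (T j) v) ∧
      ∀ j, ∑ v ∈ T0, dg G K v ≤ ∑ v ∈ T j, dg G K v + j * (∑ v ∈ W, dg G K v + F * K.card) := by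
  set T : ℕ → Finset V := fun j => Nat.rec T0 (fun _ S => (K \ W).filter (fun v => F < dg G S v)) j
    with hT
  have t1 : ∀ j, T (j + 1) = (K \ W).filter (fun v => F < dg G (T j) v) := fun j => rfl
  have t2 : ∀ j, T j ⊆ K \ W := by
    intro j
    rcases j with _ | j
    · exact h0
    · exact filter_subset _ _
  refine ⟨T, rfl, t2, fun j v hv => by rw [t1] at hv; exact (mem_filter.mp hv).2, fun j => ?_⟩
  induction j with
  | zero => simp [hT]
  | succ j ih =>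
    have hK : T j ⊆ K := (t2 j).trans sdiff_subset
    have a1 := sum_dg_comm (G := G) (T j) K
    rw [← sum_sdiff hW, ← sum_sdiff (t2 (j + 1))] at a1
    have a2 : ∑ v ∈ W, dg G (T j) v ≤ ∑ v ∈ W, dg G K v := sum_le_sum fun v _ => dg_mono hK v
    have a3 : ∑ v ∈ T (j + 1), dg G (T j) v ≤ ∑ v ∈ T (j + 1), dg G K v :=
      sum_le_sum fun v _ => dg_mono hK v
    have a4 : ∑ v ∈ (K \ W) \ T (j + 1), dg G (T j) v ≤ ∑ v ∈ (K \ W) \ T (j + 1), F := by
      refine sum_le_sum fun v hv => ?_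
      obtain ⟨a, b⟩ := mem_sdiff.mp hv
      by_contra hn
      exact b (by rw [t1]; exact mem_filter.mpr ⟨a, by omega⟩)
    rw [sum_const, smul_eq_mul] at a4
    have a5 : ((K \ W) \ T (j + 1)).card ≤ K.card := card_le_card (sdiff_subset.trans sdiff_subset)
    have a6 := Nat.mul_le_mul_right F a5
    nlinarith

end Pool.Agent.Lib.MP_0d366e_co
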