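import Pool.Agent.Lib.MP_0d366e_co.Grs

open Finset

namespace Pool.Agent.Lib.MP_0d366e_co

open Classical

variable {V : Type} {G : SimpleGraph V}

/-- `B` is a component of `T - S` with a neighbour in `S`. -/
def Br (G : SimpleGraph V) (T S B : Finset V) : Prop :=
  Cl G (T \ S) B ∧ Irr G B ∧ ∃ x ∈ B, ∃ w ∈ S, G.Adj w x

theorem comp_disj {D B B' : Finset V} (h : Cl G D B) (hi : Irr G B) (h' : Cl G D B')
    (hi' : Irr G B') (hne : B ≠ B') : Disjoint B B' := by
  rw [disjoint_left]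
  intro v a b
  exact hne (Subset.antisymm (hi.subset (fun x hx y hy => h'.2 x hx y (h.1 hy)) a b)
    (hi'.subset (fun x hx y hy => h.2 x hx y (h'.1 hy)) b a))

theorem Br.disj {T S B B' : Finset V} (h : Br G T S B) (h' : Br G T S B') (hne : B ≠ B') :
    Disjoint B B' := comp_disj h.1 h.2.1 h'.1 h'.2.1 hne

theorem Br.anti {T S B B' : Finset V} (h : Br G T S B) (h' : Br G T S B') (hne : B ≠ B')
    {x y : V} (hx : x ∈ B) (hy : y ∈ B') : x ≠ y ∧ ¬ G.Adj x y :=
  ⟨fun he => disjoint_left.mp (h.disj h' hne) hx (he ▸ hy),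
    fun ha => disjoint_left.mp (h.disj h' hne) (h.1.2 x hx y (h'.1.1 hy) ha) hy⟩

theorem Br.notMem {T S B : Finset V} (h : Br G T S B) {x : V} (hx : x ∈ B) : x ∉ S :=
  (mem_sdiff.mp (h.1.1 hx)).2

/-- A large connected set without long paths falls into many components after the removal of
few vertices. -/
theorem td (M j : ℕ) : ∃ n, ∀ (V : Type) (G : SimpleGraph V) (K : Finset V) (v : V), Irr G K →
    v ∈ K → (¬ ∃ g, g 0 = v ∧ Pth G g (j + 1) ∧ ∀ i < j + 1, g i ∈ K) → n ≤ K.card →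
    ∃ S ⊆ K, S.card ≤ j ∧ ∃ F : Finset (Finset V), M ≤ F.card ∧ ∀ B ∈ F, Br G K S B := by
  induction j with
  | zero =>
    refine ⟨0, fun V G K v _ hv h _ => (h ⟨fun _ => v, rfl, ⟨fun i hi => by omega,
      fun i hi j hj _ => by omega⟩, fun _ _ => hv⟩).elim⟩
  | succ j ih =>
    obtain ⟨n, hn⟩ := ih
    refine ⟨M * n + 2, fun V G K v hK hv h hc => ?_⟩
    set F := (K \ {v}).powerset.filter (fun B => Cl G (K \ {v}) B ∧ Irr G B ∧ B.Nonempty) with hF
    have hbr : ∀ B ∈ F, Br G K {v} B := by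
      intro B hB
      obtain ⟨-, a, b, c⟩ := mem_filter.mp hB
      refine ⟨a, b, ?_⟩
      by_contra hcon
      push Not at hcon
      have : B = K := hK B ⟨a.1.trans sdiff_subset, fun x hx y hy ha => a.2 x hx y
        (mem_sdiff.mpr ⟨hy, fun he => hcon x hx y he ha.symm⟩) ha⟩ c
      exact (mem_sdiff.mp (a.1 (this ▸ hv))).2 (mem_singleton_self v)
    by_cases hM : M ≤ F.card
    · exact ⟨{v}, by simpa using hv, by simp, F, hM, hbr⟩
    have hex : ∃ C ∈ F, n ≤ C.card := by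
      by_contra hcon
      push Not at hcon
      have h1 : K \ {v} ⊆ F.biUnion id := by
        intro x hx
        obtain ⟨C, a, b, c⟩ := exists_comp (G := G) _ hx
        exact mem_biUnion.mpr ⟨C, mem_filter.mpr ⟨mem_powerset.mpr a.1, a, c, x, b⟩, b⟩
      have h2 := card_le_card h1
      have h3 := card_biUnion_le_card_mul F id n (fun C hC => (hcon C hC).le)
      have h4 : F.card * n ≤ M * n := Nat.mul_le_mul_right n (by omega)
      have h5 := card_sdiff_add_card_eq_card (show {v} ⊆ K by simpa using hv)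
      rw [card_singleton] at h5
      omega
    obtain ⟨C, hC, hCn⟩ := hex
    obtain ⟨c1, c2, x, hx, w, hw, ha⟩ := hbr C hC
    rw [mem_singleton.mp hw] at ha
    have hvC : ∀ y ∈ C, y ∈ K ∧ y ≠ v := fun y hy => by simpa using c1.1 hy
    obtain ⟨S, hS, hSj, F', hF', hB⟩ := hn V G C x c2 hx (by
      rintro ⟨g, g0, ⟨g1, g2⟩, g3⟩
      refine h ⟨cons v g, rfl, ⟨fun i hi => ?_, fun i hi i' hi' he => ?_⟩, fun i hi => ?_⟩
      · rcases i with _ | i
        · show G.Adj v (g 0)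
          exact g0 ▸ ha
        · exact g1 i (by omega)
      · rcases i with _ | i <;> rcases i' with _ | i'
        · rfl
        · exact ((hvC _ (g3 i' (by omega))).2 he.symm).elim
        · exact ((hvC _ (g3 i (by omega))).2 he).elim
        · rw [g2 i (by omega) i' (by omega) he]
      · rcases i with _ | i
        · exact hv
        · exact (hvC _ (g3 i (by omega))).1) hCn
    refine ⟨insert v S, insert_subset hv fun y hy => (hvC y (hS hy)).1,
      (card_insert_le _ _).trans (by omega), F', hF', fun B hB' => ?_⟩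
    obtain ⟨b1, b2, y, hy, w', hw', ha'⟩ := hB B hB'
    refine ⟨⟨fun z hz => ?_, fun z hz z' hz' hadj => ?_⟩, b2, y, hy, w', mem_insert_of_mem hw', ha'⟩
    · obtain ⟨a, b⟩ := mem_sdiff.mp (b1.1 hz)
      exact mem_sdiff.mpr ⟨(hvC z a).1, by simp [(hvC z a).2, b]⟩
    · obtain ⟨a, b⟩ := mem_sdiff.mp hz'
      rw [mem_insert, not_or] at b
      exact b1.2 z hz z' (mem_sdiff.mpr ⟨c1.2 z (mem_sdiff.mp (b1.1 hz)).1 z'
        (mem_sdiff.mpr ⟨a, by simp [b.1]⟩) hadj, b.2⟩) hadj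

/-- The two facts combined. -/
theorem many (k : ℕ) : ∃ j, ∀ M, ∃ n, ∀ (V : Type) (G : SimpleGraph V) (K : Finset V), C4F G →
    (¬ ∃ f, IP G f k) → Irr G K → n ≤ K.card →
    ∃ S ⊆ K, S.card ≤ j ∧ ∃ F : Finset (Finset V), M ≤ F.card ∧ ∀ B ∈ F, Br G K S B := by
  obtain ⟨j, hj⟩ := grs k
  refine ⟨j, fun M => ?_⟩
  obtain ⟨n, hn⟩ := td M j
  refine ⟨n + 1, fun V G K hc hk hK hcard => ?_⟩
  obtain ⟨v, hv⟩ := card_pos.mp (show 0 < K.card by omega)
  refine hn V G K v hK hv ?_ (by omega)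
  rintro ⟨g, -, ⟨g1, g2⟩, -⟩
  exact hk (hj V G hc ⟨g, fun i hi => g1 i (by omega),
    fun i hi i' hi' => g2 i (by omega) i' (by omega)⟩)

end Pool.Agent.Lib.MP_0d366e_co
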