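import Pool.Agent.Lib.MP_0d366e_co.Branch
import Pool.Agent.Lib.MP_0d366e_co.Td
import Pool.Agent.Lib.MP_0d366e_co.Ess
import Pool.Agent.Lib.MP_0d366e_co.Large

open Finset

namespace Pool.Agent.Lib.MP_0d366e_co

open Classical

variable {V : Type} {G : SimpleGraph V}

/-- Two induced paths from the same vertex into sets without edges between them. -/
theorem join {h : V} {B B' : Finset V} (hb : ∀ x ∈ B, ∀ y ∈ B', x ≠ y ∧ ¬ G.Adj x y) {a b : ℕ}
    (e : Ext G {h} B (a + 1)) (e' : Ext G {h} B' (b + 2)) : ∃ f, IP G f (a + b + 2) := by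
  obtain ⟨g, hg, g0, gi⟩ := e
  obtain ⟨f, hf, f0, fi⟩ := e'
  have e0 : g 0 = f 0 := by rw [mem_singleton.mp g0, mem_singleton.mp f0]
  obtain ⟨F, hF, -⟩ := (IP.shift (k := b + 1) 1 (hf.mono (by omega))).prepend (by omega) a hg
    (by rw [e0]; exact (hf 0 (by omega) (1 + 0) (by omega)).1.mpr (by omega)) (by
      intro i hi j hj
      rcases Nat.eq_zero_or_pos i with rfl | hp
      · rw [e0]
        have := hf 0 (by omega) (1 + j) (by omega)
        exact ⟨fun he => by have := this.2 he; omega, fun ha => by have := this.1.mp ha; omega⟩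
      · have := hb _ (gi i hp (by omega)) _ (fi (1 + j) (by omega) (by omega))
        exact ⟨this.1, fun ha => (this.2 ha).elim⟩)
  exact ⟨F, hF.mono (by omega)⟩

theorem Ext.front {h u : V} {B : Finset V} {n : ℕ} (e : Ext G {h} B (n + 1)) (ha : G.Adj u h)
    (hb : ∀ y ∈ B, u ≠ y ∧ ¬ G.Adj u y) : Ext G {u} (insert h B) (n + 2) := by
  obtain ⟨f, hf, f0, fi⟩ := e
  have e0 := mem_singleton.mp f0
  refine ⟨cons u f, hf.cons (e0 ▸ ha) (fun i a b => (hb _ (fi i a b)).2) (fun i hi => ?_),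
    mem_singleton_self u, fun i a b => ?_⟩
  · rcases Nat.eq_zero_or_pos i with rfl | hp
    · exact e0 ▸ ha.ne
    · exact (hb _ (fi i hp hi)).1
  · obtain ⟨j, rfl⟩ : ∃ j, i = j + 1 := ⟨i - 1, by omega⟩
    show f j ∈ insert h B
    rcases Nat.eq_zero_or_pos j with rfl | hp
    · exact e0 ▸ mem_insert_self _ _
    · exact mem_insert_of_mem (fi j hp (by omega))

/-- Three components of the same type give the long path. -/
theorem glue {T S B1 B2 B3 : Finset V} (b1 : Br G T S B1) (b2 : Br G T S B2) (b3 : Br G T S B3)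
    (n12 : B1 ≠ B2) (n13 : B1 ≠ B3) (n23 : B2 ≠ B3) {h1 h2 : V} (a1 : h1 ∈ S) (a2 : h2 ∈ S)
    {m : ℕ} (t1 : Ty G m B1 h1 h2) (t2 : Ty G m B2 h1 h2) (t3 : Ty G m B3 h1 h2) :
    ∃ f, IP G f (2 * m + 6) := by
  by_cases he : h1 = h2
  · have e1 := (t1.resolve_right fun h => h.1 he).2
    have e2 := (t2.resolve_right fun h => h.1 he).2
    obtain ⟨f, hf⟩ := join (a := m + 3) (b := m + 2) (fun x hx y hy => b1.anti b2 n12 hx hy) e1 e2
    exact ⟨f, hf.mono (by omega)⟩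
  obtain ⟨-, hna, -, e1, -⟩ := t1.resolve_left fun h => he h.1
  obtain ⟨-, -, ⟨v, hv, v', hv', c1, c2, c3, c4, c5⟩, -, -⟩ := t2.resolve_left fun h => he h.1
  obtain ⟨-, -, -, -, e3⟩ := t3.resolve_left fun h => he h.1
  have s1 := e3.front (n := m + 1) c3.symm fun y hy => b2.anti b3 n23 hv' (mem_sdiff.mp hy).1
  have s2 := s1.front (n := m + 2) c2 fun y hy => by
    rcases mem_insert.mp hy with rfl | hy
    · exact ⟨fun h => b2.notMem hv (h ▸ a2), fun h => c5 h.symm⟩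
    · exact b2.anti b3 n23 hv (mem_sdiff.mp hy).1
  have s3 := s2.front (n := m + 3) c1 fun y hy => by
    rcases mem_insert.mp hy with rfl | hy
    · exact ⟨fun h => b2.notMem hv' (h ▸ a1), c4⟩
    rcases mem_insert.mp hy with rfl | hy
    · exact ⟨he, hna⟩
    · obtain ⟨d1, d2⟩ := mem_sdiff.mp hy
      exact ⟨fun h => b3.notMem d1 (h ▸ a1), fun h => d2 (mem_filter.mpr ⟨d1, h⟩)⟩
  obtain ⟨f, hf⟩ := join (a := m + 1) (b := m + 3) (fun x hx y hy => by
    obtain ⟨d1, d2⟩ := mem_sdiff.mp hx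
    rcases mem_insert.mp hy with rfl | hy
    · exact b1.anti b2 n12 d1 hv
    rcases mem_insert.mp hy with rfl | hy
    · exact b1.anti b2 n12 d1 hv'
    rcases mem_insert.mp hy with rfl | hy
    · exact ⟨fun h => b1.notMem d1 (h ▸ a2), fun h => d2 (mem_filter.mpr ⟨d1, h.symm⟩)⟩
    · exact b1.anti b3 n13 d1 (mem_sdiff.mp hy).1) e1 s3
  exact ⟨f, hf.mono (by omega)⟩

theorem la_add {T B : Finset V} (v : V) : la G T v ≤ la G (T \ B) v + la G B v := by
  obtain ⟨I, hI, hn, he⟩ := exists_la (G := G) T v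
  rw [← he, ← card_sdiff_add_card_inter I B]
  exact Nat.add_le_add (le_la (sdiff_subset_sdiff hI Subset.rfl) (hn.subset sdiff_subset))
    (le_la inter_subset_right (hn.subset inter_subset_left))

/-- The cost of deleting a union of components of `T - S`. -/
theorem rem1 {T S B : Finset V} (h : Cl G (T \ S) B) : ∑ v ∈ T, la G T v ≤
    ∑ v ∈ T \ B, la G (T \ B) v + (∑ v ∈ B, la G (S ∪ B) v + ∑ s ∈ S, la G B s) := by
  have hBT : B ⊆ T := h.1.trans sdiff_subset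
  have a1 := sum_sdiff (f := la G T) hBT
  have a2 : ∑ v ∈ B, la G T v ≤ ∑ v ∈ B, la G (S ∪ B) v := sum_le_sum fun v hv =>
    la_le_of' fun x hx ha => by
      by_cases hS : x ∈ S
      · exact mem_union_left _ hS
      · exact mem_union_right _ (h.2 v hv x (mem_sdiff.mpr ⟨hx, hS⟩) ha)
  have a3 : ∑ v ∈ T \ B, la G T v ≤
      ∑ v ∈ T \ B, (la G (T \ B) v + if v ∈ S then la G B v else 0) := sum_le_sum fun v hv => by
    obtain ⟨c1, c2⟩ := mem_sdiff.mp hv
    split_ifs with hS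
    · exact la_add v
    · exact la_le_of' fun x hx ha => mem_sdiff.mpr ⟨hx, fun hB =>
        c2 (h.2 x hB v (mem_sdiff.mpr ⟨c1, hS⟩) ha.symm)⟩
  rw [sum_add_distrib, ← sum_filter] at a3
  have a4 : ∑ v ∈ (T \ B).filter (· ∈ S), la G B v ≤ ∑ s ∈ S, la G B s :=
    sum_le_sum_of_subset fun x hx => (mem_filter.mp hx).2
  omega

theorem rem {S : Finset V} (L : ℕ) (F : Finset (Finset V)) : ∀ T : Finset V,
    (∀ B ∈ F, Cl G (T \ S) B) → (∀ B ∈ F, ∀ B' ∈ F, B ≠ B' → Disjoint B B') →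
    (∀ B ∈ F, ∑ v ∈ B, la G (S ∪ B) v + ∑ s ∈ S, la G B s < L * B.card) →
    ∃ T' : Finset V, ∑ v ∈ T, la G T v + L * T'.card + F.card ≤
      ∑ v ∈ T', la G T' v + L * T.card := by
  induction F using Finset.induction_on with
  | empty => exact fun T _ _ _ => ⟨T, by simp⟩
  | insert B F hB ih =>
    intro T h1 h2 h3
    have hc := h1 B (mem_insert_self _ _)
    obtain ⟨T', hT⟩ := ih (T \ B) (fun B' hB' => by
      have c := h1 B' (mem_insert_of_mem hB')
      have d := h2 B' (mem_insert_of_mem hB') B (mem_insert_self _ _) (fun he => hB (he ▸ hB'))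
      refine ⟨fun x hx => ?_, fun x hx y hy => c.2 x hx y ?_⟩
      · obtain ⟨a, b⟩ := mem_sdiff.mp (c.1 hx)
        exact mem_sdiff.mpr ⟨mem_sdiff.mpr ⟨a, disjoint_left.mp d hx⟩, b⟩
      · obtain ⟨a, b⟩ := mem_sdiff.mp hy
        exact mem_sdiff.mpr ⟨(mem_sdiff.mp a).1, b⟩)
      (fun a ha b hb => h2 a (mem_insert_of_mem ha) b (mem_insert_of_mem hb))
      (fun a ha => h3 a (mem_insert_of_mem ha))
    refine ⟨T', ?_⟩
    have a1 := rem1 hc
    have a2 := h3 B (mem_insert_self _ _)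
    have a3 := card_sdiff_add_card_eq_card (hc.1.trans sdiff_subset)
    rw [card_insert_of_notMem hB, ← a3, Nat.mul_add]
    omega

/-- Many components hanging on a small set in an almost densest set. -/
theorem core (hc : C4F G) {T S : Finset V} {F : Finset (Finset V)} {m j w : ℕ} (hj : S.card ≤ j)
    (hF : ∀ B ∈ F, Br G T S B) (hM : w + (4 * j * j + 1) ≤ F.card)
    (hw : ∀ T' : Finset V, ∑ v ∈ T', la G T' v + (m + 3) * T.card ≤
      ∑ v ∈ T, la G T v + (m + 3) * T'.card + w) : ∃ f, IP G f (2 * m + 6) := by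
  set P : Finset V → Prop := fun B =>
    ∑ v ∈ B, la G (S ∪ B) v + ∑ s ∈ S, la G B s < (m + 3) * B.card with hP
  obtain ⟨T', hT⟩ := rem (G := G) (S := S) (m + 3) (F.filter P) T
    (fun B hB => (hF B (mem_filter.mp hB).1).1)
    (fun B hB B' hB' => (hF B (mem_filter.mp hB).1).disj (hF B' (mem_filter.mp hB').1))
    (fun B hB => (mem_filter.mp hB).2)
  have a1 := hw T'
  have a2 := card_filter_add_card_filter_not (s := F) P
  have key : ∀ B ∈ F.filter (fun B => ¬ P B), ∃ p ∈ (S ×ˢ S) ×ˢ (univ : Finset Bool),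
      (p.2 = true ∧ Ty G m B p.1.1 p.1.2) ∨
        (p.2 = false ∧ p.1.1 ≠ p.1.2 ∧ ∃ v ∈ B, G.Adj p.1.1 v ∧ G.Adj p.1.2 v) := by
    intro B hB
    obtain ⟨b1, b2⟩ := mem_filter.mp hB
    have hb := hF B b1
    by_cases hs : ∀ v ∈ B, ∀ w ∈ S, ∀ w' ∈ S, G.Adj w v → G.Adj w' v → w = w'
    · obtain ⟨h1, c1, h2, c2, c3⟩ := branch hc (disjoint_left.mpr fun x hx h => hb.notMem h hx)
        hb.2.1 hb.2.2 hs (not_lt.mp b2)
      exact ⟨((h1, h2), true), by simp [c1, c2], Or.inl ⟨rfl, c3⟩⟩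
    · push Not at hs
      obtain ⟨v, c0, h1, c1, h2, c2, c3, c4, c5⟩ := hs
      exact ⟨((h1, h2), false), by simp [c1, c2], Or.inr ⟨rfl, c5, v, c0, c3, c4⟩⟩
  obtain ⟨B0, hB0⟩ := card_pos.mp (show 0 < F.card by omega)
  have : Nonempty V := ⟨(hF B0 hB0).2.2.choose⟩
  choose! φ hφ hφ' using key
  have big : ((S ×ˢ S) ×ˢ (univ : Finset Bool)).card * 2 < (F.filter (fun B => ¬ P B)).card := by
    rw [card_product, card_product, card_univ, Fintype.card_bool]
    have := Nat.mul_le_mul hj hj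
    nlinarith
  obtain ⟨p, hp, hlt⟩ := exists_lt_card_fiber_of_mul_lt_card_of_maps_to hφ big
  obtain ⟨B1, B2, B3, m1, m2, m3, n12, n13, n23⟩ := two_lt_card_iff.mp hlt
  obtain ⟨u1, e1⟩ := mem_filter.mp m1
  obtain ⟨u2, e2⟩ := mem_filter.mp m2
  obtain ⟨u3, e3⟩ := mem_filter.mp m3
  have t1 := hφ' B1 u1
  have t2 := hφ' B2 u2
  have t3 := hφ' B3 u3
  rw [e1] at t1
  rw [e2] at t2
  rw [e3] at t3
  have b1 := hF B1 (mem_filter.mp u1).1
  have b2 := hF B2 (mem_filter.mp u2).1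
  have b3 := hF B3 (mem_filter.mp u3).1
  obtain ⟨s1, s2⟩ := mem_product.mp (mem_product.mp hp).1
  rcases hb : p.2 with _ | _
  · simp only [hb, Bool.false_eq_true, false_and, false_or, true_and] at t1 t2
    obtain ⟨hne, v, c0, c1, c2⟩ := t1
    obtain ⟨-, v', d0, d1, d2⟩ := t2
    exact ((b1.anti b2 n12 c0 d0).1 (hc.uniq hne c1 c2 d1 d2)).elim
  · simp only [hb, Bool.true_eq_false, false_and, or_false, true_and] at t1 t2 t3
    exact glue b1 b2 b3 n12 n13 n23 s1 s2 t1 t2 t3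

theorem irr_univ [Fintype V] (hG : G.Connected) : Irr G univ := by
  intro K hK ⟨x, hx⟩
  have key : ∀ a b : V, G.Walk a b → a ∈ K → b ∈ K := by
    intro a b p
    induction p with
    | nil => exact id
    | @cons a c b hadj p ih => exact fun ha => ih (hK.2 a ha c (mem_univ _) hadj)
  refine eq_univ_of_forall fun y => ?_
  obtain ⟨p⟩ := hG x y
  exact key x y p hx

theorem rooted (hc : C4F G) {K : Finset V} (hK : Irr G K) {z : V} (hz : z ∉ K)
    (hx : ∃ x ∈ K, G.Adj z x) {t : ℕ} (h : (t + 1) * K.card ≤ ∑ v ∈ K, la G K v) :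
    Ext G {z} K (t + 2) := by
  obtain ⟨x, x1, x2⟩ := hx
  have p := card_pos.mpr ⟨x, x1⟩
  have a : ∑ v ∈ K, la G K v ≤ ∑ v ∈ K, la G ({z} ∪ K) v :=
    sum_le_sum fun v _ => la_le_of' fun y hy _ => mem_union_right _ hy
  exact pot hc t {z} K (by simpa using hz)
    (fun v _ a ha b hb _ _ => by rw [mem_singleton.mp ha, mem_singleton.mp hb])
    (hK.att ⟨x, x1, z, mem_singleton_self z, x2⟩) (by nlinarith)

/-- Two dense connected sets without edges between them. -/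
theorem two [Fintype V] (hG : G.Connected) (hc : C4F G) {K1 K2 : Finset V} (i1 : Irr G K1)
    (i2 : Irr G K2) (n1 : K1.Nonempty) (n2 : K2.Nonempty)
    (hb : ∀ x ∈ K1, ∀ y ∈ K2, x ≠ y ∧ ¬ G.Adj x y) {t : ℕ}
    (h1 : (t + 1) * K1.card ≤ ∑ v ∈ K1, la G K1 v) (h2 : (t + 1) * K2.card ≤ ∑ v ∈ K2, la G K2 v) :
    ∃ f, IP G f (2 * t + 3) := by
  obtain ⟨U, hU⟩ : ∃ U : Finset V, ∀ y, y ∈ U ↔ ∀ x ∈ K1, x ≠ y ∧ ¬ G.Adj x y :=
    ⟨univ.filter (fun y => ∀ x ∈ K1, x ≠ y ∧ ¬ G.Adj x y), fun y => by simp⟩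
  obtain ⟨y, hy⟩ := n2
  have k2 : ∀ y ∈ K2, y ∈ U := fun y hy => (hU y).mpr fun x hx => hb x hx y hy
  obtain ⟨D, d1, d2, d3⟩ := exists_comp (G := G) U (k2 y hy)
  have hKD : K2 ⊆ D := i2.subset (fun x hx y hy => d1.2 x hx y (k2 y hy)) hy d2
  obtain ⟨x, hx, z, hz, ha⟩ : ∃ x ∈ D, ∃ z, z ∉ D ∧ G.Adj x z := by
    by_contra hcon
    push Not at hcon
    have := irr_univ hG D ⟨subset_univ _, fun x hx z _ ha => by
      by_contra hz
      exact hcon x hx z hz ha⟩ ⟨y, d2⟩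
    obtain ⟨u, hu⟩ := n1
    exact ((hU u).mp (d1.1 (this ▸ mem_univ u)) u hu).1 rfl
  have z1 : z ∉ K1 := fun h => ((hU x).mp (d1.1 hx) z h).2 ha.symm
  have z2 : ∃ u ∈ K1, G.Adj z u := by
    by_contra hcon
    push Not at hcon
    exact hz (d1.2 x hx z ((hU z).mpr fun u hu =>
      ⟨fun he => z1 (he ▸ hu), fun h => hcon u hu h.symm⟩) ha)
  have e1 := rooted hc i1 z1 z2 h1
  have e2 : Ext G {z} D (t + 2) := by
    rcases detour hc i2 ⟨y, hy⟩ _ {z} D le_rfl ⟨by simpa using hz,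
      fun v _ a ha b hb _ _ => by rw [mem_singleton.mp ha, mem_singleton.mp hb],
      d3.att ⟨x, hx, z, mem_singleton_self z, ha.symm⟩⟩ hKD with ⟨u, u1, a, u2, u3⟩ | ⟨u, u1, u2, u3⟩
    · rw [mem_singleton.mp u2] at u3
      exact (rooted hc i2 (fun h => hz (hKD h)) ⟨u, u1, u3⟩ h2).mono Subset.rfl hKD le_rfl
    · exact (u3 _ (rooted hc i2 u1 u2 h2)).mono Subset.rfl Subset.rfl (by omega)
  obtain ⟨f, hf⟩ := join (a := t + 1) (b := t) (fun u hu v hv => (hU v).mp (d1.1 hv) u hu) e1 e2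
  exact ⟨f, hf.mono (by omega)⟩

/-- Large graphs have an induced path on twice the average number of vertices. -/
theorem twice (m : ℕ) : ∃ n, ∀ (V : Type) [Fintype V] (G : SimpleGraph V), G.Connected → C4F G →
    (m + 3) * Fintype.card V ≤ ∑ v, la G univ v → n ≤ Fintype.card V →
    ∃ f, IP G f (2 * m + 6) := by
  obtain ⟨j, hj⟩ := many (2 * m + 6)
  obtain ⟨n1, hn1⟩ := hj (0 + (4 * j * j + 1))
  obtain ⟨n2, hn2⟩ := hj (n1 * n1 + (4 * j * j + 1))
  refine ⟨n2, fun V _ G hG hc hL hn => ?_⟩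
  by_contra hno
  obtain ⟨H, -, hH⟩ := exists_max_image (univ : Finset V).powerset
    (fun T => ((∑ v ∈ T, la G T v : ℕ) : ℤ) - ((m + 3) * T.card : ℕ)) ⟨∅, empty_mem_powerset _⟩
  have hmax : ∀ T : Finset V, ∑ v ∈ T, la G T v + (m + 3) * H.card ≤
      ∑ v ∈ H, la G H v + (m + 3) * T.card := fun T => by
    have := hH T (mem_powerset.mpr (subset_univ T))
    omega
  by_cases hI : Irr G H
  · by_cases hs : n1 ≤ H.card
    · obtain ⟨S, -, s1, F, s2, s3⟩ := hn1 V G H hc hno hI hs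
      exact hno (core hc s1 s3 s2 hmax)
    · obtain ⟨S, -, s1, F, s2, s3⟩ := hn2 V G univ hc hno (irr_univ hG) hn
      refine hno (core hc s1 s3 s2 fun T => ?_)
      have a1 := hmax T
      have a2 : ∑ v ∈ H, la G H v ≤ H.card * n1 := by
        refine (sum_le_card_nsmul H _ n1 fun v _ => ?_).trans (by simp)
        exact ((la_le_deg H v).trans (card_filter_le _ _)).trans (by omega)
      have a3 : H.card * n1 ≤ n1 * n1 := Nat.mul_le_mul_right _ (by omega)
      rw [card_univ]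
      omega
  · simp only [Irr, not_forall] at hI
    obtain ⟨K, k1, ⟨x, hx⟩, k2⟩ := hI
    obtain ⟨y, y1, y2⟩ := exists_of_ssubset (ssubset_of_subset_of_ne k1.1 k2)
    obtain ⟨K1, c1, c2, c3⟩ := exists_comp (G := G) H (k1.1 hx)
    obtain ⟨K2, d1, d2, d3⟩ := exists_comp (G := G) H y1
    have hne : K1 ≠ K2 := fun he =>
      y2 (c3.subset (fun a ha b hb => k1.2 a ha b (c1.1 hb)) c2 hx (he ▸ d2))
    have hd := comp_disj c1 c3 d1 d3 hne
    have den : ∀ K, Cl G H K → (m + 2 + 1) * K.card ≤ ∑ v ∈ K, la G K v := fun K hK => by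
      have a1 := rem1 (G := G) (T := H) (S := ∅) (B := K) (by simpa using hK)
      have a2 := hmax (H \ K)
      have a3 := card_sdiff_add_card_eq_card hK.1
      rw [← a3, Nat.mul_add] at a2
      simp only [empty_union, sum_empty] at a1
      show (m + 3) * K.card ≤ _
      omega
    obtain ⟨f, hf⟩ := two hG hc c3 d3 ⟨x, c2⟩ ⟨y, d2⟩ (fun a ha b hb =>
      ⟨fun he => disjoint_left.mp hd ha (he ▸ hb),
        fun h => disjoint_left.mp hd (c1.2 a ha b (d1.1 hb) h) hb⟩) (den _ c1) (den _ d1)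
    exact hno ⟨f, hf.mono (by omega)⟩

theorem allbut : ∃ n0 : ℕ, ∀ (V : Type) [Fintype V] (G : SimpleGraph V), G.Connected → C4F G →
    ∀ L : ℕ, L * Fintype.card V ≤ ∑ v, la G univ v → n0 ≤ Fintype.card V →
    ∃ f, IP G f (G.radius.toNat + L) := by
  obtain ⟨L0, h0⟩ := large
  choose n hn using twice
  refine ⟨(range L0).sup n, fun V _ G hG hc L hL h => ?_⟩
  by_cases a : L0 ≤ L
  · exact h0 V G hG hc L hL a
  by_cases b : G.radius.toNat ≤ 2
  · exact small_radius hG hc L hL b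
  by_cases c : L < G.radius.toNat
  · obtain ⟨f, hf⟩ := ess hG (by omega)
    exact ⟨f, hf.mono (by omega)⟩
  obtain ⟨m, rfl⟩ : ∃ m, L = m + 3 := ⟨L - 3, by omega⟩
  obtain ⟨f, hf⟩ := hn m V G hG hc hL ((le_sup (f := n) (mem_range.mpr (by omega))).trans h)
  exact ⟨f, hf.mono (by omega)⟩

end Pool.Agent.Lib.MP_0d366e_co
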